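import Mathlib

/-!
# MP_394d50_gt: collapses (definitions)
-/

namespace SingerHK

variable {P : Type}

/-- One collapsing step from the complex `Y` to the subcomplex `Z`: the removed simplices form pairs `σ ⊂ t σ`, `σ ∈ S`,
where `σ` is a free face: `t σ` is the only simplex of `Y` which contains `σ` properly. Any number of pairs may be
removed in one step. -/
structure Coll (Y Z : Set (Finset P)) : Prop where
  sub : Z ⊆ Y
  down : ∀ c ∈ Z, ∀ d, d ⊆ c → d.Nonempty → d ∈ Z
  pairs : ∃ (S : Set (Finset P)) (t : Finset P → Finset P), Y \ Z = S ∪ t '' S ∧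
    Disjoint S (t '' S) ∧ Set.InjOn t S ∧ ∀ σ ∈ S, σ ⊂ t σ ∧ ∀ τ ∈ Y, σ ⊂ τ → τ = t σ

/-- The complex `Y` collapses in finitely many steps to a complex of dimension at most `d`. (For example a regular
neighbourhood of a `d`-dimensional complex, and every covering of it.) -/
inductive CollTo (d : ℕ) : Set (Finset P) → Prop
  | small (Y : Set (Finset P)) (h : ∀ c ∈ Y, c.card ≤ d + 1) : CollTo d Y
  | step (Y Z : Set (Finset P)) (h : Coll Y Z) (hz : CollTo d Z) : CollTo d Y

end SingerHK
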