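import Mathlib
import Pool.Agent.Lib_MP_394d50_hk.BDefs
import Pool.Agent.Lib_MP_394d50_hr.CDefs
import Pool.Agent.Lib_MP_394d50_vs.VStat

/-!
# MP_394d50_gt: hierarchies with arbitrary end pieces (definitions)

As in `Lib_MP_394d50_hk/BDefs.lean` a piece is a complex `Y` with the action of a group `A` and with a set `F` of subcomplexes, its
faces. In even dimensions the hierarchies may also end with pieces which are not cells: `A` is any group, and `Y / A` any
finite complex without `ℓ²`-homology above the middle dimension (for example if `Y` collapses to the middle dimension). Only the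
faces of such a piece have to have hierarchies again.
-/

namespace SingerHK

open SingerVS
open scoped Pointwise

section

variable {P : Type}

/-- The faces of the face `f`: its non-empty intersections with the other faces. -/
def facesIn (F : Set (Set (Finset P))) (f : Set (Finset P)) : Set (Set (Finset P)) :=
  {x | ∃ g ∈ F, g ≠ f ∧ (g ∩ f).Nonempty ∧ x = g ∩ f}

end

section

variable {Γ P : Type} [Group Γ] [DecidableEq P] [MulAction Γ P]

/-- The faces are in corner position: a face and its translates are equal or disjoint, different faces meet a face in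
different sets, and three pairwise meeting faces have a common simplex. -/
structure Corner (A : Subgroup Γ) (F : Set (Set (Finset P))) : Prop where
  orb : ∀ a ∈ A, ∀ f ∈ F, a • f = f ∨ ¬ (a • f ∩ f).Nonempty
  inj : ∀ f ∈ F, ∀ g ∈ F, ∀ h ∈ F, g ≠ f → h ≠ f → (g ∩ f).Nonempty → g ∩ f = h ∩ f → g = h
  tri : ∀ f ∈ F, ∀ g ∈ F, ∀ e ∈ F, (f ∩ g).Nonempty → (g ∩ e).Nonempty → (f ∩ e).Nonempty →
    (f ∩ g ∩ e).Nonempty

end

section

variable {Γ P : Type} [Group Γ] [LinearOrder P] [MulAction Γ P]

/-- The complexes `Y` with the faces `F` and the group `A` which have a hierarchy of dimension `n` with end pieces whose faces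
satisfy `Q`: the smallest class which contains the Haken cells (`cell`), which contains `(A, Y, F)` if it contains all
pieces of a decomposition of `Y` (`cut`), and which contains the end pieces (`low`): `n` is even (or there are no faces), the
faces are in corner position, `Y` collapses to a complex of dimension at most `n / 2`, or at least the `ℓ²`-Betti
numbers of `Y / A` vanish above the middle dimension, and for all faces `f` the complex `f`, with its stabiliser and
its faces, satisfies `Q`. -/
inductive Hier (n : ℕ) (Q : Subgroup Γ → Set (Finset P) → Set (Set (Finset P)) → Prop) :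
    Subgroup Γ → Set (Finset P) → Set (Set (Finset P)) → Prop
  | cell (A : Subgroup Γ) (Y : Set (Finset P)) (F : Set (Set (Finset P)))
      (h : CCell n Y F) : Hier n Q A Y F
  | low (A : Subgroup Γ) (Y : Set (Finset P)) (F : Set (Set (Finset P)))
      (hn : Even n ∨ F = ∅) (hc : Corner A F)
      (hb : CollTo (n / 2) Y ∨ ∀ k, n < 2 * k → bettiX A Y k = 0)
      (hq : ∀ f ∈ F, Q (A ⊓ MulAction.stabilizer Γ f) f (facesIn F f)) : Hier n Q A Y F
  | cut (A : Subgroup Γ) (Y : Set (Finset P)) (F V : Set (Set (Finset P))) (h : IsCut A Y F V)
      (hv : ∀ v ∈ V, Hier n Q (A ⊓ MulAction.stabilizer Γ v) v (facesOf F V v)) : Hier n Q A Y F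

/-- `Strat n A Y F`: the complex `Y` with the faces `F` and the group `A` has a hierarchy of dimension `n - 1`, the faces
are in corner position, and the same holds, in dimension `n - 2`, for all faces, and so on. (For `n = 0` there is no
such complex.) -/
def Strat : ℕ → Subgroup Γ → Set (Finset P) → Set (Set (Finset P)) → Prop
  | 0, _, _, _ => False
  | n + 1, A, Y, F => Hier n (Strat n) A Y F ∧ Corner A F ∧
      ∀ f ∈ F, Strat n (A ⊓ MulAction.stabilizer Γ f) f (facesIn F f)

end

end SingerHK
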