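import Mathlib
import Pool.Agent.Lib_MP_394d50_hk.PFl
import Pool.Agent.Lib_MP_394d50_hk.TMir
import Pool.Agent.Lib_MP_394d50_hk.GTh
import Pool.Agent.Lib_MP_394d50_hk.XHelly
import Pool.Agent.Lib_MP_394d50_hr.KDefs

/-!
# MP_394d50_gt, hierarchies with arbitrary end pieces: removing an orbit of faces (definitions)

`p` is a piece, `f` a face of `p`, the orbit of `f` under `p.A` is `orbF p.A f`, and `p.rest f` is the set of the other faces. All
functions are functions on the flags of `p`. A wall flag is a flag `(w, c)` with `c` in a face `v` of the orbit of `f`; in corner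
position this face is unique, `p.fw f c`. `p.Jw f` reflects the wall flags in this face; it is the identity on the other flags.
-/

namespace SingerHK

open SingerRA SingerVS SingerCub
open scoped Pointwise

section

variable {Γ P : Type} [Group Γ] [DecidableEq P] [MulAction Γ P]

/-- The orbit of the face `f`. -/
def orbF (A : Subgroup Γ) (f : Set (Finset P)) : Set (Set (Finset P)) := {g | ∃ a ∈ A, g = a • f}

theorem mem_orbF_self (A : Subgroup Γ) (f : Set (Finset P)) : f ∈ orbF A f :=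
  ⟨1, A.one_mem, (one_smul Γ f).symm⟩

theorem smul_mem_orbF {A : Subgroup Γ} {f g : Set (Finset P)} {a : Γ} (ha : a ∈ A)
    (hg : g ∈ orbF A f) : a • g ∈ orbF A f := by
  obtain ⟨b, hb, rfl⟩ := hg
  exact ⟨a * b, A.mul_mem ha hb, (mul_smul a b f).symm⟩

theorem smul_mem_orbF_iff {A : Subgroup Γ} {f g : Set (Finset P)} {a : Γ} (ha : a ∈ A) :
    a • g ∈ orbF A f ↔ g ∈ orbF A f := by
  refine ⟨fun h => ?_, fun h => smul_mem_orbF ha h⟩
  have h1 := smul_mem_orbF (A.inv_mem ha) h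
  rwa [inv_smul_smul] at h1

/-- The piece with the set `E` of faces instead of `p.F`. -/
def Pce.sub (p : Pce Γ P) (E : Set (Set (Finset P))) : Pce Γ P := ⟨p.A, p.Y, E, p.inc, p.inv⟩

/-- The face `f` as a piece. -/
def Pce.wall (p : Pce Γ P) (f : Set (Finset P)) : Pce Γ P :=
  ⟨p.A ⊓ MulAction.stabilizer Γ f, f, facesIn p.F f, p.inc, fun a ha σ hσ => by
    have h1 : a • f = f := ha.2
    rw [← h1]
    exact Set.smul_mem_smul_set hσ⟩

/-- The faces which are not in the orbit of `f`. -/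
def Pce.rest (p : Pce Γ P) (f : Set (Finset P)) : Set (Set (Finset P)) := p.F \ orbF p.A f

variable (p : Pce Γ P)

/-- The functions supported on the simplices with `m` vertices which match along the faces in `E`. -/
noncomputable def Pce.ChE (E : Set (Set (Finset P))) (m : ℕ) : Submodule ℝ (L2 p.Fl) :=
  (Submodule.span ℝ ({y | ∃ x : p.Fl, x.c.card ≠ m ∧ y = delta x} ∪
    {y | ∃ x : p.Fl, ∃ g ∈ E, x.c ∈ g ∧ y = delta x - delta (p.rf g x)}))ᗮ

/-- The cocycles among them. -/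
noncomputable def Pce.ZsE (E : Set (Set (Finset P))) (m : ℕ) : Submodule ℝ (L2 p.Fl) :=
  (Submodule.span ℝ (({y | ∃ x : p.Fl, x.c.card ≠ m ∧ y = delta x} ∪
    {y | ∃ x : p.Fl, ∃ g ∈ E, x.c ∈ g ∧ y = delta x - delta (p.rf g x)}) ∪
    {y | ∃ w, ∃ d ∈ p.Y, p.IsCo w d y}))ᗮ

/-- The simplex `c` is in a face of the orbit of `f`. -/
def Pce.InW (f : Set (Finset P)) (c : Finset P) : Prop := ∃ v ∈ orbF p.A f, c ∈ v

open scoped Classical in
/-- The face of the orbit of `f` which contains `c`. -/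
noncomputable def Pce.fw (f : Set (Finset P)) (c : Finset P) : Set (Finset P) :=
  if h : p.InW f c then h.choose else ∅

open scoped Classical in
/-- The reflection of the wall flags. -/
noncomputable def Pce.jw (f : Set (Finset P)) (x : p.Fl) : p.Fl :=
  if p.InW f x.c then p.rf (p.fw f x.c) x else x

variable {p}

theorem Pce.jw_pos {f : Set (Finset P)} {x : p.Fl} (h : p.InW f x.c) :
    p.jw f x = p.rf (p.fw f x.c) x := if_pos h

theorem Pce.jw_neg {f : Set (Finset P)} {x : p.Fl} (h : ¬ p.InW f x.c) : p.jw f x = x := if_neg h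

theorem Pce.jw_c (f : Set (Finset P)) (x : p.Fl) : (p.jw f x).c = x.c := by
  by_cases h : p.InW f x.c
  · rw [Pce.jw_pos h]
    rfl
  · rw [Pce.jw_neg h]

theorem Pce.jw_jw (f : Set (Finset P)) (x : p.Fl) : p.jw f (p.jw f x) = x := by
  by_cases h : p.InW f x.c
  · have h' : p.InW f (p.jw f x).c := by
      rw [Pce.jw_c]
      exact h
    rw [Pce.jw_pos h', Pce.jw_c, Pce.jw_pos h, Pce.rf_rf]
  · rw [Pce.jw_neg h, Pce.jw_neg h]

variable (p)

/-- The reflection of the wall flags, as a bijection. -/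
noncomputable def Pce.Jw (f : Set (Finset P)) : p.Fl ≃ p.Fl where
  toFun := p.jw f
  invFun := p.jw f
  left_inv := p.jw_jw f
  right_inv := p.jw_jw f

/-- The operator `z ↦ z ∘ J`. -/
noncomputable def Pce.Jop (f : Set (Finset P)) : L2 p.Fl ≃ₗᵢ[ℝ] L2 p.Fl :=
  twE (p.Jw f) (fun _ => 1) (fun _ => Or.inl rfl)

/-- The operator `z ↦ z - z ∘ J`. -/
noncomputable def Pce.Psi (f : Set (Finset P)) : L2 p.Fl →L[ℝ] L2 p.Fl :=
  ContinuousLinearMap.id ℝ (L2 p.Fl) -
    ((p.Jop f).toContinuousLinearEquiv : L2 p.Fl →L[ℝ] L2 p.Fl)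

variable {p}

theorem Pce.Jop_apply (f : Set (Finset P)) (z : L2 p.Fl) (x : p.Fl) :
    (p.Jop f z) x = z (p.jw f x) := by
  have h1 : (p.Jop f z) (p.jw f (p.jw f x)) = 1 * z (p.jw f x) :=
    twE_apply (p.Jw f) (fun _ => 1) (fun _ => Or.inl rfl) z (p.jw f x)
  rwa [Pce.jw_jw, one_mul] at h1

theorem Pce.Psi_apply (f : Set (Finset P)) (z : L2 p.Fl) (x : p.Fl) :
    (p.Psi f z) x = z x - z (p.jw f x) := by
  show z x - (p.Jop f z) x = _
  rw [Pce.Jop_apply]

variable (p)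

/-- The functions on the wall flags which match along the other faces. -/
noncomputable def Pce.FS (f : Set (Finset P)) (m : ℕ) : Submodule ℝ (L2 p.Fl) :=
  (Submodule.span ℝ ({y | ∃ x : p.Fl, x.c.card ≠ m ∧ y = delta x} ∪
    {y | ∃ x : p.Fl, ∃ g ∈ p.rest f, x.c ∈ g ∧ y = delta x - delta (p.rf g x)} ∪
    {y | ∃ x : p.Fl, ¬ p.InW f x.c ∧ y = delta x}))ᗮ

/-- The cocycles inside the walls. -/
noncomputable def Pce.FZ (f : Set (Finset P)) (m : ℕ) : Submodule ℝ (L2 p.Fl) :=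
  (Submodule.span ℝ ({y | ∃ x : p.Fl, x.c.card ≠ m ∧ y = delta x} ∪
    {y | ∃ x : p.Fl, ∃ g ∈ p.rest f, x.c ∈ g ∧ y = delta x - delta (p.rf g x)} ∪
    {y | ∃ x : p.Fl, ¬ p.InW f x.c ∧ y = delta x} ∪
    {y | ∃ w, ∃ d ∈ p.Y, p.InW f d ∧ p.IsCo w d y}))ᗮ

/-- The functions which match along the other faces and are antisymmetric under the reflection of the walls. -/
noncomputable def Pce.DS (f : Set (Finset P)) (m : ℕ) : Submodule ℝ (L2 p.Fl) :=
  (Submodule.span ℝ ({y | ∃ x : p.Fl, x.c.card ≠ m ∧ y = delta x} ∪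
    {y | ∃ x : p.Fl, ∃ g ∈ p.rest f, x.c ∈ g ∧ y = delta x - delta (p.rf g x)} ∪
    {y | ∃ x : p.Fl, y = delta x + delta (p.jw f x)}))ᗮ

/-- The antisymmetric cocycles inside the walls. -/
noncomputable def Pce.DZ (f : Set (Finset P)) (m : ℕ) : Submodule ℝ (L2 p.Fl) :=
  (Submodule.span ℝ ({y | ∃ x : p.Fl, x.c.card ≠ m ∧ y = delta x} ∪
    {y | ∃ x : p.Fl, ∃ g ∈ p.rest f, x.c ∈ g ∧ y = delta x - delta (p.rf g x)} ∪
    {y | ∃ x : p.Fl, y = delta x + delta (p.jw f x)} ∪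
    {y | ∃ w, ∃ d ∈ p.Y, p.InW f d ∧ p.IsCo w d y}))ᗮ

instance Pce.instProjChE (E : Set (Set (Finset P))) (m : ℕ) :
    (p.ChE E m).HasOrthogonalProjection := by
  unfold Pce.ChE
  infer_instance

instance Pce.instProjZsE (E : Set (Set (Finset P))) (m : ℕ) :
    (p.ZsE E m).HasOrthogonalProjection := by
  unfold Pce.ZsE
  infer_instance

instance Pce.instProjFS (f : Set (Finset P)) (m : ℕ) : (p.FS f m).HasOrthogonalProjection := by
  unfold Pce.FS
  infer_instance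

instance Pce.instProjFZ (f : Set (Finset P)) (m : ℕ) : (p.FZ f m).HasOrthogonalProjection := by
  unfold Pce.FZ
  infer_instance

instance Pce.instProjDS (f : Set (Finset P)) (m : ℕ) : (p.DS f m).HasOrthogonalProjection := by
  unfold Pce.DS
  infer_instance

instance Pce.instProjDZ (f : Set (Finset P)) (m : ℕ) : (p.DZ f m).HasOrthogonalProjection := by
  unfold Pce.DZ
  infer_instance

/-- The regions: `x` and `u` are in the same region when they are in the same wall, and differ by a reflection in the faces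
which meet the wall. -/
noncomputable def Pce.RW (f : Set (Finset P)) (hf : f ⊆ p.Y) : RegD p.Fl (p.wall f).Fl where
  π x := ⟨thv (p.rest f) f x.w, x.c, hf x.mem⟩
  rg x := {u | (∀ v ∈ orbF p.A f, u.c ∈ v ↔ x.c ∈ v) ∧
    x.w⁻¹ * u.w ∈ par (allG P) {g | g ∈ p.rest f ∧ ∃ v ∈ orbF p.A f, x.c ∈ v ∧ (g ∩ v).Nonempty}}
  rg' x := {u | x.w⁻¹ * u.w ∈ par (allG P) (Sv' (p.rest f) f)}

section mem

variable {p} {f : Set (Finset P)} {E : Set (Set (Finset P))} {m : ℕ} {z : L2 p.Fl}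

private theorem wd_sub {C : Type} (x y : C) (z : L2 C) :
    inner ℝ (delta x - delta y : L2 C) z = z x - z y := by
  rw [inner_sub_left, delta_inner, delta_inner]

theorem Pce.mem_ChE : z ∈ p.ChE E m ↔ (∀ x : p.Fl, x.c.card ≠ m → z x = 0) ∧
    ∀ x : p.Fl, ∀ g ∈ E, x.c ∈ g → z (p.rf g x) = z x := by
  unfold Pce.ChE
  rw [SingerLG.mem_orth_span]
  constructor
  · intro h
    refine ⟨fun x hx => ?_, fun x g hg hx => ?_⟩
    · rw [← delta_inner x z]
      exact h _ (Or.inl ⟨x, hx, rfl⟩)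
    · have h1 := h _ (Or.inr ⟨x, g, hg, hx, rfl⟩)
      rw [wd_sub] at h1
      linarith
  · rintro ⟨h1, h2⟩ y (⟨x, hx, rfl⟩ | ⟨x, g, hg, hx, rfl⟩)
    · rw [delta_inner]
      exact h1 x hx
    · rw [wd_sub, h2 x g hg hx, sub_self]

theorem Pce.mem_ZsE : z ∈ p.ZsE E m ↔ z ∈ p.ChE E m ∧
    ∀ w, ∀ d ∈ p.Y, ∀ y, p.IsCo w d y → inner ℝ y z = 0 := by
  unfold Pce.ZsE Pce.ChE
  rw [SingerLG.mem_orth_span, SingerLG.mem_orth_span]
  constructor
  · intro h
    exact ⟨fun y hy => h y (Or.inl hy), fun w d hd y hy => h y (Or.inr ⟨w, d, hd, hy⟩)⟩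
  · rintro ⟨h1, h2⟩ y (hy | ⟨w, d, hd, hy⟩)
    · exact h1 y hy
    · exact h2 w d hd y hy

theorem Pce.mem_FS : z ∈ p.FS f m ↔ z ∈ p.ChE (p.rest f) m ∧
    ∀ x : p.Fl, ¬ p.InW f x.c → z x = 0 := by
  unfold Pce.FS Pce.ChE
  rw [SingerLG.mem_orth_span, SingerLG.mem_orth_span]
  constructor
  · intro h
    refine ⟨fun y hy => h y (Or.inl hy), fun x hx => ?_⟩
    rw [← delta_inner x z]
    exact h _ (Or.inr ⟨x, hx, rfl⟩)
  · rintro ⟨h1, h2⟩ y (hy | ⟨x, hx, rfl⟩)
    · exact h1 y hy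
    · rw [delta_inner]
      exact h2 x hx

theorem Pce.mem_FZ : z ∈ p.FZ f m ↔ z ∈ p.FS f m ∧
    ∀ w, ∀ d ∈ p.Y, p.InW f d → ∀ y, p.IsCo w d y → inner ℝ y z = 0 := by
  unfold Pce.FZ Pce.FS
  rw [SingerLG.mem_orth_span, SingerLG.mem_orth_span]
  constructor
  · intro h
    exact ⟨fun y hy => h y (Or.inl hy), fun w d hd hW y hy => h y (Or.inr ⟨w, d, hd, hW, hy⟩)⟩
  · rintro ⟨h1, h2⟩ y (hy | ⟨w, d, hd, hW, hy⟩)
    · exact h1 y hy
    · exact h2 w d hd hW y hy

theorem Pce.mem_DS : z ∈ p.DS f m ↔ z ∈ p.ChE (p.rest f) m ∧ ∀ x : p.Fl, z (p.jw f x) = - z x := by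
  unfold Pce.DS Pce.ChE
  rw [SingerLG.mem_orth_span, SingerLG.mem_orth_span]
  constructor
  · intro h
    refine ⟨fun y hy => h y (Or.inl hy), fun x => ?_⟩
    have h1 := h _ (Or.inr ⟨x, rfl⟩)
    rw [inner_add_left, delta_inner, delta_inner] at h1
    linarith
  · rintro ⟨h1, h2⟩ y (hy | ⟨x, rfl⟩)
    · exact h1 y hy
    · rw [inner_add_left, delta_inner, delta_inner, h2 x, add_neg_cancel]

theorem Pce.mem_DZ : z ∈ p.DZ f m ↔ z ∈ p.DS f m ∧
    ∀ w, ∀ d ∈ p.Y, p.InW f d → ∀ y, p.IsCo w d y → inner ℝ y z = 0 := by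
  unfold Pce.DZ Pce.DS
  rw [SingerLG.mem_orth_span, SingerLG.mem_orth_span]
  constructor
  · intro h
    exact ⟨fun y hy => h y (Or.inl hy), fun w d hd hW y hy => h y (Or.inr ⟨w, d, hd, hW, hy⟩)⟩
  · rintro ⟨h1, h2⟩ y (hy | ⟨w, d, hd, hW, hy⟩)
    · exact h1 y hy
    · exact h2 w d hd hW y hy

end mem

end

end SingerHK
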