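import Mathlib
import Pool.Agent.Lib_MP_394d50_hr.WDefs

/-!
# Piece HR-1: the piece with fewer faces, and a face as a piece

`sub_ok`: all fields from `hp` (`cx`, `inc_*` are the same; `mfin`: a subset of a finite set).
`wall_ok` (model: `Cut.sub_ok` in `Lib_MP_394d50_hk/CSub.lean`): `cx`: `ne`, `down` from `hp.fdown`, `hp.cx`; `inv`: `a • f = f`; `free` from `hp.cx.free`; `fin`: `hp.cx.fin` gives representatives `R`; for every `r ∈ R` for which some
`a • r` (`a ∈ p.A`) is in `f` choose one such `r' = a • r ∈ f`; these `r'` are representatives: for `σ ∈ f`, `σ = b • r`, so `r' = a • r = (a b⁻¹) • σ`; `(a b⁻¹) • f` and `f` have the common simplex `r'`, so `(a b⁻¹) • f = f`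
by `hc.orb`. `fsub`, `fdown`, `fne`: clear. `finv`: `a • (g ∩ f) = a • g ∩ f` (`Set.smul_set_inter`), `a • g ≠ f` as `a • f = f`. `mfin`: `{x ∈ facesIn p.F f | c ∈ x}` is in the image of `{g ∈ p.F | c ∈ g}` under `g ↦ g ∩ f`.
`inc_sq`: the sum over `{σ // σ ∈ f}` is the sum over `{σ // σ ∈ p.Y}` since `p.inc c d ≠ 0`, `d ∈ f` gives `c = d.erase v ∈ f`. `inc_std`: restrict.
-/

namespace SingerHK

open SingerRA SingerVS SingerCub
open scoped Pointwise

variable {Γ P : Type} [Group Γ] [DecidableEq P] [MulAction Γ P] {p : Pce Γ P}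

theorem Corner.mono {A : Subgroup Γ} {F E : Set (Set (Finset P))} (hc : Corner A F) (hE : E ⊆ F) :
    Corner A E :=
  ⟨fun a ha f hf => hc.orb a ha f (hE hf),
    fun f hf g hg h hh => hc.inj f (hE hf) g (hE hg) h (hE hh),
    fun f hf g hg e he => hc.tri f (hE hf) g (hE hg) e (hE he)⟩

theorem Pce.Ok.sub_ok (hp : p.Ok) {E : Set (Set (Finset P))} (hE : E ⊆ p.F)
    (hinv : ∀ a ∈ p.A, ∀ g ∈ E, a • g ∈ E) : (p.sub E).Ok where
  cx := hp.cx
  fsub f hf := hp.fsub f (hE hf)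
  fdown f hf := hp.fdown f (hE hf)
  fne f hf := hp.fne f (hE hf)
  finv := hinv
  mfin c hc := (hp.mfin c hc).subset fun f hf => ⟨hE hf.1, hf.2⟩
  inc_smul := hp.inc_smul
  inc_fac := hp.inc_fac
  inc_one := hp.inc_one
  inc_sq := hp.inc_sq
  inc_std := hp.inc_std

private theorem WOk_cx (hp : p.Ok) (hc : Corner p.A p.F) {f : Set (Finset P)} (hf : f ∈ p.F) :
    FreeCx (p.wall f).A (p.wall f).Y where
  ne σ hσ := hp.cx.ne σ (hp.fsub f hf hσ)
  down := hp.fdown f hf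
  inv h σ hσ := (p.wall f).inv h.1 h.2 σ hσ
  free h σ hσ e := by
    have h1 : (⟨h.1, h.2.1⟩ : p.A) = 1 := hp.cx.free ⟨h.1, h.2.1⟩ σ (hp.fsub f hf hσ) e
    have h2 : h.1 = 1 := congrArg Subtype.val h1
    exact Subtype.ext h2
  fin := by
    classical
    obtain ⟨R, -, hR⟩ := hp.cx.fin
    let T' : Set (Finset P) := {r | r ∈ (R : Set (Finset P)) ∧ ∃ a ∈ p.A, a • r ∈ f}
    have hT' : T'.Finite := R.finite_toSet.subset fun t ht => ht.1
    let ch : Finset P → Γ := fun r => if h : ∃ a ∈ p.A, a • r ∈ f then h.choose else 1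
    have hch : ∀ r ∈ T', ch r ∈ p.A ∧ ch r • r ∈ f := by
      intro r hr
      have h1 : ch r = hr.2.choose := dif_pos hr.2
      rw [h1]
      exact hr.2.choose_spec
    have hfin : ((fun r => ch r • r) '' T').Finite := hT'.image _
    refine ⟨hfin.toFinset, ?_, ?_⟩
    · intro r hr
      rw [Set.Finite.mem_toFinset] at hr
      obtain ⟨t, ht, rfl⟩ := hr
      exact (hch t ht).2
    · intro c hc'
      obtain ⟨b, r, hr, e⟩ := hR c (hp.fsub f hf hc')
      have e1 : c = b.1 • r := e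
      have ht' : r ∈ T' := ⟨hr, b.1, b.2, by rw [← e1]; exact hc'⟩
      obtain ⟨h1, h2⟩ := hch r ht'
      have h3 : b.1 * (ch r)⁻¹ ∈ p.A := p.A.mul_mem b.2 (p.A.inv_mem h1)
      have h5 : (b.1 * (ch r)⁻¹) • (ch r • r) = c := by
        rw [mul_smul, inv_smul_smul, ← e1]
      have h4 : (b.1 * (ch r)⁻¹) • f = f := by
        rcases hc.orb _ h3 f hf with h | h
        · exact h
        · exact absurd ⟨c, ⟨by rw [← h5]; exact Set.smul_mem_smul_set h2, hc'⟩⟩ h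
      refine ⟨⟨b.1 * (ch r)⁻¹, h3, h4⟩, ch r • r, ?_, ?_⟩
      · rw [Set.Finite.mem_toFinset]
        exact ⟨r, ht', rfl⟩
      · show c = (b.1 * (ch r)⁻¹) • (ch r • r)
        exact h5.symm

private theorem WOk_sq (hp : p.Ok) {f : Set (Finset P)} (hf : f ∈ p.F) {b d : Finset P}
    (hb : b ∈ f) (hd : d ∈ f) :
    ∑ᶠ c : {σ // σ ∈ f}, p.inc b c.1 * p.inc c.1 d = 0 := by
  have h1 : ∑ᶠ c : {σ // σ ∈ f}, p.inc b c.1 * p.inc c.1 d =
      ∑ᶠ c ∈ f, p.inc b c * p.inc c d :=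
    finsum_set_coe_eq_finsum_mem (f := fun c => p.inc b c * p.inc c d) f
  have h2 : ∑ᶠ c : {σ // σ ∈ p.Y}, p.inc b c.1 * p.inc c.1 d =
      ∑ᶠ c ∈ p.Y, p.inc b c * p.inc c d :=
    finsum_set_coe_eq_finsum_mem (f := fun c => p.inc b c * p.inc c d) p.Y
  have h3 : ∑ᶠ c ∈ f, p.inc b c * p.inc c d = ∑ᶠ c ∈ p.Y, p.inc b c * p.inc c d := by
    refine finsum_mem_inter_support_eq _ _ _ ?_
    ext c
    constructor
    · rintro ⟨hc, hc'⟩
      exact ⟨hp.fsub f hf hc, hc'⟩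
    · rintro ⟨hc, hc'⟩
      refine ⟨?_, hc'⟩
      have h4 : p.inc c d ≠ 0 := fun e => hc' (by
        show p.inc b c * p.inc c d = 0
        rw [e, mul_zero])
      obtain ⟨u, -, e⟩ := (hp.inc_fac c hc d (hp.fsub f hf hd)).mp h4
      refine hp.fdown f hf d hd c ?_ (hp.cx.ne c hc)
      rw [e]
      exact Finset.erase_subset _ _
  rw [h1, h3, ← h2]
  exact hp.inc_sq b (hp.fsub f hf hb) d (hp.fsub f hf hd)

theorem Pce.Ok.wall_ok (hp : p.Ok) (hc : Corner p.A p.F) {f : Set (Finset P)} (hf : f ∈ p.F) :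
    (p.wall f).Ok where
  cx := WOk_cx hp hc hf
  fsub x hx := by
    obtain ⟨g, -, -, -, rfl⟩ := hx
    exact Set.inter_subset_right
  fdown x hx σ hσ τ hτ hn := by
    obtain ⟨g, hg, -, -, rfl⟩ := hx
    exact ⟨hp.fdown g hg σ hσ.1 τ hτ hn, hp.fdown f hf σ hσ.2 τ hτ hn⟩
  fne x hx := by
    obtain ⟨g, -, -, h, rfl⟩ := hx
    exact h
  finv a ha x hx := by
    have ha1 : a ∈ p.A := ha.1
    have ha2 : a • f = f := ha.2
    obtain ⟨g, hg, hne, hn, rfl⟩ := hx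
    refine ⟨a • g, hp.finv a ha1 g hg, ?_, ?_, ?_⟩
    · intro e
      rw [← ha2] at e
      exact hne (smul_left_cancel a e)
    · have h1 := hn.smul_set (a := a)
      rwa [Set.smul_set_inter, ha2] at h1
    · rw [Set.smul_set_inter, ha2]
  mfin c hc' := by
    refine ((hp.mfin c (hp.fsub f hf hc')).image (fun g => g ∩ f)).subset ?_
    rintro x ⟨⟨g, hg, -, -, rfl⟩, hcx⟩
    exact ⟨g, ⟨hg, hcx.1⟩, rfl⟩
  inc_smul a ha c hc' d hd := hp.inc_smul a ha.1 c (hp.fsub f hf hc') d (hp.fsub f hf hd)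
  inc_fac c hc' d hd := hp.inc_fac c (hp.fsub f hf hc') d (hp.fsub f hf hd)
  inc_one := hp.inc_one
  inc_sq b hb d hd := WOk_sq hp hf hb hd
  inc_std := by
    obtain ⟨s, r, h1, h2, h3⟩ := hp.inc_std
    exact ⟨s, r, h1, fun σ hσ => h2 σ (hp.fsub f hf hσ), fun c hc' d hd =>
      h3 c (hp.fsub f hf hc') d (hp.fsub f hf hd)⟩

theorem Pce.Ok.rest_inv (hp : p.Ok) (f : Set (Finset P)) : ∀ a ∈ p.A, ∀ g ∈ p.rest f,
    a • g ∈ p.rest f := by
  rintro a ha g ⟨hg, hn⟩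
  exact ⟨hp.finv a ha g hg, fun h => hn ((smul_mem_orbF_iff ha).mp h)⟩

/-- The faces of `f` are its intersections with the faces which are not in the orbit of `f`. -/
theorem Corner.facesIn_eq (hc : Corner p.A p.F) {f : Set (Finset P)} (hf : f ∈ p.F) :
    facesIn p.F f = Sv' (p.rest f) f := by
  ext x
  constructor
  · rintro ⟨g, hg, hne, hgf, rfl⟩
    refine ⟨g, ⟨hg, ?_⟩, hgf, rfl⟩
    rintro ⟨a, ha, rfl⟩
    rcases hc.orb a ha f hf with h | h
    · exact hne h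
    · exact h hgf
  · rintro ⟨g, ⟨hg, hn⟩, hgf, rfl⟩
    exact ⟨g, hg, fun e => hn (e ▸ mem_orbF_self p.A _), hgf, rfl⟩

end SingerHK
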