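import Mathlib
import Pool.Agent.Lib_MP_394d50_hr.WOk

/-!
# Piece HR-13: finitely many orbits of faces

`hp.cx.fin` gives a finite set `R` of representatives of the simplices. `s` = the union over `r ∈ R` of `{f | f ∈ p.F ∧ r ∈ f}` (finite, `hp.mfin`). For `g ∈ p.F` let `c ∈ g` (`hp.fne`), `c = a • r`: `a⁻¹ • g ∈ p.F` contains `r`, and `g = a • (a⁻¹ • g)`.
-/

namespace SingerHK

open SingerRA SingerVS SingerCub
open scoped Pointwise

variable {Γ P : Type} [Group Γ] [DecidableEq P] [MulAction Γ P] {p : Pce Γ P}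

theorem Pce.Ok.fin_orb (hp : p.Ok) : ∃ s : Finset (Set (Finset P)), (∀ f ∈ s, f ∈ p.F) ∧
    ∀ g ∈ p.F, ∃ f ∈ s, g ∈ orbF p.A f := by
  classical
  obtain ⟨R, hR, hrep⟩ := hp.cx.fin
  have hfin : (⋃ r ∈ (R : Set (Finset P)), {f | f ∈ p.F ∧ r ∈ f}).Finite :=
    R.finite_toSet.biUnion fun r hr => hp.mfin r (hR r hr)
  refine ⟨hfin.toFinset, ?_, ?_⟩
  · intro f hf
    rw [Set.Finite.mem_toFinset, Set.mem_iUnion₂] at hf
    obtain ⟨r, _, hf1, _⟩ := hf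
    exact hf1
  · intro g hg
    obtain ⟨c, hc⟩ := hp.fne g hg
    obtain ⟨a, r, hr, rfl⟩ := hrep c (hp.fsub g hg hc)
    refine ⟨(a : Γ)⁻¹ • g, ?_, (a : Γ), a.2, (smul_inv_smul _ _).symm⟩
    rw [Set.Finite.mem_toFinset, Set.mem_iUnion₂]
    refine ⟨r, hr, hp.finv _ (p.A.inv_mem a.2) g hg, ?_⟩
    rw [Set.mem_inv_smul_set_iff]
    exact hc

end SingerHK
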