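import Mathlib
import Pool.Agent.Lib_MP_394d50_hr.CDefs
import Pool.Agent.Lib_MP_394d50_hk.PRk

/-!
# MP_394d50_gt: the `ℓ²`-Betti numbers of a complex which collapses

Every cocycle of degree larger than `d` is a coboundary: on the complex of dimension `d` this is clear, and in a
collapsing step the values on the simplices `t σ` are made zero by the coboundary of a cochain on the free faces `σ`,
and then the values on the free faces are zero by the cocycle condition.
-/

namespace SingerHK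

open SingerRA SingerVS SingerCub
open scoped Pointwise

variable {Γ P : Type} [Group Γ] [DecidableEq P] [MulAction Γ P] {p : Pce Γ P}

private theorem inner_single {C : Type} {y z : L2 C} {q0 : C}
    (h : ∀ q, q ≠ q0 → y q = 0 ∨ z q = 0) : inner ℝ y z = y q0 * z q0 := by
  classical
  rw [lp.inner_eq_tsum, tsum_eq_single q0]
  · rw [real_inner_eq_re_inner, RCLike.inner_apply]
    simp [mul_comm]
  · intro q hq
    rcases h q hq with h1 | h1
    · rw [h1, inner_zero_left]
    · rw [h1, inner_zero_right]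

/-- the extension by zero of a reindexed function -/
private theorem exists_ext {D : Type} (Q : Set D) (j : {q // q ∈ Q} → D)
    (hj : Function.Injective j) (u : {q // q ∈ Q} → ℝ) (hu : ∀ q, |u q| ≤ 1) (g : L2 D) :
    ∃ z : L2 D, (∀ q : {q // q ∈ Q}, z q.1 = u q * g (j q)) ∧ ∀ q, q ∉ Q → z q = 0 := by
  classical
  have h2 : (0 : ℝ) < (2 : ENNReal).toReal := by norm_num
  obtain ⟨f, hf⟩ : ∃ f : D → ℝ, f = fun q => if h : q ∈ Q then u ⟨q, h⟩ * g (j ⟨q, h⟩) else 0 :=
    ⟨_, rfl⟩
  have hfQ : ∀ q : {q // q ∈ Q}, f q.1 = u q * g (j q) := fun q => by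
    rw [hf]
    exact dif_pos q.2
  have hfn : ∀ q, q ∉ Q → f q = 0 := fun q hq => by
    rw [hf]
    exact dif_neg hq
  refine ⟨⟨f, ?_⟩, fun q => hfQ q, fun q hq => hfn q hq⟩
  refine (memℓp_gen_iff h2).mpr ?_
  have h1 := (memℓp_gen_iff h2).mp (lp.memℓp g)
  refine (Subtype.val_injective.summable_iff (f := fun q => ‖f q‖ ^ (2 : ENNReal).toReal)
    (g := fun q : {q // q ∈ Q} => q.1) ?_).mp ?_
  · intro x hx
    have hx' : x ∉ Q := fun h => hx ⟨⟨x, h⟩, rfl⟩
    show ‖f x‖ ^ (2 : ENNReal).toReal = 0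
    rw [hfn x hx', norm_zero]
    exact Real.zero_rpow h2.ne'
  · refine Summable.of_nonneg_of_le (fun q => ?_) (fun q => ?_) (h1.comp_injective hj)
    · show 0 ≤ ‖f q.1‖ ^ (2 : ENNReal).toReal
      positivity
    · show ‖f q.1‖ ^ (2 : ENNReal).toReal ≤ ‖g (j q)‖ ^ (2 : ENNReal).toReal
      rw [hfQ q, norm_mul]
      refine Real.rpow_le_rpow (by positivity) ?_ h2.le
      calc ‖u q‖ * ‖g (j q)‖ ≤ 1 * ‖g (j q)‖ :=
            mul_le_mul_of_nonneg_right (hu q) (norm_nonneg _)
        _ = ‖g (j q)‖ := one_mul _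

private theorem facet_card (hp : p.Ok) {c d : Finset P} (hc : c ∈ p.Y) (hd : d ∈ p.Y)
    (h : p.inc c d ≠ 0) : c ⊂ d ∧ d.card = c.card + 1 := by
  obtain ⟨v, hv, rfl⟩ := (hp.inc_fac c hc d hd).mp h
  refine ⟨Finset.erase_ssubset hv, ?_⟩
  rw [Finset.card_erase_of_mem hv]
  have := Finset.card_pos.mpr ⟨v, hv⟩
  omega

/-- on a complex which collapses to dimension `d`, every cocycle of degree `m > d` is a coboundary -/
private theorem coll_aux (hp : p.Ok) (hF : p.F = ∅) {δ : L2 p.Fl →L[ℝ] L2 p.Fl} (hδ : p.Cob δ)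
    {d m : ℕ} (hm : d < m) {Y : Set (Finset P)} (h : CollTo d Y) :
    Y ⊆ p.Y → (∀ c ∈ Y, ∀ e, e ⊆ c → e.Nonempty → e ∈ Y) →
    ∀ y ∈ p.Zs (m + 1), ∃ x ∈ p.Chs m, ∀ q : p.Fl, q.c ∈ Y → (y - δ x) q = 0 := by
  classical
  induction h with
  | small Y h =>
    intro _ _ y hy
    refine ⟨0, Submodule.zero_mem _, fun q hq => ?_⟩
    rw [map_zero, sub_zero]
    refine (Pce.mem_Chs.mp (p.Zs_le _ hy)).1 q ?_
    have := h q.c hq
    omega
  | step Y Z hYZ hz ih =>
    intro hYs hYd y hy
    obtain ⟨x1, hx1, hy1⟩ := ih (hYZ.sub.trans hYs) hYZ.down y hy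
    obtain ⟨y1, hy1d⟩ : ∃ y1, y1 = y - δ x1 := ⟨_, rfl⟩
    rw [← hy1d] at hy1
    have hy1Z : y1 ∈ p.Zs (m + 1) := by
      rw [hy1d]
      exact Submodule.sub_mem _ hy (hp.cob_map hδ hx1)
    obtain ⟨S, t, hS, hdis, hinj, ht⟩ := hYZ.pairs
    have hSY : ∀ σ ∈ S, σ ∈ Y ∧ σ ∉ Z := fun σ hσ => by
      have : σ ∈ Y \ Z := by rw [hS]; exact Or.inl hσ
      exact this
    have htY : ∀ σ ∈ S, t σ ∈ Y ∧ t σ ∉ Z := fun σ hσ => by
      have : t σ ∈ Y \ Z := by rw [hS]; exact Or.inr ⟨σ, hσ, rfl⟩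
      exact this
    have hnS : ∀ σ ∈ S, ∀ σ' ∈ S, t σ ≠ σ' := fun σ hσ σ' hσ' e =>
      Set.disjoint_left.mp hdis hσ' ⟨σ, hσ, e⟩
    -- the simplex above a free face is a coface of codimension one
    have hfac : ∀ σ ∈ S, ∃ v ∈ t σ, σ = (t σ).erase v := by
      intro σ hσ
      obtain ⟨h1, h2⟩ := ht σ hσ
      obtain ⟨v, hv, hvn⟩ := Finset.exists_of_ssubset h1
      have h3 : insert v σ ⊆ t σ := Finset.insert_subset hv h1.1
      have h4 : insert v σ ∈ Y := hYd _ (htY σ hσ).1 _ h3 (Finset.insert_nonempty _ _)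
      have h5 := h2 _ h4 (Finset.ssubset_insert hvn)
      exact ⟨v, hv, by rw [← h5, Finset.erase_insert hvn]⟩
    have hincne : ∀ σ ∈ S, p.inc σ (t σ) ≠ 0 := fun σ hσ =>
      (hp.inc_fac _ (hYs (hSY σ hσ).1) _ (hYs (htY σ hσ).1)).mpr (hfac σ hσ)
    have hinc : ∀ σ ∈ S, (p.inc σ (t σ) : ℝ) * (p.inc σ (t σ) : ℝ) = 1 := by
      intro σ hσ
      rcases hp.inc_one σ (t σ) with h1 | h1 | h1
      · exact absurd h1 (hincne σ hσ)
      · rw [h1]; norm_num
      · rw [h1]; norm_num
    have hcard : ∀ σ ∈ S, (t σ).card = σ.card + 1 := fun σ hσ =>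
      (facet_card hp (hYs (hSY σ hσ).1) (hYs (htY σ hσ).1) (hincne σ hσ)).2
    -- the cochain on the free faces
    obtain ⟨Q, hQ⟩ : ∃ Q : Set p.Fl, Q = {q | q.c ∈ S ∧ q.c.card = m} := ⟨_, rfl⟩
    have hQm : ∀ q ∈ Q, q.c ∈ S ∧ q.c.card = m := fun q hq => by rw [hQ] at hq; exact hq
    obtain ⟨x2, hx2, hx2n⟩ := exists_ext Q
      (fun q => ⟨q.1.w, t q.1.c, hYs (htY _ (hQm _ q.2).1).1⟩)
      (fun q q' e => by
        have e1 := congrArg Pce.Fl.w e
        have e2 := hinj (hQm _ q.2).1 (hQm _ q'.2).1 (congrArg Pce.Fl.c e)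
        exact Subtype.ext (Pce.Fl.ext e1 e2))
      (fun q => (p.inc q.1.c (t q.1.c) : ℝ))
      (fun q => by
        rcases hp.inc_one q.1.c (t q.1.c) with h1 | h1 | h1 <;> rw [h1] <;> norm_num) y1
    have hx2C : x2 ∈ p.Chs m := by
      rw [Pce.mem_Chs]
      refine ⟨fun q hq => hx2n q fun h => hq (hQm q h).2, fun q f hf => ?_⟩
      rw [hF] at hf
      exact absurd hf (Set.notMem_empty f)
    have hx2S : ∀ q : p.Fl, q.c ∉ S → x2 q = 0 := fun q hq => hx2n q fun h => hq (hQm q h).1
    refine ⟨x1 + x2, Submodule.add_mem _ hx1 hx2C, fun q hq => ?_⟩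
    have e0 : y - δ (x1 + x2) = y1 - δ x2 := by
      rw [hy1d, map_add]
      abel
    rw [e0]
    show y1 q - (δ x2) q = 0
    obtain ⟨co, hco⟩ := hp.exists_co q.w q.mem
    rw [hδ q co hco]
    have hcof : ∀ q' : p.Fl, co q' ≠ 0 → q'.w = q.w ∧ p.inc q'.c q.c ≠ 0 := by
      intro q' h1
      rw [hco q'] at h1
      split_ifs at h1 with h2
      · exact ⟨h2, fun h3 => h1 (by rw [h3, Int.cast_zero])⟩
      · exact absurd rfl h1
    by_cases hqZ : q.c ∈ Z
    · rw [hy1 q hqZ, SingerLG.inner_eq_zero_of_supp, sub_zero]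
      intro q'
      by_cases h1 : co q' = 0
      · exact Or.inl h1
      · right
        obtain ⟨h2, h3⟩ := hcof q' h1
        refine hx2S q' fun h4 => (hSY _ h4).2 ?_
        exact hYZ.down _ hqZ _ (facet_card hp q'.mem q.mem h3).1.1 (hp.cx.ne _ q'.mem)
    · have hqd : q.c ∈ S ∪ t '' S := by
        rw [← hS]
        exact ⟨hq, hqZ⟩
      rcases hqd with hqS | ⟨σ, hσ, hσq⟩
      · -- a free face
        rw [SingerLG.inner_eq_zero_of_supp (y := co) (z := x2), sub_zero]
        · -- the cocycle condition at `t q.c`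
          obtain ⟨co', hco'⟩ := hp.exists_co q.w (hYs (htY _ hqS).1)
          have h1 := (Pce.mem_Zs.mp hy1Z).2 q.w _ (hYs (htY _ hqS).1) co' hco'
          have h2 : inner ℝ co' y1 = co' q * y1 q := by
            refine inner_single fun q' hq' => ?_
            by_cases h3 : co' q' = 0
            · exact Or.inl h3
            · right
              rw [hco' q'] at h3
              split_ifs at h3 with h4
              · have h5 : p.inc q'.c (t q.c) ≠ 0 := fun h6 => h3 (by rw [h6, Int.cast_zero])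
                have h6 := (facet_card hp q'.mem (hYs (htY _ hqS).1) h5).1
                by_cases h7 : q'.c ∈ Z
                · exact hy1 q' h7
                · exfalso
                  have h8 : q'.c ∈ Y := hYd _ (htY _ hqS).1 _ h6.1 (hp.cx.ne _ q'.mem)
                  have h9 : q'.c ∈ S ∪ t '' S := by
                    rw [← hS]
                    exact ⟨h8, h7⟩
                  rcases h9 with h9 | ⟨σ', hσ', h9⟩
                  · have h10 := (ht _ h9).2 _ (htY _ hqS).1 h6
                    have h11 := hinj hqS h9 h10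
                    exact hq' (Pce.Fl.ext h4 h11.symm)
                  · have h10 : σ' ⊂ t q.c := by
                      refine lt_of_lt_of_le (ht _ hσ').1 ?_
                      rw [h9]
                      exact h6.1
                    have h11 := (ht _ hσ').2 _ (htY _ hqS).1 h10
                    rw [h11, ← h9] at h6
                    exact absurd h6 (ssubset_irrefl _)
              · exact absurd rfl h3
          rw [h2, hco' q, if_pos rfl] at h1
          rcases mul_eq_zero.mp h1 with h3 | h3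
          · exact absurd (Int.cast_eq_zero.mp h3) (hincne _ hqS)
          · exact h3
        · intro q'
          by_cases h1 : co q' = 0
          · exact Or.inl h1
          · right
            obtain ⟨h2, h3⟩ := hcof q' h1
            refine hx2S q' fun h4 => ?_
            have h5 := (ht _ h4).2 _ hq (facet_card hp q'.mem q.mem h3).1
            exact hnS _ h4 _ hqS h5.symm
      · -- the simplex above a free face
        obtain ⟨q0, hq0⟩ : ∃ q0 : p.Fl, q0 = ⟨q.w, σ, hYs (hSY σ hσ).1⟩ := ⟨_, rfl⟩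
        have hq0c : q0.c = σ := by rw [hq0]
        have hq0w : q0.w = q.w := by rw [hq0]
        have h2 : inner ℝ co x2 = co q0 * x2 q0 := by
          refine inner_single fun q' hq' => ?_
          by_cases h3 : co q' = 0
          · exact Or.inl h3
          · right
            obtain ⟨h4, h5⟩ := hcof q' h3
            refine hx2S q' fun h6 => ?_
            have h7 := (ht _ h6).2 _ hq (facet_card hp q'.mem q.mem h5).1
            rw [← hσq] at h7
            have h8 := hinj hσ h6 h7
            exact hq' (Pce.Fl.ext (h4.trans hq0w.symm) (h8.symm.trans hq0c.symm))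
        rw [h2, hco q0, if_pos hq0w]
        by_cases hcd : σ.card = m
        · have hq0Q : q0 ∈ Q := by
            rw [hQ]
            exact ⟨by rw [hq0c]; exact hσ, by rw [hq0c]; exact hcd⟩
          have h3 := hx2 ⟨q0, hq0Q⟩
          have h4 : (⟨q0.w, t q0.c, hYs (htY _ (hQm _ hq0Q).1).1⟩ : p.Fl) = q :=
            Pce.Fl.ext hq0w (by show t q0.c = q.c; rw [hq0c]; exact hσq)
          change x2 q0 = (p.inc q0.c (t q0.c) : ℝ) *
            y1 (⟨q0.w, t q0.c, hYs (htY _ (hQm _ hq0Q).1).1⟩ : p.Fl) at h3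
          rw [h4] at h3
          rw [h3, hq0c, ← hσq, ← mul_assoc, hinc σ hσ, one_mul, sub_self]
        · have h3 : y1 q = 0 := by
            refine (Pce.mem_Chs.mp (p.Zs_le _ hy1Z)).1 q fun h4 => hcd ?_
            have := hcard σ hσ
            rw [hσq] at this
            omega
          have h4 : x2 q0 = 0 := hx2n q0 fun h5 => hcd (by rw [← hq0c]; exact (hQm _ h5).2)
          rw [h3, h4, mul_zero, sub_zero]

/-- A complex which collapses to dimension `d` has no `ℓ²`-cohomology in the degrees larger than `d`. -/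
theorem CollTo.bound (hp : p.Ok) (hF : p.F = ∅) {d : ℕ} (h : CollTo d p.Y) {m : ℕ} (hm : d < m) :
    p.T (m + 1) + p.T m ≤ p.N m := by
  obtain ⟨δ, hδ⟩ := hp.exists_cob
  rw [← hp.exact_iff hδ]
  intro y hy h1
  obtain ⟨x, hx, h2⟩ := coll_aux hp hF hδ hm h subset_rfl hp.cx.down y hy
  have h3 : y - δ x = 0 := by
    apply l2_ext
    intro q
    exact h2 q q.mem
  have h4 : y = δ x := sub_eq_zero.mp h3
  have h5 := h1 x hx
  rw [← h4] at h5
  exact inner_self_eq_zero.mp h5

end SingerHK
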