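import Mathlib
import Pool.Agent.Lib_MP_394d50_hk.ZFin
import Pool.Agent.Lib_MP_394d50_hr.WDefs

/-!
# Piece HR-14: the piece without faces

The converse of `Pce.Ok.locDim_zero_of_bound` (`Lib_MP_394d50_hk/ZFin.lean`). `bound_of_locDim`: by `hp.exact_iff` (from left to right) let `y ∈ p.Zs (m + 1)`, `y ⊥ δ (p.Chs m)`. Signs: `hp.inc_std` and `simpInc_change` give `ε : Finset P → ℝ`, `ε = ± 1`, `p.inc a b = ε a * ε b * simpInc r a b` for
`a`, `b ∈ p.Y` (see `locDim_zero_of_bound`). For `w : WW P` let `g_w : L2 {σ // σ ∈ p.Y}`, `g_w a = ε a * y (w, a)` (square summable: pullback along the injective map `a ↦ (w, a)`, `exists_pull` in `TFib.lean` or a bounded function times a function in `L2`). `g_w ∈ harm (simpCx p.Y r)` (`mem_harm_iff`):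
orthogonal to the boundary of `d`: `y ∈ Zs`, the condition at `(w, d)`. Orthogonal to the coboundary of `b`: if `b.card = m`: `δ_(w,b) ∈ p.Chs m` (as `p.F = ∅`), `⟨y, δ δ_(w,b)⟩ = 0`, and
`(δ δ_(w,b)) (w', a) = if w' = w then p.inc b a else 0`. If `b.card ≠ m`: `y` is supported on the simplices with `m + 1` vertices and `simpInc r b a ≠ 0` gives `a.card = b.card + 1`, so all terms are zero (`b` has at least one vertex; for `m = 0` there is no `b` with `0` vertices). Then
`g_w a = 0` for `a.card = m + 1` by `locDim = 0`: `KEx_harm_apply` of `Lib_MP_394d50_hk/KEx.lean` (private: copy). So `y = 0`.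
`locDim_zero_of_betti`: `bettiX_eq` (`Lib_MP_394d50_vs/VBr.lean`): `bettiX A Y k` is the sum over the orbits of the `k`-dimensional simplices of `locDim` (`l2Betti`, `Lib_MP_394d50_vs` or `LDefs`), all `≥ 0`, finitely many orbits, and `locDim` is invariant
(`locDim_smul_simp`, see the proof of `main_hk` in `Lib_MP_394d50_hk/ZHk.lean`).
`base`: `(p.sub ∅)`: apply `bound_of_locDim` with `r = (· < ·)`, `m = k`, `a.card = k + 1`, the dimension is `k`.
-/

namespace SingerHK

open SingerRA SingerVS SingerCub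
open scoped Pointwise

/-- A function bounded by the restriction of a function in `L2` along an injective map. -/
private theorem WBase_ext {C D : Type} {i : C → D} (hi : Function.Injective i) (f : C → ℝ)
    (g : L2 D) (hg : ∀ c, |f c| ≤ |g (i c)|) : ∃ z : L2 C, ∀ c, z c = f c := by
  have h2 : (0 : ℝ) < (2 : ENNReal).toReal := by norm_num
  refine ⟨⟨f, ?_⟩, fun _ => rfl⟩
  refine (memℓp_gen_iff h2).mpr ?_
  have h1 := ((memℓp_gen_iff h2).mp (lp.memℓp g)).comp_injective hi
  refine Summable.of_nonneg_of_le (fun c => ?_) (fun c => ?_) h1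
  · show 0 ≤ ‖f c‖ ^ (2 : ENNReal).toReal
    positivity
  · show ‖f c‖ ^ (2 : ENNReal).toReal ≤ ‖g (i c)‖ ^ (2 : ENNReal).toReal
    exact Real.rpow_le_rpow (norm_nonneg _) (hg c) h2.le

private theorem WBase_inner {C D : Type} {i : C → D} (hi : Function.Injective i) (u y : L2 D)
    (hy : ∀ x, x ∉ Set.range i → u x * y x = 0) : inner ℝ u y = ∑' c, u (i c) * y (i c) := by
  rw [lp.inner_eq_tsum]
  have h1 : ∀ x, inner ℝ (u x) (y x) = u x * y x := by
    intro x
    rw [real_inner_eq_re_inner, RCLike.inner_apply]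
    simp [mul_comm]
  simp only [h1]
  symm
  refine hi.tsum_eq (f := fun x => u x * y x) ?_
  intro x hx
  by_contra h2
  exact hx (hy x h2)

/-- A harmonic chain vanishes on the cells of local dimension zero. -/
private theorem WBase_harm {C : Type} {I : CellCx C} {a : L2 C} (ha : a ∈ harm I) {c : C}
    (h : locDim I c = 0) : a c = 0 := by
  have h1 : (harm I).starProjection (delta c) = 0 := by
    unfold SingerVS.locDim at h
    rw [le_self] at h
    exact norm_eq_zero.mp (sq_eq_zero_iff.mp h)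
  rw [← delta_inner c a, ← Submodule.starProjection_eq_self_iff.mpr ha,
    ← Submodule.inner_starProjection_left_eq_right, h1, inner_zero_left]

theorem Pce.Ok.bound_of_locDim {Γ P : Type} [Group Γ] [DecidableEq P] [MulAction Γ P]
    {p : Pce Γ P} (hp : p.Ok) (hF : p.F = ∅) {r : P → P → Prop} (hr : ∀ σ ∈ p.Y, TotOn r σ)
    (m : ℕ) (h : ∀ c : {σ : Finset P // σ ∈ p.Y}, c.1.card = m + 1 →
      locDim (simpCx p.Y r) c = 0) : p.T (m + 1) + p.T m ≤ p.N m := by
  classical
  obtain ⟨δ, hδ⟩ := hp.exists_cob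
  refine (hp.exact_iff hδ m).mp fun y hyz hyδ => ?_
  obtain ⟨s, r0, hs, hr0, hstd⟩ := hp.inc_std
  obtain ⟨ε, hε, hinc⟩ : ∃ ε : Finset P → ℝ, (∀ a, ε a = 1 ∨ ε a = -1) ∧
      ∀ a ∈ p.Y, ∀ b ∈ p.Y, (p.inc a b : ℝ) = ε a * ε b * (simpInc r a b : ℝ) := by
    refine ⟨fun a => ((s a * sgnN r r0 a : ℤ) : ℝ), fun a => ?_, fun a ha b hb => ?_⟩
    · show ((s a * sgnN r r0 a : ℤ) : ℝ) = 1 ∨ ((s a * sgnN r r0 a : ℤ) : ℝ) = -1
      rcases hs a with h1 | h1 <;> rcases sgnN_pm r r0 a with h2 | h2 <;> rw [h1, h2] <;> norm_num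
    · rw [hstd a ha b hb, simpInc_change (hr b hb) (hr0 b hb) a]
      push_cast
      ring
  have hεε : ∀ a, ε a * ε a = 1 := fun a => by
    rcases hε a with h1 | h1 <;> rw [h1] <;> norm_num
  have hε1 : ∀ a, |ε a| = 1 := fun a => by
    rcases hε a with h1 | h1 <;> rw [h1] <;> norm_num
  obtain ⟨hyc, hyco⟩ := Pce.mem_Zs.mp hyz
  have hy0 := (Pce.mem_Chs.mp hyc).1
  have key : ∀ (w : WW P) (a : {σ : Finset P // σ ∈ p.Y}), y ⟨w, a.1, a.2⟩ = 0 := by
    intro w
    obtain ⟨i, hi⟩ : ∃ i : {σ : Finset P // σ ∈ p.Y} → p.Fl, ∀ a, i a = ⟨w, a.1, a.2⟩ :=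
      ⟨_, fun _ => rfl⟩
    have hinj : Function.Injective i := by
      intro a b hab
      rw [hi, hi] at hab
      exact Subtype.ext (congrArg Pce.Fl.c hab)
    have hrange : ∀ x : p.Fl, x ∉ Set.range i → x.w ≠ w := by
      intro x hx hw
      apply hx
      refine ⟨⟨x.c, x.mem⟩, ?_⟩
      rw [hi]
      exact Pce.Fl.ext hw.symm rfl
    obtain ⟨g, hg⟩ := WBase_ext hinj
      (fun a : {σ : Finset P // σ ∈ p.Y} => ε a.1 * y (i a)) y
      (fun a => by rw [abs_mul, hε1, one_mul])
    have hharm : g ∈ harm (simpCx p.Y r) := by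
      refine mem_harm_iff.mpr ⟨?_, ?_⟩
      · rintro z ⟨⟨d, hd⟩, hz⟩
        obtain ⟨u, hu⟩ := hp.exists_co w hd
        have h1 := hyco w d hd u hu
        rw [WBase_inner hinj u y (fun x hx => by rw [hu, if_neg (hrange x hx), zero_mul])] at h1
        rw [WBase_inner (i := fun c : {σ : Finset P // σ ∈ p.Y} => c) (fun _ _ h => h) z g
          (fun x hx => absurd ⟨x, rfl⟩ hx)]
        have h2 : ∀ a : {σ : Finset P // σ ∈ p.Y}, z a * g a = ε d * (u (i a) * y (i a)) := by
          intro a
          have h3 : z a = (simpInc r a.1 d : ℝ) := hz a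
          rw [h3, hg, hu, hi, if_pos rfl, hinc a.1 a.2 d hd]
          linear_combination (-(ε a.1 * (simpInc r a.1 d : ℝ) * y ⟨w, a.1, a.2⟩)) * hεε d
        rw [tsum_congr h2, tsum_mul_left, h1, mul_zero]
      · rintro z ⟨⟨b, hb⟩, hz⟩
        rw [WBase_inner (i := fun c : {σ : Finset P // σ ∈ p.Y} => c) (fun _ _ h => h) z g
          (fun x hx => absurd ⟨x, rfl⟩ hx)]
        by_cases hbm : b.card = m
        · obtain ⟨x, hx⟩ : ∃ x : p.Fl, x = ⟨w, b, hb⟩ := ⟨_, rfl⟩
          have hxc : delta x ∈ p.Chs m := by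
            refine Pce.mem_Chs.mpr ⟨fun x' hx' => ?_, fun x' f hf => ?_⟩
            · have hne : x' ≠ x := by
                rintro rfl
                apply hx'
                rw [hx]
                exact hbm
              exact delta_ne hne
            · rw [hF] at hf
              exact absurd hf (Set.notMem_empty f)
          have h1 := hyδ _ hxc
          have hval : ∀ x' : p.Fl, (δ (delta x)) x' =
              if x'.w = w then (p.inc b x'.c : ℝ) else 0 := by
            intro x'
            obtain ⟨u, hu⟩ := hp.exists_co x'.w x'.mem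
            rw [hδ x' u hu, real_inner_comm, delta_inner, hu, hx]
            refine if_congr ?_ rfl rfl
            exact ⟨fun e => e.symm, fun e => e.symm⟩
          rw [WBase_inner hinj y (δ (delta x))
            (fun x' hx' => by rw [hval, if_neg (hrange x' hx'), mul_zero])] at h1
          have h2 : ∀ a : {σ : Finset P // σ ∈ p.Y},
              z a * g a = ε b * (y (i a) * (δ (delta x)) (i a)) := by
            intro a
            have h3 : z a = (simpInc r b a.1 : ℝ) := hz a
            rw [h3, hg, hval, hi, if_pos rfl, hinc b hb a.1 a.2]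
            linear_combination (-(ε a.1 * (simpInc r b a.1 : ℝ) * y ⟨w, a.1, a.2⟩)) * hεε b
          rw [tsum_congr h2, tsum_mul_left, h1, mul_zero]
        · have h2 : ∀ a : {σ : Finset P // σ ∈ p.Y}, z a * g a = 0 := by
            intro a
            have h3 : z a = (simpInc r b a.1 : ℝ) := hz a
            rw [h3, hg]
            by_cases h4 : simpInc r b a.1 = 0
            · rw [h4, Int.cast_zero, zero_mul]
            · obtain ⟨v, hv, e⟩ := simpInc_ne h4
              have h5 : a.1.card ≠ m + 1 := by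
                have h6 := Finset.card_erase_of_mem hv
                have h7 := Finset.card_pos.mpr ⟨v, hv⟩
                rw [← e] at h6
                omega
              have h8 : y (i a) = 0 := by
                rw [hi]
                exact hy0 _ h5
              rw [h8, mul_zero, mul_zero]
          rw [tsum_congr h2, tsum_zero]
    intro a
    by_cases ha : a.1.card = m + 1
    · have h1 := WBase_harm hharm (h a ha)
      rw [hg, hi] at h1
      have h2 : ε a.1 ≠ 0 := by
        rcases hε a.1 with h3 | h3 <;> rw [h3] <;> norm_num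
      exact (mul_eq_zero.mp h1).resolve_left h2
    · exact hy0 _ ha
  exact l2_ext _ _ fun x => key x.w ⟨x.c, x.mem⟩

theorem locDim_zero_of_betti {Γ P : Type} [Group Γ] [LinearOrder P] [MulAction Γ P]
    {X : Set (Finset P)} (hX : FreeCx Γ X) (k : ℕ) (h : bettiX Γ X k = 0)
    (c : {σ : Finset P // σ ∈ X}) (hc : c.1.card = k + 1) :
    locDim (simpCx X (fun x y : P => x < y)) c = 0 := by
  classical
  have hr0 : ∀ σ ∈ X, TotOn (fun x y : P => x < y) σ := fun σ _ => totOn_lt σ
  let iA : MulAction Γ {σ : Finset P // σ ∈ X} := simpAct hX.inv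
  have hloc := locDim_smul_simp (H := Γ) hX.inv (fun _ _ => rfl) hr0
  obtain ⟨I, s, hs, hSI, hId, hIi, hIF⟩ := exists_inv hX
  have hfin : Finite (Orb Γ {σ : Finset P // σ ∈ X}) := hIF.cofin
  rw [bettiX_eq hX (fun g c => hloc g c) k] at h
  unfold SingerVS.l2Betti at h
  have hft : Fintype (Orb Γ {σ : Finset P // σ ∈ X}) := Fintype.ofFinite _
  rw [finsum_eq_sum_of_fintype, Finset.sum_eq_zero_iff_of_nonneg (fun o _ => by
    split_ifs
    · exact locDim_nonneg _
    · exact le_rfl)] at h
  have h1 := h (Quotient.mk (MulAction.orbitRel Γ {σ : Finset P // σ ∈ X}) c) (Finset.mem_univ _)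
  have h2 := Quotient.mk_out (s := MulAction.orbitRel Γ {σ : Finset P // σ ∈ X}) c
  obtain ⟨g, hg⟩ := MulAction.orbitRel_apply.mp h2
  have hg' : g • c = (Quotient.mk (MulAction.orbitRel Γ {σ : Finset P // σ ∈ X}) c).out := hg
  rw [← hg', if_pos] at h1
  · rw [← hloc g c]
    exact h1
  · show (g • c.1).card - 1 = k
    rw [Finset.card_smul_finset]
    omega

/-- The bound for the piece without faces. -/
theorem Pce.Ok.base {Γ P : Type} [Group Γ] [LinearOrder P] [MulAction Γ P] {p : Pce Γ P}
    (hp : p.Ok) (hF : p.F = ∅) (k : ℕ) (h : bettiX p.A p.Y k = 0) :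
    p.T (k + 1) + p.T k ≤ p.N k :=
  hp.bound_of_locDim hF (fun σ _ => totOn_lt σ) k
    fun c hc => locDim_zero_of_betti hp.cx k h c hc

end SingerHK
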