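import Mathlib
import Pool.Agent.Lib_MP_394d50_hr.WDefs
import Pool.Agent.Lib_MP_394d50_hk.PRk

/-!
# Piece HR-3: invariance, and the coboundary, for the set `E` of faces

Model: `Lib_MP_394d50_hk/PFl.lean` (`Chs_inv`, `Zs_inv`) and `Lib_MP_394d50_hk/PRk.lean` (`PRk_D`, `PRk_cob`, `cob_map`); the private lemmas there have to be copied (with other names). The proofs are the same with `E` instead of `p.F`
(`hE` is used for `fdown` only).
-/

namespace SingerHK

open SingerRA SingerVS SingerCub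
open scoped Pointwise

variable {Γ P : Type} [Group Γ] [DecidableEq P] [MulAction Γ P] {p : Pce Γ P}
  {E : Set (Set (Finset P))}

/-- The cell complex on the flags. -/
private noncomputable def WCob_cx (p : Pce Γ P) : CellCx p.Fl where
  dim x := x.c.card - 1
  inc x y := by
    classical
    exact if x.w = y.w then p.inc x.c y.c else 0

private theorem WCob_inc_eq (p : Pce Γ P) {x y : p.Fl} (h : x.w = y.w) :
    (WCob_cx p).inc x y = p.inc x.c y.c := if_pos h

private theorem WCob_inc_ne (p : Pce Γ P) {x y : p.Fl} (h : x.w ≠ y.w) :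
    (WCob_cx p).inc x y = 0 := if_neg h

private theorem WCob_inc (p : Pce Γ P) {x y : p.Fl} (h : (WCob_cx p).inc x y ≠ 0) :
    x.w = y.w ∧ p.inc x.c y.c ≠ 0 := by
  by_cases hw : x.w = y.w
  · rw [WCob_inc_eq p hw] at h
    exact ⟨hw, h⟩
  · exact absurd (WCob_inc_ne p hw) h

private theorem WCob_facet (hp : p.Ok) {x y : p.Fl} (h : (WCob_cx p).inc x y ≠ 0) :
    x.w = y.w ∧ ∃ v ∈ y.c, x.c = y.c.erase v := by
  obtain ⟨h1, h2⟩ := WCob_inc p h
  exact ⟨h1, (hp.inc_fac x.c x.mem y.c y.mem).mp h2⟩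

private theorem WCob_card (hp : p.Ok) {x y : p.Fl} (h : (WCob_cx p).inc x y ≠ 0) :
    y.c.card = x.c.card + 1 ∧ x.c ⊆ y.c := by
  obtain ⟨-, v, hv, hc⟩ := WCob_facet hp h
  rw [hc]
  refine ⟨?_, Finset.erase_subset _ _⟩
  rw [Finset.card_erase_of_mem hv]
  have := Finset.card_pos.mpr ⟨v, hv⟩
  omega

private theorem WCob_fc (hp : p.Ok) : FC p.H (WCob_cx p) where
  dim_smul h c := by
    show (h • c).c.card - 1 = c.c.card - 1
    rw [Pce.smul_c, Finset.card_smul_finset]
  inc_smul h x y := by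
    have h1 : (h • x).w = (h • y).w ↔ x.w = y.w := by
      rw [Pce.smul_w, Pce.smul_w]
      constructor
      · intro h2
        exact (wact h.1.right).injective (mul_left_cancel h2)
      · intro h2
        rw [h2]
    by_cases hw : x.w = y.w
    · rw [WCob_inc_eq p hw, WCob_inc_eq p (h1.mpr hw)]
      exact hp.inc_smul _ h.2 _ x.mem _ y.mem
    · rw [WCob_inc_ne p hw, WCob_inc_ne p fun h2 => hw (h1.mp h2)]
  inc_dim x y h := by
    have h1 := (WCob_card hp h).1
    have h2 := Finset.card_pos.mpr (hp.cx.ne _ x.mem)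
    show y.c.card - 1 = x.c.card - 1 + 1
    omega
  faces y := by
    refine Set.Finite.of_finite_image (f := Pce.Fl.c) ?_ ?_
    · refine (y.c.image fun v => y.c.erase v).finite_toSet.subset ?_
      rintro _ ⟨x, hx, rfl⟩
      obtain ⟨-, v, hv, hc⟩ := WCob_facet hp hx
      rw [Finset.mem_coe, Finset.mem_image]
      exact ⟨v, hv, hc.symm⟩
    · intro x hx x' hx' hc
      exact Pce.Fl.ext ((WCob_facet hp hx).1.trans (WCob_facet hp hx').1.symm) hc
  cofaces x := by
    refine Set.Finite.of_finite_image (f := Pce.Fl.c) ?_ ?_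
    · refine (hp.cx.cof_finite x.mem).subset ?_
      rintro _ ⟨y, hy, rfl⟩
      exact ⟨y.mem, (WCob_card hp hy).2⟩
    · intro y hy y' hy' hc
      exact Pce.Fl.ext ((WCob_facet hp hy).1.symm.trans (WCob_facet hp hy').1) hc
  sq x z := by
    by_cases hw : x.w = z.w
    · let i : {σ // σ ∈ p.Y} → p.Fl := fun σ => ⟨x.w, σ.1, σ.2⟩
      have hi : Function.Injective i := fun a b h => Subtype.ext (congrArg Pce.Fl.c h)
      have h1 : ∑ᶠ q, (WCob_cx p).inc x q * (WCob_cx p).inc q z =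
          ∑ᶠ q ∈ Set.range i, (WCob_cx p).inc x q * (WCob_cx p).inc q z := by
        rw [finsum_mem_def]
        refine finsum_congr fun q => ?_
        by_cases hq : q ∈ Set.range i
        · rw [Set.indicator_of_mem hq]
        · rw [Set.indicator_of_notMem hq]
          by_cases h2 : (WCob_cx p).inc x q = 0
          · rw [h2, zero_mul]
          · exact absurd ⟨⟨q.c, q.mem⟩, Pce.Fl.ext (WCob_facet hp h2).1 rfl⟩ hq
      rw [h1, finsum_mem_range hi]
      refine Eq.trans (finsum_congr fun c => ?_) (hp.inc_sq x.c x.mem z.c z.mem)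
      rw [WCob_inc_eq p (x := x) (y := i c) rfl, WCob_inc_eq p (x := i c) (y := z) hw]
    · refine finsum_eq_zero_of_forall_eq_zero fun q => ?_
      by_cases h2 : (WCob_cx p).inc x q = 0
      · rw [h2, zero_mul]
      · rw [WCob_inc_ne p (x := q) (y := z) fun h3 => hw ((WCob_facet hp h2).1.trans h3), mul_zero]
  free := hp.fo.free
  cofin := hp.fo.cofin

/-- The boundary operator. -/
private theorem WCob_D (hp : p.Ok) : ∃ D : L2 p.Fl →L[ℝ] L2 p.Fl,
    (∀ x : p.Fl, ∀ y, p.IsCo x.w x.c y → D (delta x) = y ∧ D y = 0) ∧ Eqv p.H D := by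
  obtain ⟨D, h1, -, h3⟩ := (WCob_fc hp).exists_D
  have hco : ∀ x : p.Fl, ∀ y, p.IsCo x.w x.c y → ∀ q, y q = ((WCob_cx p).inc q x : ℝ) := by
    intro x y hy q
    rw [hy]
    by_cases hw : q.w = x.w
    · rw [if_pos hw, WCob_inc_eq p hw]
    · rw [if_neg hw, WCob_inc_ne p hw, Int.cast_zero]
  refine ⟨D, fun x y hy => ⟨?_, ?_⟩, h3⟩
  · apply l2_ext
    intro q
    rw [h1, finsum_eq_single _ x]
    · rw [delta_self, mul_one, hco x y hy]
    · intro q' hq'
      rw [delta_ne hq', mul_zero]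
  · apply l2_ext
    intro q
    rw [h1]
    have h4 : ∀ q', ((WCob_cx p).inc q q' : ℝ) * y q' =
        (((WCob_cx p).inc q q' * (WCob_cx p).inc q' x : ℤ) : ℝ) := by
      intro q'
      rw [hco x y hy, Int.cast_mul]
    rw [finsum_congr h4]
    have h5 := (Int.castAddHom ℝ).map_finsum
      (f := fun q' => (WCob_cx p).inc q q' * (WCob_cx p).inc q' x)
      (((WCob_fc hp).cofaces q).subset fun q' hq' => left_ne_zero_of_mul hq')
    rw [(WCob_fc hp).sq, map_zero] at h5
    exact h5.symm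

private theorem WCob_cob (hp : p.Ok) {δ : L2 p.Fl →L[ℝ] L2 p.Fl} (hδ : p.Cob δ) :
    Eqv p.H δ ∧ ∀ x : p.Fl, ∀ y, p.IsCo x.w x.c y → ∀ z, inner ℝ y (δ z) = 0 := by
  obtain ⟨D, h1, h2⟩ := WCob_D hp
  have h3 : δ = ContinuousLinearMap.adjoint D := by
    ext1 z
    apply l2_ext
    intro x
    obtain ⟨y, hy⟩ := hp.exists_co x.w x.mem
    rw [hδ x y hy, ← delta_inner x, ContinuousLinearMap.adjoint_inner_right, (h1 x y hy).1]
  refine ⟨h3 ▸ h2.adjoint, fun x y hy z => ?_⟩
  rw [h3, ContinuousLinearMap.adjoint_inner_right, (h1 x y hy).2, inner_zero_left]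

/-- The reflection in a face, as a bijection. -/
private noncomputable def WCob_e (p : Pce Γ P) (f : Set (Finset P)) : p.Fl ≃ p.Fl where
  toFun := p.rf f
  invFun := p.rf f
  left_inv := p.rf_rf f
  right_inv := p.rf_rf f

/-- The reflection in a face, on the chains. -/
private noncomputable def WCob_R (p : Pce Γ P) (f : Set (Finset P)) : L2 p.Fl ≃ₗᵢ[ℝ] L2 p.Fl :=
  twE (WCob_e p f) (fun _ => 1) (fun _ => Or.inl rfl)

private theorem WCob_R_apply (p : Pce Γ P) (f : Set (Finset P)) (z : L2 p.Fl) (x : p.Fl) :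
    (WCob_R p f z) x = z (p.rf f x) := by
  have h1 : (WCob_R p f z) (p.rf f (p.rf f x)) = 1 * z (p.rf f x) :=
    twE_apply (WCob_e p f) (fun _ => 1) (fun _ => Or.inl rfl) z (p.rf f x)
  rwa [p.rf_rf, one_mul] at h1

private theorem WCob_inner {H C : Type} [Group H] [MulAction H C] (h : H) (y z : L2 C) :
    inner ℝ (shift h y) z = inner ℝ y (shift h⁻¹ z) := by
  have h1 : shift h (shift h⁻¹ z) = z := by
    apply l2_ext
    intro c
    rw [shift_apply, shift_apply, inv_inv, smul_inv_smul]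
  conv_lhs => rw [← h1]
  exact (shift h).inner_map_map y (shift h⁻¹ z)

private theorem WCob_co (hp : p.Ok) (h : p.H) {w : WW P} {d : Finset P} (hd : d ∈ p.Y)
    {y : L2 p.Fl} (hy : p.IsCo w d y) :
    p.IsCo (h.1.left * wact h.1.right w) (h.1.right • d) (shift h y) := by
  classical
  intro x
  rw [shift_apply, hy]
  have hx : h • h⁻¹ • x = x := smul_inv_smul h x
  have hw : x.w = h.1.left * wact h.1.right (h⁻¹ • x).w := by
    conv_lhs => rw [← hx]
    rfl
  have hc : x.c = h.1.right • (h⁻¹ • x).c := by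
    conv_lhs => rw [← hx]
    rfl
  have h1 : (h⁻¹ • x).w = w ↔ x.w = h.1.left * wact h.1.right w := by
    rw [hw]
    constructor
    · intro h2
      rw [h2]
    · intro h2
      exact (wact h.1.right).injective (mul_left_cancel h2)
  have h2 : p.inc (h⁻¹ • x).c d = p.inc x.c (h.1.right • d) := by
    rw [hc]
    exact (hp.inc_smul _ h.2 _ (h⁻¹ • x).mem _ hd).symm
  rw [h2]
  by_cases h3 : (h⁻¹ • x).w = w
  · rw [if_pos h3, if_pos (h1.mp h3)]
  · rw [if_neg h3, if_neg fun h4 => h3 (h1.mpr h4)]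

theorem Pce.Ok.ChE_inv (hp : p.Ok) (hinv : ∀ a ∈ p.A, ∀ g ∈ E, a • g ∈ E) (m : ℕ) :
    Inv p.H (p.ChE E m) := by
  intro h z hz
  rw [Pce.mem_ChE] at hz ⊢
  refine ⟨fun x hx => ?_, fun x f hf hx => ?_⟩
  · rw [shift_apply]
    refine hz.1 _ ?_
    rw [Pce.smul_c, Finset.card_smul_finset]
    exact hx
  · rw [shift_apply, shift_apply, Pce.smul_rf]
    refine hz.2 _ _ (hinv _ (h⁻¹).2 f hf) ?_
    rw [Pce.smul_c]
    exact Set.smul_mem_smul_set hx

theorem Pce.Ok.ZsE_inv (hp : p.Ok) (hinv : ∀ a ∈ p.A, ∀ g ∈ E, a • g ∈ E) (m : ℕ) :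
    Inv p.H (p.ZsE E m) := by
  intro h z hz
  rw [Pce.mem_ZsE] at hz ⊢
  refine ⟨hp.ChE_inv hinv m h z hz.1, fun w d hd y hy => ?_⟩
  have h1 := hz.2 _ _ (p.inv _ (h⁻¹).2 d hd) _ (WCob_co hp h⁻¹ hd hy)
  rw [WCob_inner, inv_inv] at h1
  exact h1

/-- The shift of the cocycle condition at `(w, d)`. -/
theorem Pce.Ok.co_shift (hp : p.Ok) (h : p.H) {w : WW P} {d : Finset P} (hd : d ∈ p.Y)
    {y : L2 p.Fl} (hy : p.IsCo w d y) :
    p.IsCo (h.1.left * wact h.1.right w) (h.1.right • d) (shift h y) := by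
  exact WCob_co hp h hd hy

theorem Pce.Ok.cob_eqv (hp : p.Ok) {δ : L2 p.Fl →L[ℝ] L2 p.Fl} (hδ : p.Cob δ) : Eqv p.H δ := by
  exact (WCob_cob hp hδ).1

/-- `δ δ = 0`. -/
theorem Pce.Ok.cob_cob (hp : p.Ok) {δ : L2 p.Fl →L[ℝ] L2 p.Fl} (hδ : p.Cob δ) {w : WW P}
    {d : Finset P} (hd : d ∈ p.Y) {y : L2 p.Fl} (hy : p.IsCo w d y) (z : L2 p.Fl) :
    inner ℝ y (δ z) = 0 := by
  exact (WCob_cob hp hδ).2 ⟨w, d, hd⟩ y hy z

theorem Pce.Ok.cobE (hp : p.Ok) (hE : E ⊆ p.F) {δ : L2 p.Fl →L[ℝ] L2 p.Fl} (hδ : p.Cob δ)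
    {m : ℕ} {z : L2 p.Fl} (hz : z ∈ p.ChE E m) : δ z ∈ p.ZsE E (m + 1) := by
  have hz' := Pce.mem_ChE.mp hz
  rw [Pce.mem_ZsE]
  refine ⟨Pce.mem_ChE.mpr ⟨fun x hx => ?_, fun x f hf hxf => ?_⟩, fun w d hd y hy =>
    (WCob_cob hp hδ).2 ⟨w, d, hd⟩ y hy z⟩
  · obtain ⟨y, hy⟩ := hp.exists_co x.w x.mem
    rw [hδ x y hy]
    refine SingerLG.inner_eq_zero_of_supp fun q => ?_
    by_cases h1 : y q = 0
    · exact Or.inl h1
    · right
      refine hz'.1 q fun hq => hx ?_
      rw [hy q] at h1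
      split_ifs at h1 with hw
      · have h2 : (WCob_cx p).inc q x ≠ 0 := by
          rw [WCob_inc_eq p hw]
          exact fun h3 => h1 (by rw [h3, Int.cast_zero])
        rw [(WCob_card hp h2).1, hq]
      · exact absurd rfl h1
  · obtain ⟨y, hy⟩ := hp.exists_co x.w x.mem
    have hy2 : p.IsCo (p.rf f x).w (p.rf f x).c (WCob_R p f y) := by
      intro q
      rw [WCob_R_apply, hy]
      have h1 : (p.rf f q).w = x.w ↔ q.w = (p.rf f x).w := by
        show q.w * gn f = x.w ↔ q.w = x.w * gn f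
        constructor
        · intro h2
          rw [← h2, mul_assoc, gen_gen, mul_one]
        · intro h2
          rw [h2, mul_assoc, gen_gen, mul_one]
      by_cases h2 : (p.rf f q).w = x.w
      · rw [if_pos h2, if_pos (h1.mp h2)]
        rfl
      · rw [if_neg h2, if_neg fun h3 => h2 (h1.mpr h3)]
    rw [hδ x y hy, hδ _ _ hy2]
    have h3 : WCob_R p f (WCob_R p f z) = z := by
      apply l2_ext
      intro q
      rw [WCob_R_apply, WCob_R_apply, p.rf_rf]
    have h4 : inner ℝ (WCob_R p f y) z = inner ℝ y (WCob_R p f z) := by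
      conv_lhs => rw [← h3]
      exact (WCob_R p f).inner_map_map y (WCob_R p f z)
    rw [h4, ← sub_eq_zero, ← inner_sub_right]
    refine SingerLG.inner_eq_zero_of_supp fun q => ?_
    by_cases h1 : y q = 0
    · exact Or.inl h1
    · right
      rw [hy q] at h1
      split_ifs at h1 with hw
      · have h2 : (WCob_cx p).inc q x ≠ 0 := by
          rw [WCob_inc_eq p hw]
          exact fun h3 => h1 (by rw [h3, Int.cast_zero])
        have h5 : q.c ∈ f := hp.fdown f (hE hf) _ hxf _ (WCob_card hp h2).2 (hp.cx.ne _ q.mem)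
        show (WCob_R p f z) q - z q = 0
        rw [WCob_R_apply, hz'.2 q f hf h5, sub_self]
      · exact absurd rfl h1

end SingerHK
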