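import Mathlib
import Pool.Agent.Lib_MP_394d50_hr.WCob
import Pool.Agent.Lib_MP_394d50_hr.WOk

/-!
# Piece HR-4: the reflection of the wall flags

`fw_eq`: `p.fw f c = v'` with `v' = b • f`, `c ∈ v'` (`dif_pos`, `choose_spec`), and `v = a • f`, `c ∈ v`: `a⁻¹ b • f` and `f` have the common simplex `a⁻¹ • c`, so `a⁻¹ b • f = f` (`hc.orb`), `v' = v`.
`jw_smul`: `fw_eq` and `Pce.smul_rf`; `inW_smul`. `Jop_ChE`: the degree: `Pce.jw_c`. For `g ∈ p.rest f`, `x.c ∈ g`: `p.jw f (p.rf g x) = p.rf g (p.jw f x)`: if `x.c ∈ v = p.fw f x.c` then `gn v` and `gn g` commute, since `v`, `g` have the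
common simplex `x.c` and `v ≠ g` (`comm_of_adj`, as in `CMir_comm` of `Lib_MP_394d50_hk/CMir.lean`). `Psi_eqv`: `l2_ext`, `shift_apply`, `Pce.Psi_apply`, `jw_smul`.
`Jop_co`: `⟨y, z ∘ J⟩ = ⟨y', z⟩`: on the support of `y` (`x.w = w`, `p.inc x.c d ≠ 0`, so `x.c ⊆ d ∈ v`, `x.c ∈ v` by `hp.fdown` for `v ∈ p.F`) `J x = (w * gn v, x.c)` by `fw_eq`. So `y ∘ J` and `y'` agree:
`p.Jop f y = y'` if one checks all flags: at `x` with `x.w = w * gn v` and `x.c ∈ v`; otherwise both are zero. Then `⟨y, Jop z⟩ = ⟨Jop y, z⟩` (`Jop` is an isometry with `Jop (Jop z) = z`).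
`FS_inv` etc.: `Pce.mem_FS`, ..; `ChE_inv`, `co_shift` (`⟨y, shift h z⟩ = ⟨shift h⁻¹ y, z⟩`, see `PFl_inner`), `jw_smul`, `inW_smul`.
-/

namespace SingerHK

open SingerRA SingerVS SingerCub
open scoped Pointwise

variable {Γ P : Type} [Group Γ] [DecidableEq P] [MulAction Γ P] {p : Pce Γ P}
  {f : Set (Finset P)}

private theorem WJ_smul_of {a : Γ} (ha : a ∈ p.A) {f : Set (Finset P)} {c : Finset P}
    (h : p.InW f c) : p.InW f (a • c) := by
  obtain ⟨v, hv, hcv⟩ := h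
  exact ⟨a • v, smul_mem_orbF ha hv, Set.smul_mem_smul_set hcv⟩

theorem Pce.inW_smul {a : Γ} (ha : a ∈ p.A) (f : Set (Finset P)) (c : Finset P) :
    p.InW f (a • c) ↔ p.InW f c := by
  refine ⟨fun h => ?_, fun h => WJ_smul_of ha h⟩
  have h1 := WJ_smul_of (p.A.inv_mem ha) h
  rwa [inv_smul_smul] at h1

theorem Pce.Ok.orbF_sub (hp : p.Ok) (hf : f ∈ p.F) : orbF p.A f ⊆ p.F := by
  rintro _ ⟨a, ha, rfl⟩
  exact hp.finv a ha f hf

private theorem WJ_uniq (hc : Corner p.A p.F) (hf : f ∈ p.F) {u v : Set (Finset P)}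
    (hu : u ∈ orbF p.A f) (hv : v ∈ orbF p.A f) {c : Finset P} (hcu : c ∈ u) (hcv : c ∈ v) :
    u = v := by
  obtain ⟨a, ha, rfl⟩ := hu
  obtain ⟨b, hb, rfl⟩ := hv
  have h1 : a⁻¹ • c ∈ f := Set.mem_smul_set_iff_inv_smul_mem.mp hcu
  have h2 : b⁻¹ • c ∈ f := Set.mem_smul_set_iff_inv_smul_mem.mp hcv
  have h3 : a⁻¹ • c ∈ (a⁻¹ * b) • f := by
    rw [Set.mem_smul_set_iff_inv_smul_mem, mul_inv_rev, inv_inv, mul_smul, smul_inv_smul]
    exact h2
  rcases hc.orb (a⁻¹ * b) (p.A.mul_mem (p.A.inv_mem ha) hb) f hf with h4 | h4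
  · rw [mul_smul, inv_smul_eq_iff] at h4
    exact h4.symm
  · exact absurd ⟨_, h3, h1⟩ h4

theorem Corner.fw_eq (hc : Corner p.A p.F) (hf : f ∈ p.F) {v : Set (Finset P)}
    (hv : v ∈ orbF p.A f) {c : Finset P} (hcv : c ∈ v) : p.fw f c = v := by
  have h : p.InW f c := ⟨v, hv, hcv⟩
  unfold Pce.fw
  rw [dif_pos h]
  exact WJ_uniq hc hf h.choose_spec.1 hv h.choose_spec.2 hcv

theorem Pce.fw_mem {c : Finset P} (h : p.InW f c) : p.fw f c ∈ orbF p.A f ∧ c ∈ p.fw f c := by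
  unfold Pce.fw
  rw [dif_pos h]
  exact h.choose_spec

theorem Corner.jw_smul (hc : Corner p.A p.F) (hf : f ∈ p.F) (h : p.H) (x : p.Fl) :
    p.jw f (h • x) = h • p.jw f x := by
  by_cases hw : p.InW f x.c
  · have hw' : p.InW f (h • x).c := by
      rw [Pce.smul_c]
      exact WJ_smul_of h.2 hw
    have h1 : p.fw f (h • x).c = h.1.right • p.fw f x.c := by
      refine hc.fw_eq hf (smul_mem_orbF h.2 (Pce.fw_mem hw).1) ?_
      rw [Pce.smul_c]
      exact Set.smul_mem_smul_set (Pce.fw_mem hw).2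
    rw [Pce.jw_pos hw', Pce.jw_pos hw, h1, Pce.smul_rf]
  · have hw' : ¬ p.InW f (h • x).c := by
      rw [Pce.smul_c]
      exact fun h1 => hw ((Pce.inW_smul (p.mem_H h) f x.c).mp h1)
    rw [Pce.jw_neg hw', Pce.jw_neg hw]

private theorem WJ_comm (f : Set (Finset P)) {g : Set (Finset P)} (hg : g ∈ p.rest f)
    {x : p.Fl} (hx : x.c ∈ g) : p.jw f (p.rf g x) = p.rf g (p.jw f x) := by
  by_cases hw : p.InW f x.c
  · have hw' : p.InW f (p.rf g x).c := hw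
    rw [Pce.jw_pos hw', Pce.jw_pos hw]
    have h1 := Pce.fw_mem hw
    have h2 : (allG P).Adj g (p.fw f x.c) := by
      refine ⟨fun e => hg.2 ?_, x.c, hx, h1.2⟩
      rw [e]
      exact h1.1
    refine Pce.Fl.ext ?_ rfl
    show x.w * gn g * gn (p.fw f x.c) = x.w * gn (p.fw f x.c) * gn g
    rw [mul_assoc, mul_assoc, comm_of_adj _ _ _ h2]
  · have hw' : ¬ p.InW f (p.rf g x).c := hw
    rw [Pce.jw_neg hw', Pce.jw_neg hw]

theorem Corner.Jop_ChE (hc : Corner p.A p.F) (hf : f ∈ p.F) {m : ℕ} {z : L2 p.Fl}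
    (hz : z ∈ p.ChE (p.rest f) m) : p.Jop f z ∈ p.ChE (p.rest f) m := by
  rw [Pce.mem_ChE] at hz ⊢
  refine ⟨fun x hx => ?_, fun x g hg hx => ?_⟩
  · rw [Pce.Jop_apply]
    refine hz.1 _ ?_
    rw [Pce.jw_c]
    exact hx
  · rw [Pce.Jop_apply, Pce.Jop_apply, WJ_comm f hg hx]
    refine hz.2 _ g hg ?_
    rw [Pce.jw_c]
    exact hx

theorem Corner.Psi_eqv (hc : Corner p.A p.F) (hf : f ∈ p.F) : Eqv p.H (p.Psi f) := by
  intro h z
  apply l2_ext
  intro x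
  rw [Pce.Psi_apply, shift_apply, shift_apply, shift_apply, Pce.Psi_apply, hc.jw_smul hf]

theorem Pce.Ok.Jop_co (hp : p.Ok) (hc : Corner p.A p.F) (hf : f ∈ p.F) {w : WW P}
    {d : Finset P} (hd : d ∈ p.Y) (hW : p.InW f d) {y y' : L2 p.Fl} (hy : p.IsCo w d y)
    (hy' : p.IsCo (w * gn (p.fw f d)) d y') (z : L2 p.Fl) :
    inner ℝ y (p.Jop f z) = inner ℝ y' z := by
  classical
  have hv := Pce.fw_mem hW
  have h1 : p.Jop f y = y' := by
    apply l2_ext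
    intro x
    rw [Pce.Jop_apply, hy, hy', Pce.jw_c]
    by_cases h0 : p.inc x.c d = 0
    · rw [h0]
      simp
    · obtain ⟨u, hu, hxu⟩ := (hp.inc_fac x.c x.mem d hd).mp h0
      have hsub : x.c ⊆ d := by
        rw [hxu]
        exact Finset.erase_subset _ _
      have hxv : x.c ∈ p.fw f d :=
        hp.fdown _ (hp.orbF_sub hf hv.1) d hv.2 x.c hsub (hp.cx.ne x.c x.mem)
      have hfw : p.fw f x.c = p.fw f d := hc.fw_eq hf hv.1 hxv
      have hwx : p.InW f x.c := ⟨_, hv.1, hxv⟩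
      have h2 : (p.jw f x).w = x.w * gn (p.fw f d) := by
        rw [Pce.jw_pos hwx, hfw]
        rfl
      rw [h2]
      have h3 : x.w * gn (p.fw f d) = w ↔ x.w = w * gn (p.fw f d) := by
        constructor
        · intro h
          rw [← h, mul_assoc, gen_gen, mul_one]
        · intro h
          rw [h, mul_assoc, gen_gen, mul_one]
      by_cases h4 : x.w * gn (p.fw f d) = w
      · rw [if_pos h4, if_pos (h3.mp h4)]
      · rw [if_neg h4, if_neg fun h5 => h4 (h3.mpr h5)]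
  have h5 : p.Jop f (p.Jop f y) = y := by
    apply l2_ext
    intro x
    rw [Pce.Jop_apply, Pce.Jop_apply, Pce.jw_jw]
  rw [← h1]
  conv_lhs => rw [← h5]
  exact (p.Jop f).inner_map_map (p.Jop f y) z

private theorem WJ_inner {H C : Type} [Group H] [MulAction H C] (h : H) (y z : L2 C) :
    inner ℝ (shift h y) z = inner ℝ y (shift h⁻¹ z) := by
  have h1 : shift h (shift h⁻¹ z) = z := by
    apply l2_ext
    intro c
    rw [shift_apply, shift_apply, inv_inv, smul_inv_smul]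
  conv_lhs => rw [← h1]
  exact (shift h).inner_map_map y (shift h⁻¹ z)

private theorem WJ_coinv (hp : p.Ok) (f : Set (Finset P)) (h : p.H) {z : L2 p.Fl}
    (hz : ∀ w, ∀ d ∈ p.Y, p.InW f d → ∀ y, p.IsCo w d y → inner ℝ y z = 0) :
    ∀ w, ∀ d ∈ p.Y, p.InW f d → ∀ y, p.IsCo w d y → inner ℝ y (shift h z) = 0 := by
  intro w d hd hW y hy
  have h1 := hz _ _ (p.inv _ (h⁻¹).2 d hd) (WJ_smul_of (h⁻¹).2 hW) _ (hp.co_shift h⁻¹ hd hy)
  rw [WJ_inner, inv_inv] at h1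
  exact h1

theorem Pce.Ok.FS_inv (hp : p.Ok) (f : Set (Finset P)) (m : ℕ) : Inv p.H (p.FS f m) := by
  intro h z hz
  rw [Pce.mem_FS] at hz ⊢
  refine ⟨hp.ChE_inv (hp.rest_inv f) m h z hz.1, fun x hx => ?_⟩
  rw [shift_apply]
  refine hz.2 _ ?_
  rw [Pce.smul_c]
  exact fun h1 => hx ((Pce.inW_smul (p.mem_H h⁻¹) f x.c).mp h1)

theorem Pce.Ok.FZ_inv (hp : p.Ok) (f : Set (Finset P)) (m : ℕ) : Inv p.H (p.FZ f m) := by
  intro h z hz
  rw [Pce.mem_FZ] at hz ⊢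
  exact ⟨hp.FS_inv f m h z hz.1, WJ_coinv hp f h hz.2⟩

theorem Pce.Ok.DS_inv (hp : p.Ok) (hc : Corner p.A p.F) (hf : f ∈ p.F) (m : ℕ) :
    Inv p.H (p.DS f m) := by
  intro h z hz
  rw [Pce.mem_DS] at hz ⊢
  refine ⟨hp.ChE_inv (hp.rest_inv f) m h z hz.1, fun x => ?_⟩
  rw [shift_apply, shift_apply, ← hc.jw_smul hf]
  exact hz.2 _

theorem Pce.Ok.DZ_inv (hp : p.Ok) (hc : Corner p.A p.F) (hf : f ∈ p.F) (m : ℕ) :
    Inv p.H (p.DZ f m) := by
  intro h z hz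
  rw [Pce.mem_DZ] at hz ⊢
  exact ⟨hp.DS_inv hc hf m h z hz.1, WJ_coinv hp f h hz.2⟩

end SingerHK
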