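import Mathlib
import Pool.Agent.Lib_MP_394d50_hr.WOk

/-!
# Piece HR-8: the homomorphism `θ` for a face

Copy `Lib_MP_394d50_hk/GTh.lean` (the private lemmas and the theorems `thv_gn`, .., `thv_wact`) with the hypothesis `h : ThA E v` instead of `IsCutH A Y F V`, `v ∈ V`. `thA`: `dist`: `hc.inj` for `f` (`g ≠ f`, `h ≠ f` since `f` is in its orbit); `helly`: `hc.tri`.
-/

namespace SingerHK

open SingerRA SingerVS SingerCub
open scoped Pointwise

/-- The faces in `E` meet `v` in different sets, and two faces which meet each other and `v` meet in `v`. -/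
structure ThA {P : Type} (E : Set (Set (Finset P))) (v : Set (Finset P)) : Prop where
  dist : ∀ g ∈ E, ∀ h ∈ E, (g ∩ v).Nonempty → g ∩ v = h ∩ v → g = h
  helly : ∀ g ∈ E, ∀ h ∈ E, (g ∩ h).Nonempty → (g ∩ v).Nonempty → (h ∩ v).Nonempty →
    (g ∩ h ∩ v).Nonempty

variable {Γ P : Type} [Group Γ] [DecidableEq P] [MulAction Γ P] {A : Subgroup Γ}
  {E : Set (Set (Finset P))} {v : Set (Finset P)}

private theorem WTh_thf_comm (g g' : Set (Finset P))
    (hg : (allG P).Adj g g') : thf E v g * thf E v g' = thf E v g' * thf E v g := by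
  classical
  unfold thf
  split_ifs with h1 h2
  · obtain ⟨a1, a2, a3⟩ := h1.choose_spec
    obtain ⟨b1, b2, b3⟩ := h2.choose_spec
    refine comm_of_adj _ _ _ ⟨?_, ?_⟩
    · intro e
      apply hg.1
      rw [a3, b3, e]
    · obtain ⟨c, hc, hc'⟩ := hg.2
      rw [a3] at hc
      rw [b3] at hc'
      exact ⟨c, hc.1, hc'.1⟩
  · rw [mul_one, one_mul]
  · rw [mul_one, one_mul]
  · rfl

private theorem WTh_thv_eq (g : Set (Finset P)) :
    thv E v (gn g) = thf E v g := by
  classical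
  unfold thv
  rw [dif_pos WTh_thf_comm, wlift_gen]

private theorem WTh_ref_comm (h : ThA E v) (g g' : Set (Finset P))
    (hg : (allG P).Adj g g') : ref E v g * ref E v g' = ref E v g' * ref E v g := by
  classical
  unfold ref
  split_ifs with h1 h2
  · refine comm_of_adj _ _ _ ⟨?_, ?_⟩
    · intro e
      exact hg.1 (h.dist g h1.1 g' h2.1 h1.2 e)
    · obtain ⟨c, hc⟩ := h.helly g h1.1 g' h2.1 hg.2 h1.2 h2.2
      exact ⟨c, ⟨hc.1.1, hc.2⟩, ⟨hc.1.2, hc.2⟩⟩
  · rw [mul_one, one_mul]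
  · rw [mul_one, one_mul]
  · rfl

private theorem WTh_rev_eq (h : ThA E v) (g : Set (Finset P)) :
    rev E v (gn g) = ref E v g := by
  classical
  unfold rev
  rw [dif_pos (WTh_ref_comm h), wlift_gen]

theorem ThA.thv_gn (h : ThA E v) {g : Set (Finset P)} (hg : g ∈ E) (hgv : (g ∩ v).Nonempty) :
    thv E v (gn (g ∩ v)) = gn g := by
  classical
  rw [WTh_thv_eq]
  have h1 : ∃ f' ∈ E, (f' ∩ v).Nonempty ∧ g ∩ v = f' ∩ v := ⟨g, hg, hgv, rfl⟩
  have h2 : thf E v (g ∩ v) = gn h1.choose := by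
    unfold thf
    rw [dif_pos h1]
  rw [h2]
  obtain ⟨a1, a2, a3⟩ := h1.choose_spec
  have h3 : g = h1.choose := h.dist g hg _ a1 hgv a3
  rw [← h3]

theorem ThA.thv_gn_one (h : ThA E v) {g : Set (Finset P)} (hg : g ∉ Sv' E v) :
    thv E v (gn g) = 1 := by
  classical
  rw [WTh_thv_eq]
  unfold thf
  rw [dif_neg]
  rintro ⟨f, hf, h1, h2⟩
  exact hg ⟨f, hf, h1, h2⟩

theorem ThA.rev_gn (h : ThA E v) {g : Set (Finset P)} (hg : g ∈ E) (hgv : (g ∩ v).Nonempty) :
    rev E v (gn g) = gn (g ∩ v) := by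
  classical
  rw [WTh_rev_eq h]
  unfold ref
  rw [if_pos ⟨hg, hgv⟩]

theorem ThA.thv_par (h : ThA E v) {x : WW P} (hx : x ∈ par (allG P) (Sv' E v)) :
    thv E v x ∈ par (allG P) (Sv E v) := by
  refine par_induction (allG P) (S := Sv' E v)
    (p := fun x => thv E v x ∈ par (allG P) (Sv E v)) ?_ ?_ hx
  · show thv E v 1 ∈ _
    rw [map_one]
    exact Subgroup.one_mem _
  · intro y _ hy g hg
    show thv E v (y * gn g) ∈ _
    obtain ⟨f, hf, hfv, rfl⟩ := hg
    rw [map_mul, h.thv_gn hf hfv]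
    exact Subgroup.mul_mem _ hy (gen_mem_par _ ⟨hf, hfv⟩)

theorem ThA.rev_thv (h : ThA E v) {x : WW P} (hx : x ∈ par (allG P) (Sv' E v)) :
    rev E v (thv E v x) = x := by
  refine par_induction (allG P) (S := Sv' E v)
    (p := fun x => rev E v (thv E v x) = x) ?_ ?_ hx
  · show rev E v (thv E v 1) = 1
    rw [map_one, map_one]
  · intro y _ hy g hg
    show rev E v (thv E v (y * gn g)) = y * gn g
    obtain ⟨f, hf, hfv, rfl⟩ := hg
    rw [map_mul, map_mul, hy, h.thv_gn hf hfv, h.rev_gn hf hfv]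

theorem ThA.rev_par (h : ThA E v) {x : WW P} (hx : x ∈ par (allG P) (Sv E v)) :
    rev E v x ∈ par (allG P) (Sv' E v) := by
  refine par_induction (allG P) (S := Sv E v)
    (p := fun x => rev E v x ∈ par (allG P) (Sv' E v)) ?_ ?_ hx
  · show rev E v 1 ∈ _
    rw [map_one]
    exact Subgroup.one_mem _
  · intro y _ hy f hf
    show rev E v (y * gn f) ∈ _
    rw [map_mul, h.rev_gn hf.1 hf.2]
    exact Subgroup.mul_mem _ hy (gen_mem_par _ ⟨f, hf.1, hf.2, rfl⟩)

theorem ThA.thv_rev (h : ThA E v) {x : WW P} (hx : x ∈ par (allG P) (Sv E v)) :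
    thv E v (rev E v x) = x := by
  refine par_induction (allG P) (S := Sv E v)
    (p := fun x => thv E v (rev E v x) = x) ?_ ?_ hx
  · show thv E v (rev E v 1) = 1
    rw [map_one, map_one]
  · intro y _ hy f hf
    show thv E v (rev E v (y * gn f)) = y * gn f
    rw [map_mul, map_mul, hy, h.rev_gn hf.1 hf.2, h.thv_gn hf.1 hf.2]

theorem ThA.thv_wact (h : ThA E v) (hE : ∀ a ∈ A, ∀ g ∈ E, a • g ∈ E) {a : Γ} (ha : a ∈ A)
    (hav : a • v = v) (x : WW P) : thv E v (wact a x) = wact a (thv E v x) := by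
  have key : (thv E v).comp (wmap a) = (wmap a).comp (thv E v) := by
    refine whom_ext _ fun g => ?_
    show thv E v (wmap a (gn g)) = wmap a (thv E v (gn g))
    rw [wmap_gn]
    by_cases hg : g ∈ Sv' E v
    · obtain ⟨f, hf, hfv, rfl⟩ := hg
      have e : a • (f ∩ v) = (a • f) ∩ v := by
        rw [Set.smul_set_inter, hav]
      have hne : ((a • f) ∩ v).Nonempty := by
        rw [← e]
        exact hfv.smul_set
      rw [e, h.thv_gn (hE a ha f hf) hne, h.thv_gn hf hfv, wmap_gn]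
    · have hg' : a • g ∉ Sv' E v := by
        rintro ⟨f, hf, hfv, e⟩
        apply hg
        have hav' : a⁻¹ • v = v := by
          rw [inv_smul_eq_iff, hav]
        have e2 : g = (a⁻¹ • f) ∩ v := by
          have e3 : a⁻¹ • (a • g) = a⁻¹ • (f ∩ v) := by rw [e]
          rw [inv_smul_smul, Set.smul_set_inter, hav'] at e3
          exact e3
        refine ⟨a⁻¹ • f, hE _ (A.inv_mem ha) f hf, ?_, e2⟩
        rw [← e2]
        have h1 : (a • g).Nonempty := by
          rw [e]
          exact hfv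
        exact Set.smul_set_nonempty.mp h1
      rw [h.thv_gn_one hg', h.thv_gn_one hg, map_one]
  exact DFunLike.congr_fun key x

theorem Corner.thA {p : Pce Γ P} (hc : Corner p.A p.F) {f : Set (Finset P)} (hf : f ∈ p.F) :
    ThA (p.rest f) f := by
  have hne : ∀ g ∈ p.rest f, g ≠ f := fun g hg e => hg.2 (e ▸ mem_orbF_self p.A f)
  constructor
  · intro g hg h hh hgf e
    exact hc.inj f hf g hg.1 h hh.1 (hne g hg) (hne h hh) hgf e
  · intro g hg h hh hgh hgf hhf
    exact hc.tri g hg.1 h hh.1 f hf hgh hhf hgf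

end SingerHK
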