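import Mathlib
import Pool.Agent.Lib_MP_394d50_hr.WTh
import Pool.Agent.Lib_MP_394d50_hr.WJ

/-!
# Piece HR-9: the regions

Model: `Lib_MP_394d50_hk/CReg.lean`. `R = p.RW f _`; for `x : (p.wall f).Fl`, `π x = (θ x.w, x.c)`, `x.c ∈ f`, and `T (π x) = {g ∈ p.rest f | ∃ v ∈ orbF p.A f, x.c ∈ v ∧ (g ∩ v).Nonempty} = Sv (p.rest f) f` since the only `v` is `f` (`T_eq`; `hc.fw_eq`
twice). `self`, `eq`: `u ∈ rg x` gives `T u = T x` (the same `v`). `map`, `inj`, `surj`, `smul'`, `π_smul`: as in `CReg.lean` with `ThA.thv_par`, `ThA.rev_thv`, ... In `map`, `surj`: all simplices are in `f`, so `u.c ∈ v ↔ x.c ∈ v` for all `v` in the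
orbit (both mean `v = f`). In `surj` `u ∈ rg (π x)` gives `u.c ∈ f` (take `v = f`). For `h ∈ (p.wall f).H`: `h.1.right ∈ p.A` and `h.1.right • f = f`.
-/

namespace SingerHK

open SingerRA SingerVS SingerCub
open scoped Pointwise

variable {Γ P : Type} [Group Γ] [DecidableEq P] [MulAction Γ P] {p : Pce Γ P}
  {f : Set (Finset P)}

/-- A simplex of `f` is in no other face of the orbit. -/
theorem Corner.orb_uniq (hc : Corner p.A p.F) (hf : f ∈ p.F) {c : Finset P} (hcf : c ∈ f)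
    {v : Set (Finset P)} (hv : v ∈ orbF p.A f) (hcv : c ∈ v) : v = f := by
  rw [← hc.fw_eq hf hv hcv, hc.fw_eq hf (mem_orbF_self p.A f) hcf]

theorem Corner.T_eq (hc : Corner p.A p.F) (hf : f ∈ p.F) {c : Finset P} (hcf : c ∈ f) :
    {g | g ∈ p.rest f ∧ ∃ v ∈ orbF p.A f, c ∈ v ∧ (g ∩ v).Nonempty} = Sv (p.rest f) f := by
  ext g
  constructor
  · rintro ⟨hg, v, hv, hcv, hgv⟩
    rw [hc.orb_uniq hf hcf hv hcv] at hgv
    exact ⟨hg, hgv⟩
  · rintro ⟨hg, hgf⟩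
    exact ⟨hg, f, mem_orbF_self p.A f, hcf, hgf⟩

private theorem WReg_wact_par (a : Γ) {T : Set (Set (Finset P))}
    (hT : ∀ f ∈ T, a • f ∈ T) {g : WW P} (hg : g ∈ par (allG P) T) :
    wact a g ∈ par (allG P) T := by
  have h : par (allG P) T ≤ (par (allG P) T).comap (wact a).toMonoidHom := by
    unfold par
    rw [Subgroup.closure_le]
    rintro _ ⟨f, hf, rfl⟩
    show wact a (gn f) ∈ Subgroup.closure {g | ∃ v ∈ T, g = gen (allG P) v}
    rw [wact_gn]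
    exact Subgroup.subset_closure ⟨_, hT f hf, rfl⟩
  exact h hg

private theorem WReg_eq {G : Type} [Group G] (K : Subgroup G) {x u : G} (h : x⁻¹ * u ∈ K) (w : G) :
    u⁻¹ * w ∈ K ↔ x⁻¹ * w ∈ K := by
  have e : x⁻¹ * w = x⁻¹ * u * (u⁻¹ * w) := by group
  rw [e]
  exact (K.mul_mem_cancel_left h).symm

private theorem WReg_Sv (hp : p.Ok) {a : Γ} (ha : a ∈ p.A) (hav : a • f = f) :
    ∀ g ∈ Sv' (p.rest f) f, a • g ∈ Sv' (p.rest f) f := by
  rintro g ⟨e, he, hn, rfl⟩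
  refine ⟨a • e, hp.rest_inv f a ha e he, ?_, ?_⟩
  · have h1 : (a • (e ∩ f)).Nonempty := hn.smul_set
    rwa [Set.smul_set_inter, hav] at h1
  · rw [Set.smul_set_inter, hav]

private theorem WReg_smul (hp : p.Ok) (h : (p.wall f).H)
    (x u : (p.wall f).Fl) (hu : x.w⁻¹ * u.w ∈ par (allG P) (Sv' (p.rest f) f)) :
    (h • x).w⁻¹ * (h • u).w ∈ par (allG P) (Sv' (p.rest f) f) := by
  have hA : h.1.right ∈ p.A := ((p.wall f).mem_H h).1
  have hV : h.1.right • f = f := ((p.wall f).mem_H h).2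
  have e : (h • x).w⁻¹ * (h • u).w = wact h.1.right (x.w⁻¹ * u.w) := by
    rw [Pce.smul_w, Pce.smul_w, map_mul, map_inv]
    group
  rw [e]
  exact WReg_wact_par h.1.right (WReg_Sv hp hA hV) hu

theorem Pce.Ok.regW (hp : p.Ok) (hc : Corner p.A p.F) (hf : f ∈ p.F) :
    RegA p.H (p.wall f).H (p.RW f (hp.fsub f hf)) where
  self x := by
    refine ⟨fun v _ => Iff.rfl, ?_⟩
    rw [inv_mul_cancel]
    exact Subgroup.one_mem _
  eq x u hu := by
    obtain ⟨h1, h2⟩ := hu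
    have hT : {g | g ∈ p.rest f ∧ ∃ v ∈ orbF p.A f, u.c ∈ v ∧ (g ∩ v).Nonempty} =
        {g | g ∈ p.rest f ∧ ∃ v ∈ orbF p.A f, x.c ∈ v ∧ (g ∩ v).Nonempty} := by
      ext g
      constructor
      · rintro ⟨hg, v, hv, hcv, hgv⟩
        exact ⟨hg, v, hv, (h1 v hv).mp hcv, hgv⟩
      · rintro ⟨hg, v, hv, hcv, hgv⟩
        exact ⟨hg, v, hv, (h1 v hv).mpr hcv, hgv⟩
    ext w
    show ((∀ v ∈ orbF p.A f, w.c ∈ v ↔ u.c ∈ v) ∧ u.w⁻¹ * w.w ∈
        par (allG P) {g | g ∈ p.rest f ∧ ∃ v ∈ orbF p.A f, u.c ∈ v ∧ (g ∩ v).Nonempty}) ↔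
      ((∀ v ∈ orbF p.A f, w.c ∈ v ↔ x.c ∈ v) ∧ x.w⁻¹ * w.w ∈
        par (allG P) {g | g ∈ p.rest f ∧ ∃ v ∈ orbF p.A f, x.c ∈ v ∧ (g ∩ v).Nonempty})
    rw [hT, WReg_eq _ h2]
    constructor
    · rintro ⟨h3, h4⟩
      exact ⟨fun v hv => (h3 v hv).trans (h1 v hv), h4⟩
    · rintro ⟨h3, h4⟩
      exact ⟨fun v hv => (h3 v hv).trans (h1 v hv).symm, h4⟩
  self' x := by
    show x.w⁻¹ * x.w ∈ par (allG P) (Sv' (p.rest f) f)
    rw [inv_mul_cancel]
    exact Subgroup.one_mem _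
  eq' x u hu := by
    have hu' : x.w⁻¹ * u.w ∈ par (allG P) (Sv' (p.rest f) f) := hu
    ext w
    exact WReg_eq _ hu' w.w
  map x u hu := by
    have hu' : x.w⁻¹ * u.w ∈ par (allG P) (Sv' (p.rest f) f) := hu
    have hx : x.c ∈ f := x.mem
    have hu1 : u.c ∈ f := u.mem
    refine ⟨fun v hv => ?_, ?_⟩
    · show u.c ∈ v ↔ x.c ∈ v
      constructor
      · intro h
        rw [hc.orb_uniq hf hu1 hv h]
        exact hx
      · intro h
        rw [hc.orb_uniq hf hx hv h]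
        exact hu1
    · show (thv (p.rest f) f x.w)⁻¹ * thv (p.rest f) f u.w ∈
        par (allG P) {g | g ∈ p.rest f ∧ ∃ v ∈ orbF p.A f, x.c ∈ v ∧ (g ∩ v).Nonempty}
      rw [hc.T_eq hf hx, ← map_inv, ← map_mul]
      exact (hc.thA hf).thv_par hu'
  inj x u hu w hw e := by
    have hu' : x.w⁻¹ * u.w ∈ par (allG P) (Sv' (p.rest f) f) := hu
    have hw' : x.w⁻¹ * w.w ∈ par (allG P) (Sv' (p.rest f) f) := hw
    have e1 : thv (p.rest f) f u.w = thv (p.rest f) f w.w := congrArg Pce.Fl.w e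
    have e2 : u.c = w.c := by
      have e3 : ((p.RW f (hp.fsub f hf)).π u).c = ((p.RW f (hp.fsub f hf)).π w).c :=
        congrArg (fun z : p.Fl => z.c) e
      exact e3
    have h1 : u.w⁻¹ * w.w ∈ par (allG P) (Sv' (p.rest f) f) := (WReg_eq _ hu' w.w).mpr hw'
    have h2 : thv (p.rest f) f (u.w⁻¹ * w.w) = 1 := by
      rw [map_mul, map_inv, e1, inv_mul_cancel]
    have h3 := (hc.thA hf).rev_thv h1
    rw [h2, map_one] at h3
    exact Pce.Fl.ext (inv_mul_eq_one.mp h3.symm) e2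
  surj x u hu := by
    obtain ⟨h1, h2⟩ := hu
    have hx : x.c ∈ f := x.mem
    have hc1 : u.c ∈ f := (h1 f (mem_orbF_self p.A f)).mpr hx
    have h2' : (thv (p.rest f) f x.w)⁻¹ * u.w ∈
        par (allG P) {g | g ∈ p.rest f ∧ ∃ v ∈ orbF p.A f, x.c ∈ v ∧ (g ∩ v).Nonempty} := h2
    rw [hc.T_eq hf hx] at h2'
    refine ⟨⟨x.w * rev (p.rest f) f ((thv (p.rest f) f x.w)⁻¹ * u.w), u.c, hc1⟩, ?_, ?_⟩
    · show x.w⁻¹ * (x.w * rev (p.rest f) f ((thv (p.rest f) f x.w)⁻¹ * u.w)) ∈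
        par (allG P) (Sv' (p.rest f) f)
      rw [inv_mul_cancel_left]
      exact (hc.thA hf).rev_par h2'
    · refine Pce.Fl.ext ?_ rfl
      show thv (p.rest f) f (x.w * rev (p.rest f) f ((thv (p.rest f) f x.w)⁻¹ * u.w)) = u.w
      rw [map_mul, (hc.thA hf).thv_rev h2', mul_inv_cancel_left]
  smul' h x u := by
    refine ⟨fun hu => ?_, fun hu => WReg_smul hp h x u hu⟩
    have h1 := WReg_smul hp h⁻¹ (h • x) (h • u) hu
    rw [inv_smul_smul, inv_smul_smul] at h1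
    exact h1
  π_smul h' := by
    have hA : h'.1.right ∈ p.A := ((p.wall f).mem_H h').1
    have hV : h'.1.right • f = f := ((p.wall f).mem_H h').2
    have hH : (⟨thv (p.rest f) f h'.1.left, h'.1.right⟩ : GG Γ P) ∈ p.H := hA
    refine ⟨⟨⟨thv (p.rest f) f h'.1.left, h'.1.right⟩, hH⟩, fun x => ?_⟩
    refine Pce.Fl.ext ?_ ?_
    · show thv (p.rest f) f (h'.1.left * wact h'.1.right x.w) =
        thv (p.rest f) f h'.1.left * wact h'.1.right (thv (p.rest f) f x.w)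
      rw [map_mul, (hc.thA hf).thv_wact (hp.rest_inv f) hA hV]
    · rfl

end SingerHK
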