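import Mathlib
import Pool.Agent.Lib_MP_394d50_hr.WJ

/-!
# Piece HR-7: the restriction to a region, and the antisymmetric functions

`R = p.RW f _`, `R.rg x = {u | (∀ v ∈ orbF p.A f, u.c ∈ v ↔ x.c ∈ v) ∧ x.w⁻¹ * u.w ∈ par (T x)}`, `T x = {g ∈ p.rest f | ∃ v ∈ orbF p.A f, x.c ∈ v ∧ (g ∩ v).Nonempty}`.
`FS_rs`: the degree and the vanishing outside the walls are clear (`rs_of_mem`, `rs_of_notMem`). Matching along `g ∈ p.rest f`, `u.c ∈ g`: if `¬ p.InW f u.c` both sides vanish. Otherwise `u.c ∈ v`, `v` in the orbit; if `u ∈ rg x` then `x.c ∈ v` and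
`g ∈ T x` (`u.c ∈ g ∩ v`), so `p.rf g u ∈ rg x` (`x.w⁻¹ * (u.w * gn g)`, `gen_mem_par`); the converse the same (`gn g * gn g = 1`, `p.rf_rf`). So `u ∈ rg x ↔ p.rf g u ∈ rg x`.
`FZ_rs`: the condition `y` at `(w, d)`, `d ∈ v`: on the support of `y`: `u = (w, c)`, `c ⊆ d`, `c ∈ v` (`hp.fdown`), and for every `v'` in the orbit: `c ∈ v' ↔ d ∈ v'` (both mean `v' = v` by `hc.fw_eq`: a simplex is in at most one face of the
orbit). So all these `u` are in `rg x` or none; `⟨y, rs (rg x) z⟩ = ⟨y, z⟩` or `0` (`lp.inner_eq_tsum`, or `rs (rg x) y = y ∨ rs (rg x) y = 0` and `⟨y, rs a z⟩ = ⟨rs a y, z⟩`; see `TMir_rsin`, `TMir_dich` in `Lib_MP_394d50_hk/TMir.lean`).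
`supp`: as `TMir_supp`: `P δ_x = rs (rg x) (P δ_x)`.
`half`: `P = P_M`: `DS` is the antisymmetric part of `FS`. `TMir_half` of `Lib_MP_394d50_hk/TMir.lean` (private: copy) with `F = FS f m`, `M = DS f m`, `e = p.Jw f`: `hJ`: `Jop` preserves `FS` (`Jop_ChE`, `Pce.jw_c`) and `FZ` (`Jop_co`); `hM`: for
`z ∈ DS`, `¬ InW f x.c`: `p.jw f x = x`, so `z x = - z x = 0`. `hd`: if `InW f x.c`: `p.jw f x ∉ rg x` since `gn v ∉ par (T x)` (`gen_mem_par_iff`; `v` is in the orbit of `f`, so `v ∉ p.rest f`), and `supp`;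
otherwise `p.jw f x = x` and all functions in `FS` vanish at `x`.
-/

namespace SingerHK

open SingerRA SingerVS SingerCub SingerLG
open scoped Pointwise

variable {Γ P : Type} [Group Γ] [DecidableEq P] [MulAction Γ P] {p : Pce Γ P}
  {f : Set (Finset P)}

private theorem WRg_rsin {C : Type} (a : Set C) (y z : L2 C) :
    inner ℝ (rs a y) z = inner ℝ y (rs a z) := by
  unfold rs
  exact Submodule.inner_starProjection_left_eq_right _ y z

/-- `TMir_half` of `Lib_MP_394d50_hk/TMir.lean`. -/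
private theorem WRg_half {C K : Type} [Group K] [MulAction K C] (hC : FO K C)
    {F M : Submodule ℝ (L2 C)} [F.HasOrthogonalProjection]
    [M.HasOrthogonalProjection] (e : C ≃ C) (he : ∀ c, e (e c) = c)
    (hJ : ∀ f ∈ F, ∃ f' ∈ F, ∀ c, f' c = f (e c))
    (hM : ∀ f, f ∈ M ↔ f ∈ F ∧ ∀ c, f (e c) = - f c)
    (hd : ∀ c, (F.starProjection (delta c)) (e c) = 0) :
    tr K M.starProjection = 1 / 2 * tr K F.starProjection := by
  have := hC.cofin
  let _ : Fintype (Orb K C) := Fintype.ofFinite _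
  let J : L2 C ≃ₗᵢ[ℝ] L2 C := twE e (fun _ => 1) (fun _ => Or.inl rfl)
  have hJa : ∀ (z : L2 C) (c : C), (J z) c = z (e c) := by
    intro z c
    have h1 : (J z) (e (e c)) = 1 * z (e c) :=
      twE_apply e (fun _ => 1) (fun _ => Or.inl rfl) z (e c)
    rwa [he, one_mul] at h1
  have hJF : ∀ f ∈ F, J f ∈ F := by
    intro f hf
    obtain ⟨f', hf', h1⟩ := hJ f hf
    have h2 : J f = f' := l2_ext _ _ fun c => by rw [hJa, h1]
    rw [h2]
    exact hf'
  have hP : ∀ x : L2 C, M.starProjection x =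
      (1 / 2 : ℝ) • (F.starProjection x - J (F.starProjection x)) := by
    intro x
    refine M.eq_starProjection_of_mem_of_inner_eq_zero ?_ ?_
    · rw [hM]
      refine ⟨F.smul_mem _ (F.sub_mem (F.starProjection_apply_mem x)
        (hJF _ (F.starProjection_apply_mem x))), fun c => ?_⟩
      show (1 / 2 : ℝ) * ((F.starProjection x) (e c) - (J (F.starProjection x)) (e c)) =
        - ((1 / 2 : ℝ) * ((F.starProjection x) c - (J (F.starProjection x)) c))
      rw [hJa, hJa, he]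
      ring
    · intro w hw
      have hw' := (hM w).mp hw
      have h1 : J w = - w := l2_ext _ _ fun c => by
        rw [hJa, hw'.2]
        rfl
      have h2 : inner ℝ (J (F.starProjection x)) w = - inner ℝ (F.starProjection x) w := by
        have h3 : w = - J w := by rw [h1, neg_neg]
        conv_lhs => rw [h3]
        rw [inner_neg_right]
        congr 1
        exact J.inner_map_map _ _
      have h4 := F.starProjection_inner_eq_zero x w hw'.1
      rw [inner_sub_left, sub_eq_zero] at h4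
      rw [inner_sub_left, real_inner_smul_left, inner_sub_left, h2, h4]
      ring
  unfold SingerCub.tr
  rw [finsum_eq_sum_of_fintype, finsum_eq_sum_of_fintype, Finset.mul_sum]
  refine Finset.sum_congr rfl fun o _ => ?_
  rw [hP, real_inner_smul_left, inner_sub_left]
  have h3 : inner ℝ (J (F.starProjection (delta o.out))) (delta o.out) = (0 : ℝ) := by
    rw [real_inner_comm, delta_inner, hJa, hd]
  rw [h3, sub_zero]

/-- The projection of `δ_x` is supported on `a`, if the space is invariant under the restriction to `a`. -/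
private theorem WRg_supp {C : Type} {F : Submodule ℝ (L2 C)} [F.HasOrthogonalProjection]
    {a : Set C} (ha : ∀ z ∈ F, rs a z ∈ F) {x u : C} (hx : x ∈ a) (hu : u ∉ a) :
    (F.starProjection (delta x)) u = 0 := by
  have e : F.starProjection (delta x) = rs a (F.starProjection (delta x)) := by
    refine F.eq_starProjection_of_mem_of_inner_eq_zero
      (ha _ (F.starProjection_apply_mem _)) fun w hw => ?_
    have h1 := F.starProjection_inner_eq_zero (delta x) _ (ha w hw)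
    rw [inner_sub_left, delta_inner, rs_of_mem w hx, sub_eq_zero] at h1
    rw [inner_sub_left, delta_inner, WRg_rsin, ← h1, sub_self]
  rw [e]
  exact rs_of_notMem _ hu

/-- Going across a face preserves the region. -/
private theorem WRg_step (hf : f ⊆ p.Y) {x u : p.Fl} {g : Set (Finset P)} (hg : g ∈ p.rest f)
    (hug : u.c ∈ g) (hW : p.InW f u.c) (hu : u ∈ (p.RW f hf).rg x) :
    p.rf g u ∈ (p.RW f hf).rg x := by
  obtain ⟨h1, h2⟩ := hu
  obtain ⟨v, hv, huv⟩ := hW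
  refine ⟨h1, ?_⟩
  have h3 : x.w⁻¹ * (p.rf g u).w = (x.w⁻¹ * u.w) * gn g := by
    show x.w⁻¹ * (u.w * gn g) = _
    rw [mul_assoc]
  rw [h3]
  exact Subgroup.mul_mem _ h2 (gen_mem_par _ ⟨hg, v, hv, (h1 v hv).mp huv, u.c, hug, huv⟩)

private theorem WRg_self (hf : f ⊆ p.Y) (x : p.Fl) : x ∈ (p.RW f hf).rg x := by
  refine ⟨fun v _ => Iff.rfl, ?_⟩
  rw [inv_mul_cancel]
  exact Subgroup.one_mem _

/-- The reflection in the wall leaves the region. -/
private theorem WRg_out (hf : f ⊆ p.Y) {x : p.Fl} (hW : p.InW f x.c) :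
    p.jw f x ∉ (p.RW f hf).rg x := by
  rintro ⟨-, h⟩
  rw [Pce.jw_pos hW] at h
  have h1 : x.w⁻¹ * (p.rf (p.fw f x.c) x).w = gn (p.fw f x.c) := by
    show x.w⁻¹ * (x.w * gn (p.fw f x.c)) = _
    rw [inv_mul_cancel_left]
  rw [h1] at h
  have h2 := (gen_mem_par_iff (allG P)).mp h
  exact h2.1.2 (Pce.fw_mem hW).1

theorem Pce.Ok.FS_rs (hp : p.Ok) (hc : Corner p.A p.F) (hf : f ∈ p.F) {m : ℕ} {z : L2 p.Fl}
    (hz : z ∈ p.FS f m) (x : p.Fl) : rs ((p.RW f (hp.fsub f hf)).rg x) z ∈ p.FS f m := by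
  rw [Pce.mem_FS, Pce.mem_ChE] at hz ⊢
  obtain ⟨⟨h1, h2⟩, h3⟩ := hz
  have h0 : ∀ u : p.Fl, z u = 0 → (rs ((p.RW f (hp.fsub f hf)).rg x) z) u = 0 := by
    intro u hu
    by_cases h : u ∈ (p.RW f (hp.fsub f hf)).rg x
    · rw [rs_of_mem z h, hu]
    · exact rs_of_notMem z h
  refine ⟨⟨fun u hu => h0 u (h1 u hu), fun u g hg hu => ?_⟩, fun u hu => h0 u (h3 u hu)⟩
  by_cases hW : p.InW f u.c
  · by_cases h : u ∈ (p.RW f (hp.fsub f hf)).rg x
    · rw [rs_of_mem z h, rs_of_mem z (WRg_step _ hg hu hW h)]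
      exact h2 u g hg hu
    · have h' : p.rf g u ∉ (p.RW f (hp.fsub f hf)).rg x := by
        intro h4
        have h5 := WRg_step (x := x) (u := p.rf g u) (hp.fsub f hf) hg hu hW h4
        rw [Pce.rf_rf] at h5
        exact h h5
      rw [rs_of_notMem z h, rs_of_notMem z h']
  · rw [h0 u (h3 u hW), h0 (p.rf g u) (h3 (p.rf g u) hW)]

theorem Pce.Ok.FZ_rs (hp : p.Ok) (hc : Corner p.A p.F) (hf : f ∈ p.F) {m : ℕ} {z : L2 p.Fl}
    (hz : z ∈ p.FZ f m) (x : p.Fl) : rs ((p.RW f (hp.fsub f hf)).rg x) z ∈ p.FZ f m := by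
  rw [Pce.mem_FZ] at hz ⊢
  refine ⟨hp.FS_rs hc hf hz.1 x, fun w d hd hW y hy => ?_⟩
  rw [← WRg_rsin]
  -- the support of `y`
  have hs : ∀ u : p.Fl, y u ≠ 0 → u.w = w ∧ ∀ v ∈ orbF p.A f, (u.c ∈ v ↔ d ∈ v) := by
    intro u hu
    rw [hy u] at hu
    by_cases h1 : u.w = w
    · rw [if_pos h1] at hu
      refine ⟨h1, fun v hv => ?_⟩
      have h2 : p.inc u.c d ≠ 0 := fun h => hu (by rw [h, Int.cast_zero])
      obtain ⟨a, -, ha⟩ := (hp.inc_fac u.c u.mem d hd).mp h2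
      have h3 : u.c ⊆ d := by
        rw [ha]
        exact Finset.erase_subset _ _
      have h4 : ∀ v ∈ orbF p.A f, d ∈ v → u.c ∈ v := fun v hv hdv =>
        hp.fdown v (hp.orbF_sub hf hv) d hdv u.c h3 (hp.cx.ne u.c u.mem)
      refine ⟨fun h5 => ?_, h4 v hv⟩
      obtain ⟨v₀, hv₀, hd₀⟩ := hW
      have h6 := hc.fw_eq hf hv h5
      have h7 := hc.fw_eq hf hv₀ (h4 v₀ hv₀ hd₀)
      rw [← h6, h7]
      exact hd₀
    · rw [if_neg h1] at hu
      exact absurd rfl hu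
  by_cases hQ : (∀ v ∈ orbF p.A f, d ∈ v ↔ x.c ∈ v) ∧
      x.w⁻¹ * w ∈ par (allG P) {g | g ∈ p.rest f ∧ ∃ v ∈ orbF p.A f, x.c ∈ v ∧ (g ∩ v).Nonempty}
  · have e : rs ((p.RW f (hp.fsub f hf)).rg x) y = y := by
      refine l2_ext _ _ fun u => ?_
      by_cases hu : u ∈ (p.RW f (hp.fsub f hf)).rg x
      · exact rs_of_mem y hu
      · rw [rs_of_notMem y hu]
        by_contra h1
        obtain ⟨h2, h3⟩ := hs u fun e => h1 e.symm
        refine hu ⟨fun v hv => (h3 v hv).trans (hQ.1 v hv), ?_⟩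
        rw [h2]
        exact hQ.2
    rw [e]
    exact hz.2 w d hd hW y hy
  · have e : rs ((p.RW f (hp.fsub f hf)).rg x) y = 0 := by
      refine l2_ext _ _ fun u => ?_
      show (rs ((p.RW f (hp.fsub f hf)).rg x) y) u = 0
      by_cases hu : u ∈ (p.RW f (hp.fsub f hf)).rg x
      · rw [rs_of_mem y hu]
        by_contra h1
        obtain ⟨h2, h3⟩ := hs u h1
        refine hQ ⟨fun v hv => (h3 v hv).symm.trans (hu.1 v hv), ?_⟩
        rw [← h2]
        exact hu.2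
      · exact rs_of_notMem y hu
    rw [e, inner_zero_left]

/-- The antisymmetric functions have half the dimension. -/
theorem Pce.Ok.tr_DS (hp : p.Ok) (hc : Corner p.A p.F) (hf : f ∈ p.F) (m : ℕ) :
    tr p.H (p.DS f m).starProjection = 1 / 2 * tr p.H (p.FS f m).starProjection := by
  refine WRg_half hp.fo (p.Jw f) (p.jw_jw f) (fun z hz => ⟨p.Jop f z, ?_, fun c =>
    Pce.Jop_apply f z c⟩) (fun z => ?_) fun x => ?_
  · rw [Pce.mem_FS] at hz ⊢
    refine ⟨hc.Jop_ChE hf hz.1, fun x hx => ?_⟩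
    rw [Pce.Jop_apply]
    exact hz.2 _ (by rw [Pce.jw_c]; exact hx)
  · rw [Pce.mem_DS, Pce.mem_FS]
    constructor
    · rintro ⟨h1, h2⟩
      refine ⟨⟨h1, fun x hx => ?_⟩, h2⟩
      have h3 := h2 x
      rw [Pce.jw_neg hx] at h3
      linarith
    · rintro ⟨⟨h1, -⟩, h2⟩
      exact ⟨h1, h2⟩
  · show ((p.FS f m).starProjection (delta x)) (p.jw f x) = 0
    by_cases hW : p.InW f x.c
    · exact WRg_supp (fun z hz => hp.FS_rs hc hf hz x) (WRg_self (hp.fsub f hf) x)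
        (WRg_out (hp.fsub f hf) hW)
    · rw [Pce.jw_neg hW]
      exact (Pce.mem_FS.mp ((p.FS f m).starProjection_apply_mem (delta x))).2 x hW

theorem Pce.Ok.tr_DZ (hp : p.Ok) (hc : Corner p.A p.F) (hf : f ∈ p.F) (m : ℕ) :
    tr p.H (p.DZ f m).starProjection = 1 / 2 * tr p.H (p.FZ f m).starProjection := by
  refine WRg_half hp.fo (p.Jw f) (p.jw_jw f) (fun z hz => ⟨p.Jop f z, ?_, fun c =>
    Pce.Jop_apply f z c⟩) (fun z => ?_) fun x => ?_
  · rw [Pce.mem_FZ, Pce.mem_FS] at hz ⊢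
    refine ⟨⟨hc.Jop_ChE hf hz.1.1, fun x hx => ?_⟩, fun w d hd hW y hy => ?_⟩
    · rw [Pce.Jop_apply]
      exact hz.1.2 _ (by rw [Pce.jw_c]; exact hx)
    · obtain ⟨y', hy'⟩ := hp.exists_co (w * gn (p.fw f d)) hd
      rw [hp.Jop_co hc hf hd hW hy hy' z]
      exact hz.2 _ d hd hW y' hy'
  · rw [Pce.mem_DZ, Pce.mem_DS, Pce.mem_FZ, Pce.mem_FS]
    constructor
    · rintro ⟨⟨h1, h2⟩, h4⟩
      refine ⟨⟨⟨h1, fun x hx => ?_⟩, h4⟩, h2⟩
      have h3 := h2 x
      rw [Pce.jw_neg hx] at h3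
      linarith
    · rintro ⟨⟨⟨h1, -⟩, h4⟩, h2⟩
      exact ⟨⟨h1, h2⟩, h4⟩
  · show ((p.FZ f m).starProjection (delta x)) (p.jw f x) = 0
    by_cases hW : p.InW f x.c
    · exact WRg_supp (fun z hz => hp.FZ_rs hc hf hz x) (WRg_self (hp.fsub f hf) x)
        (WRg_out (hp.fsub f hf) hW)
    · rw [Pce.jw_neg hW]
      exact (Pce.mem_FS.mp (Pce.mem_FZ.mp ((p.FZ f m).starProjection_apply_mem
        (delta x))).1).2 x hW

end SingerHK
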