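import Mathlib
import Pool.Agent.Lib_MP_394d50_hr.WReg
import Pool.Agent.Lib_MP_394d50_hr.WRg

/-!
# Piece HR-10: the functions of the wall piece

`q = p.wall f`, `R = p.RW f _`, `hp.regW hc hf : RegA ..`, `(hp.regW hc hf).mem_Cp : z' ∈ R.Cp M ↔ ∀ x z, R.Pl x z' z → z ∈ M` (`Pl x z' z`: `z` is the restriction of `z'` to the region of `x`, transported by `π`).
The faces of `q` are the `g ∩ f`, `g ∈ p.rest f`, `g ∩ f` not empty (`hc.facesIn_eq hf`), and `π (q.rf (g ∩ f) x) = p.rf g (π x)` (`ThA.thv_gn`), `q.rf (g ∩ f) x ∈ rg' x` (model: `CMir_pi_rf` and `CMir_L_pi` in `Lib_MP_394d50_hk/CMir.lean`).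
`Cp_FS`, `⊆`: `z' ∈ Cp FS`, `x`: `z` from `(exists_pl x)`: `z (π u) = z' u` for `u ∈ rg' x`. `x.c.card ≠ m`: `z' x = z (π x) = 0`. Matching: `z' (q.rf (g ∩ f) x) = z (p.rf g (π x)) = z (π x) = z' x` (`Pce.mem_FS`, `Pce.mem_ChE`).
`⊇`: `z' ∈ q.Chs m`, `Pl x z' z`: `z u = 0` for `u ∉ rg (π x)`; for `u ∈ rg (π x)`: `u = π u'`, `u' ∈ rg' x` (`surj`). Degree, and vanishing at `¬ InW f u.c` (`u'.c ∈ f`): clear. Matching along `g ∈ p.rest f`, `u.c ∈ g`: if `u = π u'`, then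
`p.rf g u = π (q.rf (g ∩ f) u')`. If `u ∉ rg (π x)`: if `u.c ∉ f` then `p.rf g u ∉ rg (π x)` (the simplex must be in `f`); if `u.c ∈ f` then `g` meets `f`, and `u ∈ rg (π x) ↔ p.rf g u ∈ rg (π x)` (`Corner.T_eq`, `gen_mem_par`).
-/

namespace SingerHK

open SingerRA SingerVS SingerCub
open scoped Pointwise

variable {Γ P : Type} [Group Γ] [DecidableEq P] [MulAction Γ P] {p : Pce Γ P}
  {f : Set (Finset P)}

theorem Pce.Ok.pi_rf (hp : p.Ok) (hc : Corner p.A p.F) (hf : f ∈ p.F) {g : Set (Finset P)}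
    (hg : g ∈ p.rest f) (x : (p.wall f).Fl) (hx : x.c ∈ g) :
    (p.RW f (hp.fsub f hf)).π ((p.wall f).rf (g ∩ f) x) =
      p.rf g ((p.RW f (hp.fsub f hf)).π x) ∧
    (p.wall f).rf (g ∩ f) x ∈ (p.RW f (hp.fsub f hf)).rg' x := by
  have hne : (g ∩ f).Nonempty := ⟨x.c, hx, x.mem⟩
  constructor
  · refine Pce.Fl.ext ?_ rfl
    show thv (p.rest f) f (x.w * gn (g ∩ f)) = thv (p.rest f) f x.w * gn g
    rw [map_mul, (hc.thA hf).thv_gn hg hne]
  · show x.w⁻¹ * (x.w * gn (g ∩ f)) ∈ par (allG P) (Sv' (p.rest f) f)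
    rw [inv_mul_cancel_left]
    exact gen_mem_par _ ⟨g, hg, hne, rfl⟩

theorem Pce.Ok.Cp_FS (hp : p.Ok) (hc : Corner p.A p.F) (hf : f ∈ p.F) (m : ℕ) :
    (p.RW f (hp.fsub f hf)).Cp (p.FS f m) = (p.wall f).Chs m := by
  have hR := hp.regW hc hf
  ext z'
  rw [hR.mem_Cp, Pce.mem_Chs]
  constructor
  · intro h
    have key : ∀ x : (p.wall f).Fl, ∃ z : L2 p.Fl, z ∈ p.FS f m ∧
        ∀ u ∈ (p.RW f (hp.fsub f hf)).rg' x, z ((p.RW f (hp.fsub f hf)).π u) = z' u := by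
      intro x
      obtain ⟨T, hT1, hT2, -⟩ := hR.exists_pl x
      exact ⟨T z', h x (T z') ⟨hT1 z', hT2 z'⟩, hT1 z'⟩
    refine ⟨fun x hx => ?_, fun x f' hf' hx => ?_⟩
    · obtain ⟨z, hz, hzu⟩ := key x
      rw [← hzu x (hR.self' x)]
      exact (Pce.mem_ChE.mp (Pce.mem_FS.mp hz).1).1 _ hx
    · have hf'' : f' ∈ Sv' (p.rest f) f := (hc.facesIn_eq hf) ▸ hf'
      obtain ⟨g, hg, hgf, rfl⟩ := hf''
      obtain ⟨z, hz, hzu⟩ := key x
      obtain ⟨h1, h2⟩ := hp.pi_rf hc hf hg x hx.1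
      rw [← hzu _ h2, ← hzu x (hR.self' x), h1]
      exact (Pce.mem_ChE.mp (Pce.mem_FS.mp hz).1).2 _ g hg hx.1
  · rintro ⟨hd, hm⟩ x z hz
    rw [Pce.mem_FS, Pce.mem_ChE]
    have hrf : ∀ u' ∈ (p.RW f (hp.fsub f hf)).rg' x, ∀ g ∈ p.rest f, u'.c ∈ g →
        (p.wall f).rf (g ∩ f) u' ∈ (p.RW f (hp.fsub f hf)).rg' x := by
      intro u' hu' g hg hcg
      have h2 := (hp.pi_rf hc hf hg u' hcg).2
      rwa [hR.eq' x u' hu'] at h2
    refine ⟨⟨fun u hu => ?_, fun u g hg hug => ?_⟩, fun u hu => ?_⟩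
    · by_cases hur : u ∈ (p.RW f (hp.fsub f hf)).rg ((p.RW f (hp.fsub f hf)).π x)
      · obtain ⟨u', hu', rfl⟩ := hR.surj x u hur
        rw [hz.1 u' hu']
        exact hd u' hu
      · exact hz.2 u hur
    · by_cases hur : u ∈ (p.RW f (hp.fsub f hf)).rg ((p.RW f (hp.fsub f hf)).π x)
      · obtain ⟨u', hu', rfl⟩ := hR.surj x u hur
        have hcg : u'.c ∈ g := hug
        rw [← (hp.pi_rf hc hf hg u' hcg).1, hz.1 _ (hrf u' hu' g hg hcg), hz.1 u' hu']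
        refine hm u' (g ∩ f) ?_ ⟨hcg, u'.mem⟩
        show g ∩ f ∈ facesIn p.F f
        rw [hc.facesIn_eq hf]
        exact ⟨g, hg, ⟨u'.c, hcg, u'.mem⟩, rfl⟩
      · rw [hz.2 u hur]
        refine hz.2 _ fun hur' => hur ?_
        obtain ⟨u', hu', he⟩ := hR.surj x _ hur'
        have hcg : u'.c ∈ g := by
          have h1 : u'.c = u.c := congrArg Pce.Fl.c he
          rw [h1]
          exact hug
        have h2 := (hp.pi_rf hc hf hg u' hcg).1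
        rw [he, Pce.rf_rf] at h2
        rw [← h2]
        exact hR.map x _ (hrf u' hu' g hg hcg)
    · by_cases hur : u ∈ (p.RW f (hp.fsub f hf)).rg ((p.RW f (hp.fsub f hf)).π x)
      · obtain ⟨u', hu', rfl⟩ := hR.surj x u hur
        exact absurd (⟨f, mem_orbF_self p.A f, u'.mem⟩ : p.InW f u'.c) hu
      · exact hz.2 u hur

end SingerHK
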