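import Mathlib
import Pool.Agent.Lib_MP_394d50_hr.WFull

/-!
# Piece HR-11: the cocycles of the wall piece

`q = p.wall f`, `R = p.RW f _`, `hp.regW hc hf : RegA ..`. `Pce.mem_FZ`, `Pce.mem_Zs`, `(hp.regW hc hf).mem_Cp`, `hp.Cp_FS`: only the cocycle conditions remain.
`⊆`: the condition `y'` of `q` at `(w, d)`, `d ∈ f`; `x = (w, d)`, `y` the condition of `p` at `(θ w, d)`: `R.Tr x y y'` (on `rg' x` the values agree by `inj`, and outside `rg' x` the condition at `(w, d)` is zero; model: `CMir_L_pi` in `Lib_MP_394d50_hk/CMir.lean`,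
last case); so `⟨y', z'⟩ = ⟨y, z⟩ = 0` with `z` from `exists_pl x` (third part), `z ∈ FZ`.
`⊇`: the condition `y` of `p` at `(w, d)`, `InW f d`, and `Pl x z' z`. If the support of `y` meets `rg (π x)` in `u = (w, c)`: `c ⊆ d ∈ v`, `c ∈ v` and `c ∈ f`, so `v = f` (`hc.orb_uniq`), `d ∈ f`, `(w, d) ∈ rg (π x)`, `(w, d) = π (w', d)` with
`(w', d) ∈ rg' x`, and the condition `y'` of `q` at `(w', d)` satisfies `R.Tr x y y'`; so `⟨y, z⟩ = ⟨y', z'⟩ = 0` (the third part of `exists_pl`, and `z` is `T z'`). Otherwise `⟨y, z⟩ = 0` (`SingerLG.inner_eq_zero_of_supp`).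
-/

namespace SingerHK

open SingerRA SingerVS SingerCub
open scoped Pointwise

variable {Γ P : Type} [Group Γ] [DecidableEq P] [MulAction Γ P] {p : Pce Γ P}
  {f : Set (Finset P)}

theorem Pce.Ok.Cp_FZ (hp : p.Ok) (hc : Corner p.A p.F) (hf : f ∈ p.F) (m : ℕ) :
    (p.RW f (hp.fsub f hf)).Cp (p.FZ f m) = (p.wall f).Zs m := by
  have hR := hp.regW hc hf
  have hS := hp.Cp_FS hc hf m
  ext z'
  constructor
  · intro h
    have h1 := hR.mem_Cp.mp h
    rw [Pce.mem_Zs]
    refine ⟨?_, fun w d hd y' hy' => ?_⟩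
    · rw [← hS, hR.mem_Cp]
      exact fun x z hz => (Pce.mem_FZ.mp (h1 x z hz)).1
    · have hdf : d ∈ f := hd
      have hdY : d ∈ p.Y := hp.fsub f hf hdf
      obtain ⟨T, hT1, hT2, hT3⟩ := hR.exists_pl (⟨w, d, hd⟩ : (p.wall f).Fl)
      obtain ⟨y, hy⟩ := hp.exists_co (thv (p.rest f) f w) hdY
      have hz := h1 ⟨w, d, hd⟩ (T z') ⟨hT1 z', hT2 z'⟩
      have h2 := (Pce.mem_FZ.mp hz).2 _ d hdY ⟨f, mem_orbF_self p.A f, hdf⟩ y hy
      have hw : ∀ u : (p.wall f).Fl, u.w = w →
          u ∈ (p.RW f (hp.fsub f hf)).rg' ⟨w, d, hd⟩ := by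
        intro u hu
        show w⁻¹ * u.w ∈ par (allG P) (Sv' (p.rest f) f)
        rw [hu, inv_mul_cancel]
        exact Subgroup.one_mem _
      rw [hT3 y y' z' ⟨fun u hu => ?_, fun u hu => ?_⟩]
      · exact h2
      · rw [hy' u, hy]
        by_cases h3 : u.w = w
        · rw [if_pos h3, if_pos]
          · rfl
          · show thv (p.rest f) f u.w = thv (p.rest f) f w
            rw [h3]
        · rw [if_neg h3, if_neg]
          intro h4
          refine h3 ?_
          have h5 : u = ⟨w, u.c, u.mem⟩ := by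
            refine hR.inj _ u hu _ (hw ⟨w, u.c, u.mem⟩ rfl) ?_
            exact Pce.Fl.ext h4 rfl
          rw [h5]
      · rw [hy' u, if_neg fun e => hu (hw u e)]
  · intro h
    obtain ⟨hz1, hz2⟩ := Pce.mem_Zs.mp h
    rw [← hS, hR.mem_Cp] at hz1
    rw [hR.mem_Cp]
    intro x z hz
    rw [Pce.mem_FZ]
    refine ⟨hz1 x z hz, fun w d hd hW y hy => ?_⟩
    obtain ⟨v, hv, hdv⟩ := hW
    have hvF : v ∈ p.F := hp.orbF_sub hf hv
    by_cases hex : ∃ u : p.Fl, u ∈ (p.RW f (hp.fsub f hf)).rg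
        ((p.RW f (hp.fsub f hf)).π x) ∧ y u ≠ 0
    · obtain ⟨u, hu, hyu⟩ := hex
      rw [hy u] at hyu
      split_ifs at hyu with h1
      swap
      · exact absurd rfl hyu
      have h2 : p.inc u.c d ≠ 0 := fun e => hyu (by rw [e, Int.cast_zero])
      obtain ⟨a, _, hce⟩ := (hp.inc_fac u.c u.mem d hd).mp h2
      have hcv : u.c ∈ v := by
        refine hp.fdown v hvF d hdv u.c ?_ (hp.cx.ne u.c u.mem)
        rw [hce]
        exact Finset.erase_subset _ _
      have hxf : x.c ∈ f := x.mem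
      have hcf : u.c ∈ f := (hu.1 f (mem_orbF_self p.A f)).mpr hxf
      have hvf : v = f := hc.orb_uniq hf hcf hv hcv
      have hdf : d ∈ f := hvf ▸ hdv
      have hwd : (⟨w, d, hd⟩ : p.Fl) ∈ (p.RW f (hp.fsub f hf)).rg
          ((p.RW f (hp.fsub f hf)).π x) := by
        refine ⟨fun v' hv' => ⟨fun e => ?_, fun e => ?_⟩, ?_⟩
        · rw [hc.orb_uniq hf hdf hv' e]
          exact hxf
        · rw [hc.orb_uniq hf hxf hv' e]
          exact hdf
        · have h3 := hu.2
          rw [h1] at h3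
          exact h3
      obtain ⟨e, he, heπ⟩ := hR.surj x _ hwd
      have hew : thv (p.rest f) f e.w = w := congrArg Pce.Fl.w heπ
      have hrg : ∀ u : (p.wall f).Fl, u.w = e.w → u ∈ (p.RW f (hp.fsub f hf)).rg' x := by
        intro u hu
        have h3 : x.w⁻¹ * e.w ∈ par (allG P) (Sv' (p.rest f) f) := he
        show x.w⁻¹ * u.w ∈ par (allG P) (Sv' (p.rest f) f)
        rw [hu]
        exact h3
      obtain ⟨S, hSy⟩ := hR.exists_ps x
      obtain ⟨T, hT1, hT2, hT3⟩ := hR.exists_pl x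
      have hzT : z = T z' := by
        refine l2_ext _ _ fun u => ?_
        by_cases hu : u ∈ (p.RW f (hp.fsub f hf)).rg ((p.RW f (hp.fsub f hf)).π x)
        · obtain ⟨u', hu', rfl⟩ := hR.surj x u hu
          rw [hz.1 u' hu', hT1 z' u' hu']
        · rw [hz.2 u hu, hT2 z' u hu]
      have hco : (p.wall f).IsCo e.w d (S y) := by
        intro u
        by_cases hu : u ∈ (p.RW f (hp.fsub f hf)).rg' x
        · rw [(hSy y).1 u hu, hy]
          by_cases h3 : u.w = e.w
          · rw [if_pos h3, if_pos]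
            · rfl
            · show thv (p.rest f) f u.w = w
              rw [h3, hew]
          · rw [if_neg h3, if_neg]
            intro h4
            refine h3 ?_
            have h5 : u = ⟨e.w, u.c, u.mem⟩ := by
              refine hR.inj x u hu _ (hrg ⟨e.w, u.c, u.mem⟩ rfl) ?_
              refine Pce.Fl.ext ?_ rfl
              show thv (p.rest f) f u.w = thv (p.rest f) f e.w
              rw [hew]
              exact h4
            rw [h5]
        · rw [(hSy y).2 u hu, if_neg fun h3 => hu (hrg u h3)]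
      rw [hzT, ← hT3 y (S y) z' (hSy y)]
      exact hz2 e.w d hdf (S y) hco
    · refine SingerLG.inner_eq_zero_of_supp fun u => ?_
      by_cases hu : u ∈ (p.RW f (hp.fsub f hf)).rg ((p.RW f (hp.fsub f hf)).π x)
      · exact Or.inl (not_not.mp fun h1 => hex ⟨u, hu, h1⟩)
      · exact Or.inr (hz.2 u hu)

end SingerHK
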