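import Mathlib
import Pool.Agent.Lib_MP_394d50_hr.WFullZ
import Pool.Agent.Lib_MP_394d50_hk.TFib

/-!
# Piece HR-12: the sums over the orbits

`sum_orb_sub`: as `sum_orb_pieces` (`Lib_MP_394d50_hk/TFib.lean`) with one piece, but `κ = 0` at the points which are not in the orbit of a `π y`: `G : Orb K F → Orb H E`, `o ↦ [π o.out]`, injective by `h2`; `κ (o.out) = 0` for `o` outside the range of `G` by `h3`.
(`finsum` over `Orb H E` (finite) is the sum over the range; e.g. `Finset.sum_subset`, `Finset.sum_image`.)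
`tr_FS`: `tr p.H (FS f m) = ∑ᶠ o, kap (FS f m) o.out` (`tr_eq_kap`) `= ∑ᶠ o : Orb q.H q.Fl, kap (FS f m) (π o.out)` (`sum_orb_sub`) `= ∑ᶠ o, kap (R.Cp (FS f m)) o.out` (`(hp.regW hc hf).coef_Cp`, `kap` is defined by it; `hM = hp.FS_rs`) `= tr q.H (q.Chs m) = q.N m` (`hp.Cp_FS`;
rewrite with a lemma `M = M' → tr K M.starProjection = tr K M'.starProjection` as `CStep_tr` in `Lib_MP_394d50_hk/CStep.lean`).
`h1`: `(hp.regW hc hf).π_smul`. `h2`: `π y = h • π x`: `y.c = a • x.c`, `a = h.1.right`; both in `f`, so `a • f = f` (`hc.orb`), `a ∈ A ⊓ stabilizer f`; `k = (y.w * (wact a x.w)⁻¹, a)` (model: `Lib_MP_394d50_hk/COrb.lean`). `h3`: if `InW f x.c`, `x.c ∈ a • f`: `x = (x.w, a) • π (1, a⁻¹ • x.c)`.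
So `κ x ≠ 0 → InW f x.c`: `kap (FS f m) x = (P δ_x) x = 0` if `¬ InW f x.c` (`Pce.mem_FS`).
-/

namespace SingerHK

open SingerRA SingerVS SingerCub
open scoped Pointwise

/-- `h1` (the orbits are mapped into orbits) was missing in the first version of the statement; it is needed. -/
theorem sum_orb_sub {H E K F : Type} [Group H] [MulAction H E] (hE : FO H E) [Group K]
    [MulAction K F] (hF : FO K F) (π : F → E) (κ : E → ℝ) (hκ : ∀ (h : H) x, κ (h • x) = κ x)
    (h1 : ∀ (k : K) x, ∃ h : H, π (k • x) = h • π x)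
    (h2 : ∀ x y, ∀ h : H, π y = h • π x → ∃ k : K, y = k • x)
    (h3 : ∀ x : E, κ x ≠ 0 → ∃ y : F, ∃ h : H, x = h • π y) :
    ∑ᶠ o : Orb H E, κ o.out = ∑ᶠ o : Orb K F, κ (π o.out) := by
  classical
  have hfE : Finite (Orb H E) := hE.cofin
  have hfF : Finite (Orb K F) := hF.cofin
  let G : Orb K F → Orb H E := fun o => Quotient.mk (MulAction.orbitRel H E) (π o.out)
  have hinj : Function.Injective G := by
    intro o o' h
    have h4 : (MulAction.orbitRel H E) (π o'.out) (π o.out) := Quotient.exact h.symm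
    obtain ⟨g, hg⟩ := MulAction.orbitRel_apply.mp h4
    have hg' : g • π o.out = π o'.out := hg
    obtain ⟨k, hk⟩ := h2 o.out o'.out g hg'.symm
    have e1 : Quotient.mk (MulAction.orbitRel K F) o.out = o := Quotient.out_eq o
    have e2 : Quotient.mk (MulAction.orbitRel K F) o'.out = o' := Quotient.out_eq o'
    rw [← e1, ← e2]
    refine Quotient.sound (MulAction.orbitRel_apply.mpr ⟨k⁻¹, ?_⟩)
    show k⁻¹ • o'.out = o.out
    rw [hk, inv_smul_smul]
  have hout : ∀ o, κ (G o).out = κ (π o.out) := by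
    intro o
    have h4 : (MulAction.orbitRel H E) (G o).out (π o.out) :=
      Quotient.mk_out (s := MulAction.orbitRel H E) (π o.out)
    obtain ⟨g, hg⟩ := MulAction.orbitRel_apply.mp h4
    have hg' : g • π o.out = (G o).out := hg
    rw [← hg', hκ]
  have hran : ∀ q : Orb H E, κ q.out ≠ 0 → ∃ o, G o = q := by
    intro q h0
    obtain ⟨y, g, hg⟩ := h3 q.out h0
    let o : Orb K F := Quotient.mk (MulAction.orbitRel K F) y
    have h4 : (MulAction.orbitRel K F) o.out y :=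
      Quotient.mk_out (s := MulAction.orbitRel K F) y
    obtain ⟨k, hk⟩ := MulAction.orbitRel_apply.mp h4
    have hk' : k • y = o.out := hk
    obtain ⟨g', hg'⟩ := h1 k y
    refine ⟨o, ?_⟩
    have e1 : Quotient.mk (MulAction.orbitRel H E) q.out = q := Quotient.out_eq q
    rw [← e1]
    refine Quotient.sound (MulAction.orbitRel_apply.mpr ⟨g' * g⁻¹, ?_⟩)
    show (g' * g⁻¹) • q.out = π o.out
    rw [hg, mul_smul, inv_smul_smul, ← hg', hk']
  have f2 : Fintype (Orb H E) := Fintype.ofFinite _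
  have f3 : Fintype (Orb K F) := Fintype.ofFinite _
  rw [finsum_eq_sum_of_fintype, finsum_eq_sum_of_fintype]
  have e1 : ∑ o : Orb K F, κ (π o.out) = ∑ q ∈ (Finset.univ : Finset (Orb K F)).image G, κ q.out := by
    rw [Finset.sum_image fun o _ o' _ h => hinj h]
    exact Finset.sum_congr rfl fun o _ => (hout o).symm
  rw [e1]
  symm
  refine Finset.sum_subset (Finset.subset_univ _) fun q _ hq => ?_
  by_contra h0
  obtain ⟨o, ho⟩ := hran q h0
  exact hq (Finset.mem_image.2 ⟨o, Finset.mem_univ o, ho⟩)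

private theorem WOrb_tr {K E : Type} [Group K] [MulAction K E] {M M' : Submodule ℝ (L2 E)}
    [M.HasOrthogonalProjection] [M'.HasOrthogonalProjection] (h : M = M') :
    tr K M.starProjection = tr K M'.starProjection := by
  subst h
  rfl

variable {Γ P : Type} [Group Γ] [DecidableEq P] [MulAction Γ P] {p : Pce Γ P}
  {f : Set (Finset P)}

private theorem WOrb_sum (hp : p.Ok) (hc : Corner p.A p.F) (hf : f ∈ p.F)
    (M : Submodule ℝ (L2 p.Fl)) [M.HasOrthogonalProjection] (hM : Inv p.H M)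
    (hv : ∀ z ∈ M, ∀ x : p.Fl, ¬ p.InW f x.c → z x = 0)
    (hrs : ∀ z ∈ M, ∀ x, rs ((p.RW f (hp.fsub f hf)).rg x) z ∈ M) :
    tr p.H M.starProjection =
      tr (p.wall f).H ((p.RW f (hp.fsub f hf)).Cp M).starProjection := by
  rw [tr_eq_kap, tr_eq_kap, sum_orb_sub hp.fo (hp.wall_ok hc hf).fo (p.RW f (hp.fsub f hf)).π
    (kap M) (kap_smul hM)]
  · exact finsum_congr fun o => ((hp.regW hc hf).coef_Cp hrs o.out).symm
  · intro k x
    obtain ⟨h, hh⟩ := (hp.regW hc hf).π_smul k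
    exact ⟨h, hh x⟩
  · intro x y h hyx
    have h1 : y.c = h.1.right • x.c := congrArg Pce.Fl.c hyx
    have hxf : x.c ∈ f := x.mem
    have hyf : y.c ∈ f := y.mem
    have hst : h.1.right • f = f := by
      rcases hc.orb h.1.right h.2 f hf with h2 | h2
      · exact h2
      · refine absurd ⟨y.c, ?_, hyf⟩ h2
        rw [h1]
        exact Set.smul_mem_smul_set hxf
    refine ⟨⟨⟨y.w * (wact h.1.right x.w)⁻¹, h.1.right⟩, ⟨h.2, hst⟩⟩, ?_⟩
    refine Pce.Fl.ext ?_ ?_
    · show y.w = (y.w * (wact h.1.right x.w)⁻¹) * wact h.1.right x.w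
      rw [inv_mul_cancel_right]
    · exact h1
  · intro x hx
    have hW : p.InW f x.c := by
      by_contra hn
      apply hx
      unfold kap
      rw [real_inner_comm, delta_inner]
      exact hv _ (M.starProjection_apply_mem _) x hn
    obtain ⟨v, ⟨a, ha, rfl⟩, hxv⟩ := hW
    have h4 : a⁻¹ • x.c ∈ f := by
      rw [← Set.mem_smul_set_iff_inv_smul_mem]
      exact hxv
    refine ⟨⟨1, a⁻¹ • x.c, h4⟩, ⟨⟨x.w, a⟩, ha⟩, ?_⟩
    refine Pce.Fl.ext ?_ ?_
    · show x.w = x.w * wact a (thv (p.rest f) f 1)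
      rw [map_one, map_one, mul_one]
    · show x.c = a • a⁻¹ • x.c
      rw [smul_inv_smul]

theorem Pce.Ok.tr_FS (hp : p.Ok) (hc : Corner p.A p.F) (hf : f ∈ p.F) (m : ℕ) :
    tr p.H (p.FS f m).starProjection = (p.wall f).N m := by
  rw [WOrb_sum hp hc hf (p.FS f m) (hp.FS_inv f m) (fun z hz x hx => (Pce.mem_FS.mp hz).2 x hx)
    (fun z hz x => hp.FS_rs hc hf hz x)]
  exact WOrb_tr (hp.Cp_FS hc hf m)

theorem Pce.Ok.tr_FZ (hp : p.Ok) (hc : Corner p.A p.F) (hf : f ∈ p.F) (m : ℕ) :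
    tr p.H (p.FZ f m).starProjection = (p.wall f).T m := by
  rw [WOrb_sum hp hc hf (p.FZ f m) (hp.FZ_inv f m)
    (fun z hz x hx => (Pce.mem_FS.mp (Pce.mem_FZ.mp hz).1).2 x hx)
    (fun z hz x => hp.FZ_rs hc hf hz x)]
  exact WOrb_tr (hp.Cp_FZ hc hf m)

end SingerHK
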