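import Mathlib
import Pool.Agent.Lib_MP_394d50_hr.WJ

/-!
# Piece HR-5: the first two relations

`p.F` is the union of `p.rest f` and the orbit of `f`. `mem_Chs_iff`: the matching along `v` in the orbit of `f` with `x.c ∈ v`: `v = p.fw f x.c` (`hc.fw_eq`), so it is `z (p.jw f x) = z x`, that is `(Psi z) x = 0` (`Pce.Psi_apply`); if `x.c` is in no such
`v` then `p.jw f x = x`.
`mem_Zs_iff`: `Pce.mem_Zs`, `Pce.mem_ZsE`.
`Psi_DS`: `z - z ∘ J` is in `ChE (rest f)` (`Jop_ChE`), antisymmetric (`Pce.jw_jw`). `Psi_DZ`: `⟨y, Psi z⟩ = ⟨y, z⟩ - ⟨y, Jop z⟩ = 0 - ⟨y', z⟩ = 0` (`Jop_co`, `hp.exists_co` gives `y'`).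
`peel_N`: `SingerLG.tr_rank` with `K = ChE (rest f) m`, `K₀ = Chs m`, `M = DS f m`, `Ψ = Psi f`; `h3`: for `g ∈ DS f m`: `Psi g = 2 g`, so `⟨g, Psi g⟩ = 0` gives `g = 0`.
`peel_T3`: `SingerLG.tr_rank_le` with `K = ZsE (rest f) m`, `K₀ = Zs m`, `M = DZ f m`.
-/

namespace SingerHK

open SingerRA SingerVS SingerCub
open scoped Pointwise

variable {Γ P : Type} [Group Γ] [DecidableEq P] [MulAction Γ P] {p : Pce Γ P}
  {f : Set (Finset P)}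

theorem Pce.Ok.mem_Chs_iff (hp : p.Ok) (hc : Corner p.A p.F) (hf : f ∈ p.F) {m : ℕ}
    {z : L2 p.Fl} : z ∈ p.Chs m ↔ z ∈ p.ChE (p.rest f) m ∧ p.Psi f z = 0 := by
  rw [Pce.mem_Chs, Pce.mem_ChE]
  constructor
  · rintro ⟨h1, h2⟩
    refine ⟨⟨h1, fun x g hg hx => h2 x g hg.1 hx⟩, ?_⟩
    apply l2_ext
    intro x
    have h0 : (p.Psi f z) x = 0 := by
      rw [Pce.Psi_apply]
      by_cases h : p.InW f x.c
      · rw [Pce.jw_pos h]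
        obtain ⟨h3, h4⟩ := Pce.fw_mem h
        rw [h2 x _ (hp.orbF_sub hf h3) h4, sub_self]
      · rw [Pce.jw_neg h, sub_self]
    rw [h0]
    rfl
  · rintro ⟨⟨h1, h2⟩, h3⟩
    refine ⟨h1, fun x g hg hx => ?_⟩
    by_cases h : g ∈ orbF p.A f
    · have h4 : p.InW f x.c := ⟨g, h, hx⟩
      have h5 := Pce.Psi_apply f z x
      rw [h3, Pce.jw_pos h4, hc.fw_eq hf h hx] at h5
      have h6 : (0 : ℝ) = z x - z (p.rf g x) := h5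
      linarith
    · exact h2 x g ⟨hg, h⟩ hx

theorem Pce.Ok.mem_Zs_iff (hp : p.Ok) (hc : Corner p.A p.F) (hf : f ∈ p.F) {m : ℕ}
    {z : L2 p.Fl} : z ∈ p.Zs m ↔ z ∈ p.ZsE (p.rest f) m ∧ p.Psi f z = 0 := by
  rw [Pce.mem_Zs, Pce.mem_ZsE, hp.mem_Chs_iff hc hf]
  constructor
  · rintro ⟨⟨h1, h2⟩, h3⟩
    exact ⟨⟨h1, h3⟩, h2⟩
  · rintro ⟨⟨h1, h3⟩, h2⟩
    exact ⟨⟨h1, h2⟩, h3⟩

theorem Pce.Ok.Psi_DS (hp : p.Ok) (hc : Corner p.A p.F) (hf : f ∈ p.F) {m : ℕ}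
    {z : L2 p.Fl} (hz : z ∈ p.ChE (p.rest f) m) : p.Psi f z ∈ p.DS f m := by
  rw [Pce.mem_DS]
  constructor
  · exact Submodule.sub_mem _ hz (hc.Jop_ChE hf hz)
  · intro x
    rw [Pce.Psi_apply, Pce.Psi_apply, Pce.jw_jw]
    ring

theorem Pce.Ok.Psi_DZ (hp : p.Ok) (hc : Corner p.A p.F) (hf : f ∈ p.F) {m : ℕ}
    {z : L2 p.Fl} (hz : z ∈ p.ZsE (p.rest f) m) : p.Psi f z ∈ p.DZ f m := by
  rw [Pce.mem_DZ]
  rw [Pce.mem_ZsE] at hz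
  refine ⟨hp.Psi_DS hc hf hz.1, fun w d hd hW y hy => ?_⟩
  obtain ⟨y', hy'⟩ := hp.exists_co (w * gn (p.fw f d)) hd
  have h1 : p.Psi f z = z - p.Jop f z := rfl
  rw [h1, inner_sub_right, hp.Jop_co hc hf hd hW hy hy' z, hz.2 w d hd y hy, hz.2 _ d hd y' hy', sub_zero]

theorem Pce.Ok.peel_N (hp : p.Ok) (hc : Corner p.A p.F) (hf : f ∈ p.F) (m : ℕ) :
    p.N m = tr p.H (p.ChE (p.rest f) m).starProjection - tr p.H (p.DS f m).starProjection := by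
  refine SingerLG.tr_rank hp.fo (hp.ChE_inv (hp.rest_inv f) m) (hp.Chs_inv m) (hp.DS_inv hc hf m)
    (hc.Psi_eqv hf) (fun x => hp.mem_Chs_iff hc hf) (fun x hx => hp.Psi_DS hc hf hx) ?_
  intro g hg h
  rw [Pce.mem_DS] at hg
  have h1 := h g hg.1
  have h2 : p.Psi f g = (2 : ℝ) • g := by
    apply l2_ext
    intro x
    have h3 : ((2 : ℝ) • g : L2 p.Fl) x = 2 * g x := rfl
    rw [Pce.Psi_apply, hg.2 x, h3]
    ring
  rw [h2, inner_smul_right, real_inner_self_eq_norm_sq] at h1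
  have h4 : ‖g‖ = 0 := by
    have h5 : ‖g‖ ^ 2 = 0 := by linarith
    exact pow_eq_zero_iff (two_ne_zero) |>.1 h5
  exact norm_eq_zero.1 h4

theorem Pce.Ok.peel_T3 (hp : p.Ok) (hc : Corner p.A p.F) (hf : f ∈ p.F) (m : ℕ) :
    tr p.H (p.ZsE (p.rest f) m).starProjection - tr p.H (p.DZ f m).starProjection ≤ p.T m := by
  refine SingerLG.tr_rank_le hp.fo (hp.ZsE_inv (hp.rest_inv f) m) (hp.DZ_inv hc hf m)
    (hc.Psi_eqv hf) (fun x hx h => (hp.mem_Zs_iff hc hf).2 ⟨hx, h⟩) (fun x hx => hp.Psi_DZ hc hf hx)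

end SingerHK
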