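import Mathlib
import Pool.Agent.Lib_MP_394d50_hr.WRkA

/-!
# Piece HR-6: the third relation

`δ` from `hp.exists_cob`, `M = (Psi (ZsE (rest f) (m + 1)))ᗮᗮ`. `SingerLG.tr_rank` with `K = ZsE (rest f) (m + 1)`, `K₀ = Zs (m + 1)`, `Ψ = Psi` (`mem_Zs_iff`): `T (m + 1) = tr ZsE - tr M`. `SingerLG.tr_rank_le` with `K = DS f m`,
`K₀ = DZ f m`, `M`, `Ψ = Psi ∘ δ`: `tr DS - tr M ≤ tr DZ`. Here `Psi (δ y) = 0` implies `y ∈ DZ f m` for `y ∈ DS f m`: at the wall flag `x = (w, d)`, `(δ y) x = ⟨u, y⟩`, `u` the condition at `(w, d)`, and `(δ y) (J x) = ⟨u, Jop y⟩ = - ⟨u, y⟩` (`hp.Jop_co`).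
-/

namespace SingerHK

open SingerRA SingerVS SingerCub SingerLG
open scoped Pointwise

variable {Γ P : Type} [Group Γ] [DecidableEq P] [MulAction Γ P] {p : Pce Γ P}
  {f : Set (Finset P)}

private theorem WRkB_inner {H C : Type} [Group H] [MulAction H C] (h : H) (y z : L2 C) :
    inner ℝ (shift h y) z = inner ℝ y (shift h⁻¹ z) := by
  have h1 : shift h (shift h⁻¹ z) = z := by
    apply l2_ext
    intro c
    rw [shift_apply, shift_apply, inv_inv, smul_inv_smul]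
  conv_lhs => rw [← h1]
  exact (shift h).inner_map_map y (shift h⁻¹ z)

private theorem WRkB_orth_inv {H C : Type} [Group H] [MulAction H C] {K : Submodule ℝ (L2 C)}
    (hK : Inv H K) : Inv H Kᗮ := by
  intro h z hz
  rw [Submodule.mem_orthogonal'] at hz ⊢
  intro u hu
  rw [WRkB_inner]
  exact hz _ (hK h⁻¹ u hu)

/-- An antisymmetric function is a cocycle inside the walls if `Psi` of its coboundary is zero. -/
private theorem WRkB_DZ (hp : p.Ok) (hc : Corner p.A p.F) (hf : f ∈ p.F) {m : ℕ}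
    {δ : L2 p.Fl →L[ℝ] L2 p.Fl} (hδ : p.Cob δ) {z : L2 p.Fl} (hz : z ∈ p.DS f m)
    (h0 : p.Psi f (δ z) = 0) : z ∈ p.DZ f m := by
  rw [Pce.mem_DZ]
  refine ⟨hz, fun w d hd hW y hy => ?_⟩
  obtain ⟨y', hy'⟩ := hp.exists_co (w * gn (p.fw f d)) hd
  have hJ : p.Jop f z = -z := by
    apply l2_ext
    intro x
    rw [Pce.Jop_apply, (Pce.mem_DS.mp hz).2 x]
    rfl
  have h1 := hp.Jop_co hc hf hd hW hy hy' z
  rw [hJ, inner_neg_right] at h1
  have h2 : (p.Psi f (δ z)) ⟨w, d, hd⟩ = 0 := by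
    rw [h0]
    rfl
  rw [Pce.Psi_apply, Pce.jw_pos (x := ⟨w, d, hd⟩) hW, hδ ⟨w, d, hd⟩ y hy] at h2
  have h3 : (δ z) (p.rf (p.fw f d) ⟨w, d, hd⟩) = inner ℝ y' z := hδ _ y' hy' z
  rw [h3] at h2
  linarith

theorem Pce.Ok.peel_T2 (hp : p.Ok) (hc : Corner p.A p.F) (hf : f ∈ p.F) (m : ℕ) :
    p.T (m + 1) ≤ tr p.H (p.ZsE (p.rest f) (m + 1)).starProjection -
      (tr p.H (p.DS f m).starProjection - tr p.H (p.DZ f m).starProjection) := by
  obtain ⟨δ, hδ⟩ := hp.exists_cob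
  have hrest : p.rest f ⊆ p.F := Set.sdiff_subset
  have hPe := hc.Psi_eqv hf
  have hKi := hp.ZsE_inv (hp.rest_inv f) (m + 1)
  obtain ⟨E, hE0⟩ : ∃ E : Submodule ℝ (L2 p.Fl), E = (p.ZsE (p.rest f) (m + 1)).map (p.Psi f).toLinearMap :=
    ⟨_, rfl⟩
  have hE1 : ∀ z ∈ p.ZsE (p.rest f) (m + 1), p.Psi f z ∈ E := fun z hz => hE0 ▸ ⟨z, hz, rfl⟩
  have hE2 : ∀ u ∈ E, ∃ z ∈ p.ZsE (p.rest f) (m + 1), u = p.Psi f z := by
    intro u hu
    rw [hE0] at hu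
    obtain ⟨z, hz, rfl⟩ := hu
    exact ⟨z, hz, rfl⟩
  obtain ⟨M, hM0⟩ : ∃ M : Submodule ℝ (L2 p.Fl), M = Eᗮᗮ := ⟨_, rfl⟩
  have hMP : M.HasOrthogonalProjection := by
    rw [hM0]
    infer_instance
  have hEM : E ≤ M := hM0 ▸ Submodule.le_orthogonal_orthogonal E
  have hEi : Inv p.H E := by
    intro g u hu
    obtain ⟨z, hz, rfl⟩ := hE2 u hu
    rw [← hPe g z]
    exact hE1 _ (hKi g z hz)
  have hMi : Inv p.H M := hM0 ▸ WRkB_orth_inv (WRkB_orth_inv hEi)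
  have h1 := SingerLG.tr_rank hp.fo hKi (hp.Zs_inv (m + 1)) hMi hPe
    (fun x => hp.mem_Zs_iff hc hf) (fun x hx => hEM (hE1 x hx)) (by
      intro g hg hg2
      rw [hM0] at hg
      refine inner_self_eq_zero.mp ((Submodule.mem_orthogonal' _ g).mp hg g ?_)
      rw [Submodule.mem_orthogonal']
      intro u hu
      obtain ⟨z, hz, rfl⟩ := hE2 u hu
      exact hg2 z hz)
  have h2 := SingerLG.tr_rank_le hp.fo (K₀ := p.DZ f m) (hp.DS_inv hc hf m) hMi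
    (hPe.comp (hp.cob_eqv hδ)) (fun x hx h0 => WRkB_DZ hp hc hf hδ hx h0)
    (fun x hx => hEM (hE1 _ (hp.cobE hrest hδ (Pce.mem_DS.mp hx).1)))
  have h3 : p.T (m + 1) = tr p.H (p.ZsE (p.rest f) (m + 1)).starProjection - tr p.H M.starProjection := h1
  linarith

end SingerHK
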