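import Mathlib
import Pool.Agent.Lib_MP_394d50_hr.WOk
import Pool.Agent.Lib_MP_394d50_hk.TIso
import Pool.Agent.Lib_MP_394d50_hk.TFib

/-!
# Piece HR-2: the numbers of the piece with fewer faces, on the flags of `p`

`e : (p.sub E).Fl ≃ p.Fl`, `x ↦ ⟨x.w, x.c, x.mem⟩`; `(p.sub E).H` is `p.H` by definition. Use `tr_iso` (`Lib_MP_394d50_hk/TIso.lean`; see `Cut.T_eq` in `Lib_MP_394d50_hk/CIso.lean`) or the trace over the orbits directly:
`tr p.H M.starProjection` is the sum over the orbits of the diagonal coefficients, and the isometry `L2 (p.sub E).Fl ≃ₗᵢ L2 p.Fl` given by `e` (`twE` is for one type only) maps `(p.sub E).Zs m` to `p.ZsE E m`. With `tr_iso`: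
`Φ` from `exists_pull e⁻¹ 1` (`TFib.lean`), injective, `Φ z ∈ p.ZsE E m` (`mem_ZsE`, `mem_ChE`, `Pce.mem_Zs`, `Pce.mem_Chs`; `IsCo` corresponds: for `y` with `p.IsCo w d y` the function `y ∘ e` has `(p.sub E).IsCo w d`, and
`⟨y, Φ z⟩ = ⟨y ∘ e, z⟩`: `lp.inner_eq_tsum`, `Equiv.tsum_eq`), dense since surjective. The invariance of `p.ZsE E m`, `p.ChE E m` is `WCob.lean` (`Pce.Ok.ZsE_inv`).
-/

namespace SingerHK

open SingerRA SingerVS SingerCub
open scoped Pointwise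

variable {Γ P : Type} [Group Γ] [DecidableEq P] [MulAction Γ P] {p : Pce Γ P}

private def WTr_e (p : Pce Γ P) (E : Set (Set (Finset P))) : (p.sub E).Fl ≃ p.Fl where
  toFun x := ⟨x.w, x.c, x.mem⟩
  invFun x := ⟨x.w, x.c, x.mem⟩
  left_inv _ := rfl
  right_inv _ := rfl

private theorem WTr_card {C D : Type} (e : C ≃ D) (d : D) (s : Finset C)
    (hs : ∀ x ∈ s, e x = d) : s.card ≤ 1 := by
  rw [Finset.card_le_one]
  intro a ha b hb
  exact e.injective ((hs a ha).trans (hs b hb).symm)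

private theorem WTr_inner {C D : Type} (e : C ≃ D) (y : L2 C) (z : L2 D) (y' : L2 D) (z' : L2 C)
    (hy : ∀ x, y' x = y (e.symm x)) (hz : ∀ x, z' x = z (e x)) :
    inner ℝ y' z = inner ℝ y z' := by
  rw [lp.inner_eq_tsum, lp.inner_eq_tsum, ← e.tsum_eq]
  refine tsum_congr fun x => ?_
  rw [hy, hz, e.symm_apply_apply]

private theorem WTr_gen (hp : p.Ok) {E : Set (Set (Finset P))} (hE : E ⊆ p.F)
    (hinv : ∀ a ∈ p.A, ∀ g ∈ E, a • g ∈ E) {M₁ : Submodule ℝ (L2 (p.sub E).Fl)}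
    {M₂ : Submodule ℝ (L2 p.Fl)} [M₁.HasOrthogonalProjection] [M₂.HasOrthogonalProjection]
    (h1 : Inv (p.sub E).H M₁) (h2 : Inv p.H M₂)
    (h : ∀ (z : L2 p.Fl) (z' : L2 (p.sub E).Fl), (∀ x, z' x = z (WTr_e p E x)) →
      (z ∈ M₂ ↔ z' ∈ M₁)) :
    tr (p.sub E).H M₁.starProjection = tr p.H M₂.starProjection := by
  obtain ⟨Φ, hΦ⟩ := exists_pull (WTr_e p E).symm 1 (WTr_card _)
  obtain ⟨Ψ, hΨ⟩ := exists_pull (WTr_e p E) 1 (WTr_card _)
  refine @tr_iso p.H (p.sub E).Fl p.Fl _ (Pce.instAct (p.sub E)) (Pce.instAct p)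
    (hp.sub_ok hE hinv).fo hp.fo M₁ M₂ _ _ h1 h2 Φ ?_ ?_ ?_ ?_
  · intro g z
    apply l2_ext
    intro x
    rw [hΦ]
    have e1 := @shift_apply (p.sub E).Fl p.H _ (Pce.instAct (p.sub E)) g z ((WTr_e p E).symm x)
    have e2 := @shift_apply p.Fl p.H _ (Pce.instAct p) g (Φ z) x
    rw [e2, hΦ]
    exact e1
  · intro z _ hz
    apply l2_ext
    intro x
    have h3 := hΦ z (WTr_e p E x)
    rw [Equiv.symm_apply_apply] at h3
    rw [← h3, hz]
    rfl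
  · intro z hz
    exact (h (Φ z) z fun x => by rw [hΦ, Equiv.symm_apply_apply]).2 hz
  · intro y hy hh
    have h3 : Ψ y ∈ M₁ := (h y (Ψ y) fun x => hΨ y x).1 hy
    have h4 : Φ (Ψ y) = y := by
      apply l2_ext
      intro x
      rw [hΦ, hΨ, Equiv.apply_symm_apply]
    have h5 := hh (Ψ y) h3
    rw [h4] at h5
    exact inner_self_eq_zero.1 h5

private theorem WTr_Ch {E : Set (Set (Finset P))} {m : ℕ} (z : L2 p.Fl) (z' : L2 (p.sub E).Fl)
    (hz : ∀ x, z' x = z (WTr_e p E x)) : z ∈ p.ChE E m ↔ z' ∈ (p.sub E).Chs m := by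
  rw [Pce.mem_ChE, Pce.mem_Chs]
  constructor
  · rintro ⟨h1, h2⟩
    refine ⟨fun x hx => ?_, fun x g hg hx => ?_⟩
    · rw [hz]
      exact h1 _ hx
    · rw [hz, hz]
      exact h2 (WTr_e p E x) g hg hx
  · rintro ⟨h1, h2⟩
    refine ⟨fun x hx => ?_, fun x g hg hx => ?_⟩
    · have h3 := h1 ((WTr_e p E).symm x) hx
      rwa [hz, Equiv.apply_symm_apply] at h3
    · have h3 := h2 ((WTr_e p E).symm x) g hg hx
      rw [hz, hz] at h3
      exact h3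

private theorem WTr_Z {E : Set (Set (Finset P))} {m : ℕ} (z : L2 p.Fl) (z' : L2 (p.sub E).Fl)
    (hz : ∀ x, z' x = z (WTr_e p E x)) : z ∈ p.ZsE E m ↔ z' ∈ (p.sub E).Zs m := by
  obtain ⟨Φ, hΦ⟩ := exists_pull (WTr_e p E).symm 1 (WTr_card _)
  obtain ⟨Ψ, hΨ⟩ := exists_pull (WTr_e p E) 1 (WTr_card _)
  rw [Pce.mem_ZsE, Pce.mem_Zs, WTr_Ch z z' hz]
  refine and_congr_right fun _ => ?_
  constructor
  · intro h w d hd y hy
    have h1 : p.IsCo w d (Φ y) := by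
      intro x
      rw [hΦ, hy]
      rfl
    rw [← WTr_inner (WTr_e p E) y z (Φ y) z' (hΦ y) hz]
    exact h w d hd _ h1
  · intro h w d hd y hy
    have h1 : (p.sub E).IsCo w d (Ψ y) := by
      intro x
      rw [hΨ, hy]
      rfl
    rw [WTr_inner (WTr_e p E) (Ψ y) z y z' (fun x => by rw [hΨ, Equiv.apply_symm_apply]) hz]
    exact h w d hd _ h1

theorem Pce.Ok.sub_T (hp : p.Ok) {E : Set (Set (Finset P))} (hE : E ⊆ p.F)
    (hinv : ∀ a ∈ p.A, ∀ g ∈ E, a • g ∈ E) (hZ : ∀ m, Inv p.H (p.ZsE E m)) (m : ℕ) :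
    (p.sub E).T m = tr p.H (p.ZsE E m).starProjection :=
  WTr_gen hp hE hinv ((hp.sub_ok hE hinv).Zs_inv m) (hZ m) WTr_Z

theorem Pce.Ok.sub_N (hp : p.Ok) {E : Set (Set (Finset P))} (hE : E ⊆ p.F)
    (hinv : ∀ a ∈ p.A, ∀ g ∈ E, a • g ∈ E) (hC : ∀ m, Inv p.H (p.ChE E m)) (m : ℕ) :
    (p.sub E).N m = tr p.H (p.ChE E m).starProjection :=
  WTr_gen hp hE hinv ((hp.sub_ok hE hinv).Chs_inv m) (hC m) WTr_Ch

end SingerHK
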