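import Mathlib
import Pool.Agent.Lib_MP_394d50_hr.WTr
import Pool.Agent.Lib_MP_394d50_hr.WRkB
import Pool.Agent.Lib_MP_394d50_hr.WOrb

/-!
# MP_394d50_gt, hierarchies with arbitrary end pieces: removing an orbit of faces

The three relations between the numbers of a piece, of the piece without the orbit of the face `f`, and of the face `f`.
-/

namespace SingerHK

open SingerRA SingerVS SingerCub
open scoped Pointwise

variable {Γ P : Type} [Group Γ] [DecidableEq P] [MulAction Γ P] {p : Pce Γ P}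
  {f : Set (Finset P)}

/-- The bound in degree `k`: the number `T (k + 1) + T k - N k` (an `ℓ²`-Betti number) is not positive. -/
def Pce.Bd (p : Pce Γ P) (k : ℕ) : Prop := p.T (k + 1) + p.T k ≤ p.N k

theorem Pce.rest_sub (p : Pce Γ P) (f : Set (Finset P)) : p.rest f ⊆ p.F := fun _ h => h.1

theorem Pce.Ok.peel (hp : p.Ok) (hc : Corner p.A p.F) (hf : f ∈ p.F) (m : ℕ) :
    p.N m = (p.sub (p.rest f)).N m - 1 / 2 * (p.wall f).N m ∧
      p.T (m + 1) ≤ (p.sub (p.rest f)).T (m + 1) - 1 / 2 * ((p.wall f).N m - (p.wall f).T m) ∧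
      (p.sub (p.rest f)).T m ≤ p.T m + 1 / 2 * (p.wall f).T m := by
  have hE := p.rest_sub f
  have hinv := hp.rest_inv f
  have e1 := hp.peel_N hc hf m
  have e2 := hp.peel_T2 hc hf m
  have e3 := hp.peel_T3 hc hf m
  rw [hp.tr_DS hc hf, hp.tr_FS hc hf, ← hp.sub_N hE hinv (hp.ChE_inv hinv)] at e1
  rw [hp.tr_DS hc hf, hp.tr_FS hc hf, hp.tr_DZ hc hf, hp.tr_FZ hc hf,
    ← hp.sub_T hE hinv (hp.ZsE_inv hinv)] at e2
  rw [hp.tr_DZ hc hf, hp.tr_FZ hc hf, ← hp.sub_T hE hinv (hp.ZsE_inv hinv)] at e3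
  refine ⟨e1, ?_, ?_⟩
  · linarith
  · linarith

/-- Adding an orbit of faces. -/
theorem Pce.Ok.add_orb (hp : p.Ok) (hc : Corner p.A p.F) (hf : f ∈ p.F) (k : ℕ)
    (h1 : (p.sub (p.rest f)).Bd (k + 1)) (h2 : (p.wall f).Bd k) : p.Bd (k + 1) := by
  obtain ⟨a1, a2, a3⟩ := hp.peel hc hf (k + 1)
  obtain ⟨b1, b2, b3⟩ := hp.peel hc hf k
  unfold Pce.Bd at *
  linarith

/-- Removing an orbit of faces. -/
theorem Pce.Ok.del_orb (hp : p.Ok) (hc : Corner p.A p.F) (hf : f ∈ p.F) (k : ℕ)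
    (h1 : p.Bd k) (h2 : (p.wall f).Bd k) : (p.sub (p.rest f)).Bd k := by
  obtain ⟨a1, a2, a3⟩ := hp.peel hc hf (k + 1)
  obtain ⟨b1, b2, b3⟩ := hp.peel hc hf k
  unfold Pce.Bd at *
  linarith

end SingerHK
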