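import Mathlib
import Pool.Agent.Lib_MP_394d50_hr.WPeel
import Pool.Agent.Lib_MP_394d50_hr.WFin

/-!
# MP_394d50_gt, hierarchies with arbitrary end pieces: removing and adding faces

The induction over the orbits of faces.
-/

namespace SingerHK

open SingerRA SingerVS SingerCub
open scoped Pointwise

variable {Γ P : Type} [Group Γ] [DecidableEq P] [MulAction Γ P]

/-- The orbits of the faces in `s`. -/
def orbS (A : Subgroup Γ) (s : Finset (Set (Finset P))) : Set (Set (Finset P)) :=
  {g | ∃ f ∈ s, g ∈ orbF A f}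

theorem orbS_inv (A : Subgroup Γ) (s : Finset (Set (Finset P))) :
    ∀ a ∈ A, ∀ g ∈ orbS A s, a • g ∈ orbS A s := by
  rintro a ha g ⟨f, hf, hg⟩
  exact ⟨f, hf, smul_mem_orbF ha hg⟩

open scoped Classical in
theorem orbS_insert (A : Subgroup Γ) (f : Set (Finset P)) (s : Finset (Set (Finset P))) :
    orbS A (insert f s) = orbF A f ∪ orbS A s := by
  ext g
  constructor
  · rintro ⟨h, hh, hg⟩
    rcases Finset.mem_insert.mp hh with rfl | hh
    · exact Or.inl hg
    · exact Or.inr ⟨h, hh, hg⟩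
  · rintro (hg | ⟨h, hh, hg⟩)
    · exact ⟨f, Finset.mem_insert_self f s, hg⟩
    · exact ⟨h, Finset.mem_insert_of_mem hh, hg⟩

theorem orbF_sub_of_inv {A : Subgroup Γ} {E : Set (Set (Finset P))}
    (hE : ∀ a ∈ A, ∀ g ∈ E, a • g ∈ E) {f : Set (Finset P)} (hf : f ∈ E) : orbF A f ⊆ E := by
  rintro _ ⟨a, ha, rfl⟩
  exact hE a ha f hf

theorem mem_of_orbF {A : Subgroup Γ} {E : Set (Set (Finset P))}
    (hE : ∀ a ∈ A, ∀ g ∈ E, a • g ∈ E) {f g : Set (Finset P)} (hg : g ∈ E) (h : g ∈ orbF A f) :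
    f ∈ E := by
  obtain ⟨a, ha, rfl⟩ := h
  have h1 := hE _ (A.inv_mem ha) _ hg
  rwa [inv_smul_smul] at h1

variable {p : Pce Γ P}

/-- The faces of the face `f` in a smaller set of faces. -/
theorem facesIn_mono {F E : Set (Set (Finset P))} (h : E ⊆ F) (f : Set (Finset P)) :
    facesIn E f ⊆ facesIn F f := by
  rintro x ⟨g, hg, h1, h2, h3⟩
  exact ⟨g, h hg, h1, h2, h3⟩

theorem facesIn_inv {A : Subgroup Γ} {E : Set (Set (Finset P))}
    (hE : ∀ a ∈ A, ∀ g ∈ E, a • g ∈ E) (f : Set (Finset P)) :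
    ∀ a ∈ A ⊓ MulAction.stabilizer Γ f, ∀ x ∈ facesIn E f, a • x ∈ facesIn E f := by
  rintro a ⟨ha, haf⟩ x ⟨g, hg, h1, h2, rfl⟩
  have haf' : a • f = f := haf
  refine ⟨a • g, hE a ha g hg, fun e => h1 ?_, ?_, ?_⟩
  · exact smul_left_cancel a (e.trans haf'.symm)
  · have h3 : (a • (g ∩ f)).Nonempty := h2.smul_set
    rwa [Set.smul_set_inter, haf'] at h3
  · rw [Set.smul_set_inter, haf']

/-- Lemma R. -/
theorem Pce.Ok.lemR (hp : p.Ok) (hc : Corner p.A p.F) (k : ℕ) (hB : p.Bd k)
    (hw : ∀ f ∈ p.F, ∀ E ⊆ facesIn p.F f,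
      (∀ a ∈ p.A ⊓ MulAction.stabilizer Γ f, ∀ g ∈ E, a • g ∈ E) →
      ((p.wall f).sub E).Bd k) (E : Set (Set (Finset P))) (hE : E ⊆ p.F)
    (hinv : ∀ a ∈ p.A, ∀ g ∈ E, a • g ∈ E) : (p.sub E).Bd k := by
  classical
  obtain ⟨s, hs, hs'⟩ := hp.fin_orb
  have key : ∀ t : Finset (Set (Finset P)), (∀ f ∈ t, f ∈ p.F) → ∀ E ⊆ p.F,
      (∀ a ∈ p.A, ∀ g ∈ E, a • g ∈ E) → (p.sub (E ∪ orbS p.A t)).Bd k → (p.sub E).Bd k := by
    intro t
    induction t using Finset.induction_on with
    | empty =>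
      intro _ E _ _ h
      have e : E ∪ orbS p.A (∅ : Finset (Set (Finset P))) = E := by
        ext g
        constructor
        · rintro (h1 | ⟨f, hf, _⟩)
          · exact h1
          · exact absurd hf (Finset.notMem_empty f)
        · exact Or.inl
      rwa [e] at h
    | insert f t _ ih =>
      intro ht E hE hinv h
      have hfF : f ∈ p.F := ht f (Finset.mem_insert_self f t)
      have hE' : E ∪ orbF p.A f ⊆ p.F := Set.union_subset hE (by
        rintro _ ⟨a, ha, rfl⟩
        exact hp.finv a ha f hfF)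
      have hinv' : ∀ a ∈ p.A, ∀ g ∈ E ∪ orbF p.A f, a • g ∈ E ∪ orbF p.A f := by
        rintro a ha g (hg | hg)
        · exact Or.inl (hinv a ha g hg)
        · exact Or.inr (smul_mem_orbF ha hg)
      have h1 : (p.sub (E ∪ orbF p.A f)).Bd k := by
        refine ih (fun g hg => ht g (Finset.mem_insert_of_mem hg)) _ hE' hinv' ?_
        rwa [Set.union_assoc, ← orbS_insert]
      by_cases hf : f ∈ E
      · rwa [Set.union_eq_self_of_subset_right (orbF_sub_of_inv hinv hf)] at h1
      · have hfE' : f ∈ (p.sub (E ∪ orbF p.A f)).F := Or.inr (mem_orbF_self p.A f)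
        have e : (p.sub (E ∪ orbF p.A f)).rest f = E := by
          ext g
          constructor
          · rintro ⟨h2 | h2, h3⟩
            · exact h2
            · exact absurd h2 h3
          · intro h2
            exact ⟨Or.inl h2, fun h3 => hf (mem_of_orbF hinv h2 h3)⟩
        have h2 := (hp.sub_ok hE' hinv').del_orb (hc.mono hE') hfE' k h1
          (hw f hfF _ (facesIn_mono hE' f) (facesIn_inv hinv' f))
        rw [e] at h2
        exact h2
  refine key s hs E hE hinv ?_
  have e : E ∪ orbS p.A s = p.F := by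
    ext g
    constructor
    · rintro (h | ⟨f, hf, a, ha, rfl⟩)
      · exact hE h
      · exact hp.finv a ha f (hs f hf)
    · intro h
      obtain ⟨f, hf, h1⟩ := hs' g h
      exact Or.inr ⟨f, hf, h1⟩
  rw [e]
  exact hB

/-- Lemma S. -/
theorem Pce.Ok.lemS (hp : p.Ok) (hc : Corner p.A p.F) (k : ℕ) (h0 : (p.sub ∅).Bd (k + 1))
    (hw : ∀ f ∈ p.F, ∀ E ⊆ facesIn p.F f,
      (∀ a ∈ p.A ⊓ MulAction.stabilizer Γ f, ∀ g ∈ E, a • g ∈ E) →
      ((p.wall f).sub E).Bd k) : p.Bd (k + 1) := by
  classical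
  obtain ⟨s, hs, hs'⟩ := hp.fin_orb
  have key : ∀ t : Finset (Set (Finset P)), (∀ f ∈ t, f ∈ p.F) →
      (p.sub (orbS p.A t)).Bd (k + 1) := by
    intro t
    induction t using Finset.induction_on with
    | empty =>
      intro _
      have e : orbS p.A (∅ : Finset (Set (Finset P))) = ∅ := by
        ext g
        constructor
        · rintro ⟨f, hf, _⟩
          exact absurd hf (Finset.notMem_empty f)
        · exact fun h => absurd h (Set.notMem_empty g)
      rw [e]
      exact h0
    | insert f t _ ih =>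
      intro ht
      have h1 := ih fun g hg => ht g (Finset.mem_insert_of_mem hg)
      have hfF : f ∈ p.F := ht f (Finset.mem_insert_self f t)
      have hE' : orbS p.A (insert f t) ⊆ p.F := by
        rintro _ ⟨g, hg, a, ha, rfl⟩
        exact hp.finv a ha g (ht g hg)
      have hinv' := orbS_inv p.A (insert f t)
      by_cases hf : f ∈ orbS p.A t
      · rw [orbS_insert, Set.union_eq_self_of_subset_left
          (orbF_sub_of_inv (orbS_inv p.A t) hf)]
        exact h1
      · have hfE' : f ∈ (p.sub (orbS p.A (insert f t))).F :=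
          ⟨f, Finset.mem_insert_self f t, mem_orbF_self p.A f⟩
        have e : (p.sub (orbS p.A (insert f t))).rest f = orbS p.A t := by
          show orbS p.A (insert f t) \ orbF p.A f = orbS p.A t
          rw [orbS_insert]
          ext g
          constructor
          · rintro ⟨h2 | h2, h3⟩
            · exact absurd h2 h3
            · exact h2
          · intro h2
            exact ⟨Or.inr h2, fun h3 => hf (mem_of_orbF (orbS_inv p.A t) h2 h3)⟩
        refine (hp.sub_ok hE' hinv').add_orb (hc.mono hE') hfE' k ?_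
          (hw f hfF _ (facesIn_mono hE' f) (facesIn_inv hinv' f))
        rw [e]
        exact h1
  have e : orbS p.A s = p.F := by
    ext g
    constructor
    · rintro ⟨f, hf, a, ha, rfl⟩
      exact hp.finv a ha f (hs f hf)
    · intro h
      obtain ⟨f, hf, h1⟩ := hs' g h
      exact ⟨f, hf, h1⟩
  have h2 := key s hs
  rw [e] at h2
  exact h2

end SingerHK
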