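import Mathlib
import Pool.Agent.Lib_MP_394d50_hr.KDefs
import Pool.Agent.Lib_MP_394d50_hr.WLem
import Pool.Agent.Lib_MP_394d50_hr.WBase
import Pool.Agent.Lib_MP_394d50_hr.Coll
import Pool.Agent.Lib_MP_394d50_hk.ZMain

/-!
# MP_394d50_gt, hierarchies with arbitrary end pieces: the induction
-/

namespace SingerHK

open SingerRA SingerVS SingerCub SingerRN
open scoped Pointwise

variable {Γ P : Type} [Group Γ] [LinearOrder P] [MulAction Γ P]

/-- The bound for all sets of faces which are contained in `F`, in all degrees `k` with `n ≤ 2 k`. -/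
def BdAll (n : ℕ) (A : Subgroup Γ) (Y : Set (Finset P)) (F : Set (Set (Finset P))) : Prop :=
  ∀ p : Pce Γ P, p.Ok → p.A = A → p.Y = Y → p.F = F → ∀ E ⊆ F,
    (∀ a ∈ A, ∀ g ∈ E, a • g ∈ E) → ∀ k, n ≤ 2 * k → (p.sub E).Bd k

/-- The bound for the piece without faces. -/
theorem Pce.Ok.bd_empty {p : Pce Γ P} (hp : p.Ok) {n : ℕ}
    (hb : CollTo (n / 2) p.Y ∨ ∀ k, n < 2 * k → bettiX p.A p.Y k = 0) (k : ℕ) (hk : n < 2 * k) :
    (p.sub ∅).Bd k := by
  have h0 : (p.sub ∅).Ok := hp.sub_ok (Set.empty_subset _) fun _ _ g hg =>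
    absurd hg (Set.notMem_empty g)
  rcases hb with hb | hb
  · exact CollTo.bound h0 rfl hb (m := k) (by omega)
  · exact h0.base rfl k (hb k hk)

theorem Hier.bound {n : ℕ}
    {Q : Subgroup Γ → Set (Finset P) → Set (Set (Finset P)) → Prop}
    (hQ : ∀ A Y F, Q A Y F → BdAll n A Y F) {A : Subgroup Γ} {Y : Set (Finset P)}
    {F : Set (Set (Finset P))} (h : Hier n Q A Y F) :
    (∀ f ∈ F, f ⊆ Y) → (∀ p : Pce Γ P, p.Ok → p.A = A → p.Y = Y → p.F = F →
      ∀ k, n < 2 * k → p.Bd k) ∧ F3 F := by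
  induction h with
  | cell A Y F h =>
    intro _
    refine ⟨fun p hp e1 e2 e3 k hk => ?_, h.f3⟩
    subst e1
    subst e2
    subst e3
    exact hp.chamber ⟨h.hcell.full, h.hcell.acyc,
      h.hcell.mfd.elim Or.inl (fun k => Or.inr (Or.inl k)), Or.inl h.fin⟩ k (by omega)
  | low A Y F hn hc hb hq =>
    intro _
    refine ⟨fun p hp e1 e2 e3 k hk => ?_, hc.tri⟩
    subst e1
    subst e2
    subst e3
    have h0 := hp.bd_empty hb k hk
    rcases hn with hn | hn
    · obtain ⟨j, rfl⟩ : ∃ j, k = j + 1 := ⟨k - 1, by omega⟩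
      obtain ⟨i, hi⟩ := hn
      exact hp.lemS hc j h0 fun f hf E hE hinv =>
        hQ _ _ _ (hq f hf) (p.wall f) (hp.wall_ok hc hf) rfl rfl rfl E hE hinv j (by omega)
    · have e : p.sub ∅ = p := by
        rw [← hn]
        rfl
      rwa [e] at h0
  | cut A Y F V h hv ih =>
    intro hF
    have h1 := fun v hv => ih v hv (facesOf_sub F V v)
    have h2 := h.cutH hF fun v hv => (h1 v hv).2
    refine ⟨fun p hp e1 e2 e3 m hm => ?_, h2.f3 hF fun v hv => (h1 v hv).2⟩
    subst e1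
    subst e2
    subst e3
    let C : Cut Γ P := ⟨p, V, h2⟩
    obtain ⟨ι, iι, v, hvV, hs⟩ := C.step hp
    have h1' := (hs (m + 1)).1
    have h2' := (hs m).1
    have h3 := (hs m).2
    have h4 : ∀ i, (C.sub (v i)).T (m + 1) + (C.sub (v i)).T m ≤ (C.sub (v i)).N m := fun i =>
      (h1 (v i) (hvV i)).1 (C.sub (v i)) (C.sub_ok hp (hvV i)) rfl rfl rfl m hm
    have h5 := Finset.sum_le_sum fun i (_ : i ∈ Finset.univ) => h4 i
    rw [Finset.sum_add_distrib] at h5
    show C.p.T (m + 1) + C.p.T m ≤ C.p.N m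
    linarith

theorem Strat.bound (n : ℕ) : ∀ {A : Subgroup Γ} {Y : Set (Finset P)}
    {F : Set (Set (Finset P))}, Strat n A Y F → BdAll n A Y F := by
  induction n with
  | zero =>
    intro A Y F h
    exact absurd h id
  | succ n ih =>
    intro A Y F h p hp e1 e2 e3 E hE hinv k hk
    obtain ⟨h1, h2, h3⟩ := h
    subst e1
    subst e2
    subst e3
    have hB : p.Bd k := (h1.bound (fun A Y F h => ih h) hp.fsub).1 p hp rfl rfl rfl k
      (by omega)
    exact hp.lemR h2 k hB (fun f hf E hE hinv =>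
      ih (h3 f hf) (p.wall f) (hp.wall_ok h2 hf) rfl rfl rfl E hE hinv k (by omega)) E hE hinv

end SingerHK
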