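import Mathlib
import Pool.Agent.Lib_MP_394d50_hr.WCls
import Pool.Agent.Lib_MP_394d50_cub.DMain
import Pool.Agent.Lib_MP_394d50_cub.ABet

/-!
# MP_394d50_gt, hierarchies with arbitrary end pieces: the main theorem

The bound for the complex `X` gives the vanishing above the middle dimension; below it is Poincaré duality.
-/

namespace SingerHK

open SingerRA SingerVS SingerCub SingerRN
open scoped Pointwise

variable {Γ P : Type} [Group Γ] [LinearOrder P] [MulAction Γ P] {X : Set (Finset P)}

/-- No harmonic chains above the middle dimension. -/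
theorem nh_of_hier (hX : FreeCx Γ X) {n : ℕ} (h : Hier n (Strat n) (⊤ : Subgroup Γ) X ∅)
    (k : ℕ) (hk : n < 2 * k) : NH (simpCx X (fun x y : P => x < y)) Set.univ k := by
  classical
  obtain ⟨p, hp, e1, e2, e3⟩ := exists_pce hX
  have hb := (h.bound (fun A Y F h => h.bound) fun f hf => absurd hf (Set.notMem_empty f)).1 p
    hp e1 e2 e3 k hk
  subst e2
  refine nh_of_betti hX k ?_
  unfold bettiX
  refine finsum_eq_zero_of_forall_eq_zero fun o => ?_
  split_ifs with h1
  · exact hp.locDim_zero_of_bound e3 (fun σ _ => totOn_lt σ) k hb ⟨o.out, h1.1⟩ h1.2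
  · rfl

/-- Poincaré duality and the Euler characteristic. -/
theorem main_dual (hX : FreeCx Γ X) (hA : Acyc X) {n : ℕ} (hM : HomMfd n X)
    (hhigh : ∀ k, n < 2 * k → NH (simpCx X (fun x y : P => x < y)) Set.univ k) :
    (∀ k, 2 * k ≠ n → bettiX Γ X k = 0) ∧
      (∀ k, 2 * k = n → bettiX Γ X k = (-1 : ℝ) ^ k * chiX Γ X) ∧
      ((∀ k, bettiX Γ X k = 0) ↔ chiX Γ X = 0) ∧
      ∀ k, 2 * k = n → 0 ≤ (-1 : ℤ) ^ k * chiX Γ X := by
  classical
  obtain ⟨I, s, hs, hSI, hdim, hinc, hFI⟩ := exists_inv hX
  have hI : letI := sxAct (K := Γ) hX.inv; ∀ (h : Γ) (p q : SX X),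
      I.inc (h • p) (h • q) = I.inc p q := by
    letI := sxAct (K := Γ) hX.inv
    exact hFI.inc_smul
  have hss : ∀ c, s c * s c = 1 := fun c => by
    rcases hs c with h | h <;> rw [h] <;> norm_num
  -- back to the orientations given by the order
  have hback : ∀ k, NH I Set.univ k → NH (simpCx X (fun x y : P => x < y)) Set.univ k := by
    intro k h
    have h2 := (nh_map (I := I) (I' := simpCx X (fun x y : P => x < y)) (S := Set.univ)
      (fun c => c) (fun a _ b _ e => e) s hs 1 (Or.inl rfl) (fun p _ q _ => by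
        rw [hinc, one_mul]
        calc (simpCx X (fun x y : P => x < y)).inc p q
            = (s p * s p) * (s q * s q) * (simpCx X (fun x y : P => x < y)).inc p q := by
              rw [hss, hss, one_mul, one_mul]
          _ = _ := by ring) 0 0 (fun p _ => by rw [hdim]) k).mp h
    rw [Set.image_id'] at h2
    exact h2
  have hforth : ∀ k, NH (simpCx X (fun x y : P => x < y)) Set.univ k → NH I Set.univ k := by
    intro k h
    have h2 := (nh_map (I := simpCx X (fun x y : P => x < y)) (I' := I) (S := Set.univ)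
      (fun c => c) (fun a _ b _ e => e) s hs 1 (Or.inl rfl) (fun p _ q _ => by
        rw [hinc, one_mul]) 0 0 (fun p _ => by rw [hdim]) k).mp h
    rw [Set.image_id'] at h2
    exact h2
  have h2 : ∀ k, 2 * k ≠ n → NH (simpCx X (fun x y : P => x < y)) Set.univ k := by
    intro k hk
    rcases lt_or_ge n (2 * k) with h | h
    · exact hhigh k h
    · have h3 := nh_dual hX hA hM hSI hI (n - k) (by omega) (hforth _ (hhigh _ (by omega)))
      rw [show n - (n - k) = k by omega] at h3
      exact hback k h3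
  -- the Euler characteristic
  have hXT : FreeCx (⊤ : Subgroup Γ) X := hX.of_finiteIndex ⊤ inferInstance
  obtain ⟨I2, s2, hs2, _, hdim2, hinc2, hFI2⟩ := exists_inv hXT
  letI iA : MulAction Γ {σ : Finset P // σ ∈ X} := simpAct hX.inv
  have hsm : ∀ (h : Γ) (c : {σ : Finset P // σ ∈ X}), (h • c).1 = h • c.1 := fun _ _ => rfl
  have hr0 : ∀ σ ∈ X, TotOn (fun x y : P => x < y) σ := fun σ _ => SingerCub.totOn_lt σ
  have hloc := locDim_smul_simp (H := Γ) hX.inv hsm hr0
  have hfree : ∀ (g : Γ) (c : {σ : Finset P // σ ∈ X}), g • c = c → g = 1 :=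
    fun g c h => hX.free g c.1 c.2 (congrArg Subtype.val h)
  have hfin : Finite (Orb Γ {σ : Finset P // σ ∈ X}) := hFI.cofin
  have key := betti_final (Γ := Γ) (I := simpCx X (fun x y : P => x < y)) (I' := I2) ⊤
    hfree hfin (fun g c => by
      show (g • c.1).card - 1 = c.1.card - 1
      rw [Finset.card_smul_finset]) hloc hdim2 (fun c =>
      locDim_twist (simpCx X (fun x y : P => x < y)) I2 (Equiv.refl _) s2 hs2
        (fun p q => hinc2 p q) c) hFI2 n (fun c hc => by
      have h3 : c.1.card = (c.1.card - 1) + 1 := by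
        have := Finset.card_pos.mpr (hX.ne _ c.2)
        omega
      exact locDim_of_nh hX (c.1.card - 1) (h2 _ hc) c h3)
  rw [chiX_eq hX]
  have hb : ∀ k, bettiX Γ X k = l2Betti Γ (simpCx X (fun x y : P => x < y)) k :=
    fun k => bettiX_eq hX (fun g c => hloc g c) k
  simp only [hb]
  exact key

/-- **The Singer conjecture for manifolds which have, for a subgroup of finite index, a hierarchy with arbitrary
end pieces.** -/
theorem main_hr (hX : FreeCx Γ X) {n : ℕ} (hA : ContractibleSpace (geo X) ∨ Acyc X)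
    (hM : LocEuc n (geo X) ∨ HomMfd n X) (K : Subgroup Γ) (hK : K.FiniteIndex)
    (h : Hier n (Strat n) (⊤ : Subgroup K) X ∅) :
    (∀ k, 2 * k ≠ n → bettiX Γ X k = 0) ∧
      (∀ k, 2 * k = n → bettiX Γ X k = (-1 : ℝ) ^ k * chiX Γ X) ∧
      ((∀ k, bettiX Γ X k = 0) ↔ chiX Γ X = 0) ∧
      ∀ k, 2 * k = n → 0 ≤ (-1 : ℤ) ^ k * chiX Γ X := by
  have hD : Dn X := fun σ hσ τ h1 h2 => hX.down σ hσ τ h1 h2
  have hA' : Acyc X := by
    rcases hA with h | h
    · refine acyc_of_contractible hD hX.ne (fun σ hσ => ?_) h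
      have h4 : ((fun p => insert p σ) '' {p | p ∉ σ ∧ insert p σ ∈ X}).Finite := by
        refine (hX.finStar hσ).subset ?_
        rintro _ ⟨p, ⟨_, h2⟩, rfl⟩
        exact ⟨h2, Finset.subset_insert p σ⟩
      refine Set.Finite.of_finite_image h4 ?_
      intro p hp q _ e
      have h3 : p ∈ insert q σ := by
        rw [← show insert p σ = insert q σ from e]
        exact Finset.mem_insert_self p σ
      exact (Finset.mem_insert.mp h3).resolve_right hp.1
    · exact h
  have hM' : HomMfd n X := by
    rcases hM with h | h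
    · exact homMfd_of_locEuc hD hX.ne (fun σ hσ => hX.finStar hσ) h
    · exact h
  exact main_dual hX hA' hM' (nh_of_hier (hX.of_finiteIndex K hK) h)

end SingerHK
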